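import Pool.Agent.R941.FJ.Hyper
import Pool.Agent.R779.FJ.Col

/-!
# Realizations on one subgroup, extensions by free groups
-/

set_option autoImplicit false

namespace Pool.Agent.R684.FP

open Pool.Agent.Y110.FJ
open Pool.Agent.R941.FJ (C_equiv C_le C_cyc mem_sup_normal)
open Pool.Agent.Y462.SS (Closed)

variable {C : ∀ (G : Type) [Group G], Prop}

/-- the elements which act on `K` like an element of `H` -/
def rl {G H : Type} [Group G] [Group H] (K : Subgroup G) (f : K →* H) : Subgroup G where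
  carrier := {g | (∀ x, x ∈ K ↔ g * x * g⁻¹ ∈ K) ∧ ∃ p : H, ∀ x y : K, (y : G) = g * x * g⁻¹ →
    f y = p * f x * p⁻¹}
  one_mem' := ⟨fun x => by simp, 1, fun x y h => by
    have : y = x := Subtype.ext (by simpa using h)
    rw [this]; simp⟩
  mul_mem' := by
    rintro g h ⟨h1, p, hp⟩ ⟨h2, q, hq⟩
    refine ⟨fun x => ?_, p * q, fun x y hxy => ?_⟩
    · rw [h2 x, h1]
      have : g * (h * x * h⁻¹) * g⁻¹ = g * h * x * (g * h)⁻¹ := by group
      rw [this]
    · have hz : h * (x : G) * h⁻¹ ∈ K := (h2 _).1 x.2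
      rw [hp ⟨h * (x : G) * h⁻¹, hz⟩ y (by rw [hxy]; group), hq x ⟨h * (x : G) * h⁻¹, hz⟩ rfl]
      group
  inv_mem' := by
    rintro g ⟨h1, p, hp⟩
    refine ⟨fun x => ?_, p⁻¹, fun x y hxy => ?_⟩
    · rw [h1 (g⁻¹ * x * g⁻¹⁻¹)]
      have : g * (g⁻¹ * x * g⁻¹⁻¹) * g⁻¹ = x := by group
      rw [this]
    · have := hp y x (by rw [hxy]; group)
      rw [this]
      group

theorem le_rl {G H : Type} [Group G] [Group H] (K : Subgroup G) (f : K →* H) : K ≤ rl K f := by
  intro k hk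
  refine ⟨fun x => ?_, f ⟨k, hk⟩, fun x y hxy => ?_⟩
  · constructor
    · intro hx
      exact K.mul_mem (K.mul_mem hk hx) (K.inv_mem hk)
    · intro hx
      have := K.mul_mem (K.mul_mem (K.inv_mem hk) hx) hk
      have h2 : k⁻¹ * (k * x * k⁻¹) * k = x := by group
      rwa [h2] at this
  · have : y = ⟨k, hk⟩ * x * ⟨k, hk⟩⁻¹ := Subtype.ext hxy
    rw [this]
    simp

/-- a cyclic extension on which the action is realized -/
theorem cyc_real (hC : ClosedE C) {G H : Type} [Group G] [Group H] (K : Subgroup G) (g : G)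
    (hg : ∀ x, x ∈ K ↔ g * x * g⁻¹ ∈ K) (f : K →* H) (hf : Function.Injective f) (u : H)
    (hu : ∀ x y : K, (y : G) = g * x * g⁻¹ → f y = u * f x * u⁻¹) (hH : C H) :
    C ↥(K ⊔ Subgroup.zpowers g) := by
  obtain ⟨P, hP⟩ : ∃ P : Subgroup G, P = K ⊔ Subgroup.zpowers g := ⟨_, rfl⟩
  rw [← hP]
  have hKP : K ≤ P := by rw [hP]; exact le_sup_left
  have hgP : g ∈ P := by rw [hP]; exact Subgroup.mem_sup_right (Subgroup.mem_zpowers g)
  have hle : P ≤ rl K f := by
    rw [hP]
    refine sup_le (le_rl K f) ?_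
    rw [Subgroup.zpowers_le]
    exact ⟨hg, u, hu⟩
  have hn : (K.subgroupOf P).Normal := by
    refine ⟨fun x hx h => ?_⟩
    rw [Subgroup.mem_subgroupOf] at hx ⊢
    exact ((hle h.2).1 x).1 hx
  have hQ : C (P ⧸ K.subgroupOf P) := by
    obtain ⟨q, hq⟩ : ∃ q : P ⧸ K.subgroupOf P, q = QuotientGroup.mk ⟨g, hgP⟩ := ⟨_, rfl⟩
    have h1 : Subgroup.zpowers q = ⊤ := by
      rw [← top_le_iff]
      have h2 : (⊤ : Subgroup P) ≤ (Subgroup.zpowers q).comap (QuotientGroup.mk' (K.subgroupOf P)) := by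
        have h3 : P ≤ ((Subgroup.zpowers q).comap (QuotientGroup.mk' (K.subgroupOf P))).map
            P.subtype := by
          refine hP.le.trans (sup_le ?_ ?_)
          · intro x hx
            refine ⟨⟨x, hKP hx⟩, ?_, rfl⟩
            show ((⟨x, hKP hx⟩ : P) : P ⧸ K.subgroupOf P) ∈ Subgroup.zpowers q
            rw [(QuotientGroup.eq_one_iff _).2 (by rw [Subgroup.mem_subgroupOf]; exact hx)]
            exact one_mem _
          · rw [Subgroup.zpowers_le]
            refine ⟨⟨g, hgP⟩, ?_, rfl⟩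
            show ((⟨g, hgP⟩ : P) : P ⧸ K.subgroupOf P) ∈ Subgroup.zpowers q
            rw [← hq]
            exact Subgroup.mem_zpowers q
        intro x _
        obtain ⟨y, hy, hyx⟩ := h3 x.2
        have : y = x := Subtype.ext hyx
        rw [← this]
        exact hy
      intro x _
      obtain ⟨y, rfl⟩ := QuotientGroup.mk_surjective x
      exact h2 (Subgroup.mem_top y)
    refine C_equiv hC.base Subgroup.topEquiv.symm ?_
    rw [← h1]
    exact C_cyc hC.base q
  refine Pool.Agent.R779.FJ.t_crit Pool.Agent.Y529.FJ.t_ext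
    (Pool.Agent.Y961.FJ.t_perm Pool.Agent.Y529.FJ.t_ext) C hC P (K.subgroupOf P) hQ
    fun h E hE hEN => ?_
  obtain ⟨h1, p, hp⟩ := hle h.2
  have hcl : Subgroup.closure (E ∪ (fun x => h * x * h⁻¹) '' E) ≤ K.subgroupOf P := by
    rw [Subgroup.closure_le]
    refine Set.union_subset hEN ?_
    rintro _ ⟨x, hx, rfl⟩
    exact hn.conj_mem x (hEN hx) h
  refine ⟨H, inferInstance, (f.comp (Subgroup.subgroupOfEquivOfLe hKP).toMonoidHom).comp
    (Subgroup.inclusion hcl), p, hH, ?_, ?_⟩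
  · exact (hf.comp (Subgroup.subgroupOfEquivOfLe hKP).injective).comp
      (Subgroup.inclusion_injective hcl)
  · intro x y _ hy
    refine hp _ _ ?_
    show ((y : P) : G) = (h : G) * ((x : P) : G) * (h : G)⁻¹
    rw [hy]
    rfl

/-- free-by-cyclic groups -/
def FbC (C : ∀ (G : Type) [Group G], Prop) : Prop :=
  ∀ (X : Type) (α : MulAut (FreeGroup X)),
    C (FreeGroup X ⋊[zpowersHom (MulAut (FreeGroup X)) α] Multiplicative ℤ)

theorem free_cyc (hC : ClosedE C) (hF : FbC C) {G : Type} [Group G] (K : Subgroup G)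
    [hKn : K.Normal] [IsFreeGroup K] (g : G) : C ↥(K ⊔ Subgroup.zpowers g) := by
  obtain ⟨X, ⟨e⟩⟩ : ∃ X : Type, Nonempty (K ≃* FreeGroup X) :=
    ⟨IsFreeGroup.Generators K, ⟨IsFreeGroup.toFreeGroup K⟩⟩
  obtain ⟨c, hc⟩ : ∃ c : MulAut K, c = MulAut.conjNormal g := ⟨_, rfl⟩
  obtain ⟨α, hα⟩ : ∃ α : MulAut (FreeGroup X), α = (e.symm.trans c).trans e := ⟨_, rfl⟩
  refine cyc_real hC K g (fun x => ⟨fun hx => hKn.conj_mem x hx g, fun hx => ?_⟩)
    ((SemidirectProduct.inl (φ := zpowersHom (MulAut (FreeGroup X)) α)).comp e.toMonoidHom) ?_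
    (SemidirectProduct.inr (Multiplicative.ofAdd 1)) ?_ (hF X α)
  · have := hKn.conj_mem _ hx g⁻¹
    have h2 : g⁻¹ * (g * x * g⁻¹) * g⁻¹⁻¹ = x := by group
    rwa [h2] at this
  · exact SemidirectProduct.inl_injective.comp e.injective
  · intro x y hxy
    have h1 : y = c x := by
      apply Subtype.ext
      rw [hc, MulAut.conjNormal_apply, hxy]
    show SemidirectProduct.inl (e y) = SemidirectProduct.inr (Multiplicative.ofAdd 1) *
      SemidirectProduct.inl (e x) * (SemidirectProduct.inr (Multiplicative.ofAdd 1))⁻¹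
    rw [← map_inv, ← SemidirectProduct.inl_aut]
    congr 1
    rw [zpowersHom_apply, toAdd_ofAdd, zpow_one, hα, h1]
    show e (c x) = e (c (e.symm (e x)))
    rw [e.symm_apply_apply]

/-- **extensions by free groups** -/
theorem free_ext (hC : ClosedE C) (hF : FbC C) {G : Type} [Group G] (K : Subgroup G)
    [K.Normal] [IsFreeGroup K] (hQ : C (G ⧸ K)) : C G := by
  refine Pool.Agent.Y529.FJ.t_ext C hC G K ?_ hQ fun g _ => free_cyc hC hF K g
  exact C_le hC.base le_sup_left (free_cyc hC hF K 1)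

end Pool.Agent.R684.FP
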