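import Pool.Agent.R684.FP.Gpw

/-!
# Extensions by graph products
-/

set_option autoImplicit false

namespace Pool.Agent.R684.FP

open Monoid.CoprodI (of)
open Pool.Agent.Y110.FJ
open Pool.Agent.R941.FJ (C_equiv C_le C_cyc mem_sup_normal)
open Pool.Agent.Y462.SS (Closed)

variable {C : ∀ (G : Type) [Group G], Prop}

section gp

variable {G V : Type} [Group G] {Λ : SimpleGraph V} {A : V → Subgroup G} {N : Subgroup G}

/-- the part over a set of vertices -/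
def Kf (A : V → Subgroup G) (F : Set V) : Subgroup G := ⨆ w, ⨆ _ : w ∈ F, A w

theorem le_Kf {F : Set V} {w : V} (hw : w ∈ F) : A w ≤ Kf A F :=
  le_iSup₂_of_le (f := fun w (_ : w ∈ F) => A w) w hw le_rfl

theorem Kf_mono {F F' : Set V} (hF : F ⊆ F') : Kf A F ≤ Kf A F' :=
  iSup₂_le fun _ hw => le_Kf (hF hw)

theorem ex_Kf {x : G} (hx : x ∈ ⨆ v, A v) : ∃ F : Set V, F.Finite ∧ x ∈ Kf A F := by
  have h1 : (⨆ v, A v) ≤
      { carrier := {x | ∃ F : Set V, F.Finite ∧ x ∈ Kf A F}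
        one_mem' := ⟨∅, Set.finite_empty, one_mem _⟩
        mul_mem' := by
          rintro x y ⟨F, hF, hx⟩ ⟨F', hF', hy⟩
          exact ⟨F ∪ F', hF.union hF', mul_mem (Kf_mono Set.subset_union_left hx)
            (Kf_mono Set.subset_union_right hy)⟩
        inv_mem' := by
          rintro x ⟨F, hF, hx⟩
          exact ⟨F, hF, inv_mem hx⟩ : Subgroup G } :=
    iSup_le fun v x hx => ⟨{v}, Set.finite_singleton v, le_Kf (Set.mem_singleton v) hx⟩
  exact h1 hx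

theorem ex_Kf' {E : Set G} (hE : E.Finite) (hx : ∀ x ∈ E, x ∈ ⨆ v, A v) :
    ∃ F : Set V, F.Finite ∧ ∀ x ∈ E, x ∈ Kf A F := by
  induction E, hE using Set.Finite.induction_on with
  | empty => exact ⟨∅, Set.finite_empty, fun x hx => absurd hx (Set.notMem_empty x)⟩
  | insert _ _ ih =>
    rename_i a s _ _
    obtain ⟨F, hF, h1⟩ := ih (fun x hxs => hx x (Set.mem_insert_of_mem _ hxs))
    obtain ⟨F', hF', h2⟩ := ex_Kf (hx a (Set.mem_insert _ _))
    refine ⟨F ∪ F', hF.union hF', ?_⟩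
    intro x hx
    rcases Set.mem_insert_iff.1 hx with rfl | hx
    · exact Kf_mono Set.subset_union_right h2
    · exact Kf_mono Set.subset_union_left (h1 x hx)

/-- the remaining part meets the killed part trivially -/
theorem Kf_inf (h : IsGP Λ A N) {F : Set V} {x : G} (hx : x ∈ Kf A F) (hx' : x ∈ Kd A N Fᶜ) :
    x = 1 := by
  obtain ⟨ρ, hρ1, hρ2⟩ := ex_ret h F
  have hxN := (Kd_kil h Fᶜ).le hx'
  have h1 := (Kd_kil h Fᶜ).kill G ρ (fun u hu a ha => hρ2 u hu a ha) ⟨x, hxN⟩ hx'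
  have h2 : Kf A F ≤
      { carrier := {x | ∃ hx : x ∈ N, ρ ⟨x, hx⟩ = x}
        one_mem' := ⟨one_mem _, map_one ρ⟩
        mul_mem' := by
          rintro x y ⟨hx, h1⟩ ⟨hy, h2⟩
          refine ⟨mul_mem hx hy, ?_⟩
          show ρ (⟨x, hx⟩ * ⟨y, hy⟩) = x * y
          rw [map_mul, h1, h2]
        inv_mem' := by
          rintro x ⟨hx, h1⟩
          refine ⟨inv_mem hx, ?_⟩
          show ρ (⟨x, hx⟩⁻¹) = x⁻¹
          rw [map_inv, h1] : Subgroup G } :=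
    iSup₂_le fun w hw x hx => ⟨h.le w hx, hρ1 w hw ⟨x, h.le w hx⟩ hx⟩
  obtain ⟨_, h3⟩ := h2 hx
  rw [← h3]
  exact h1

theorem Kd_N (D : Set V) {n x : G} (hn : n ∈ N) (hx : x ∈ Kd A N D) : n * x * n⁻¹ ∈ Kd A N D := by
  have h1 : Kd A N D ≤ (Kd A N D).comap (MulAut.conj n).toMonoidHom := by
    conv_lhs => rw [Kd]
    rw [Subgroup.closure_le]
    rintro x ⟨w, hw, m, hm, hx⟩
    show n * x * n⁻¹ ∈ Kd A N D
    refine Subgroup.subset_closure ⟨w, hw, m * n⁻¹, mul_mem hm (inv_mem hn), ?_⟩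
    have : m * n⁻¹ * (n * x * n⁻¹) * (m * n⁻¹)⁻¹ = m * x * m⁻¹ := by group
    rwa [this]
  exact h1 hx

theorem Kd_g [hN : N.Normal] {D : Set V} {g : G} (hg : ∀ w ∈ D, A w = ⊥ ∨ ∃ u ∈ D, Cj A N g w u)
    {x : G} (hx : x ∈ Kd A N D) : g * x * g⁻¹ ∈ Kd A N D := by
  have h1 : Kd A N D ≤ (Kd A N D).comap (MulAut.conj g).toMonoidHom := by
    conv_lhs => rw [Kd]
    rw [Subgroup.closure_le]
    rintro x ⟨w, hw, m, hm, hx⟩
    show g * x * g⁻¹ ∈ Kd A N D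
    rcases hg w hw with hb | ⟨u, hu, n, hn, hnx⟩
    · rw [hb, Subgroup.mem_bot] at hx
      have h2 : x = m⁻¹ * (m * x * m⁻¹) * m := by group
      rw [h2, hx]
      have h3 : g * (m⁻¹ * 1 * m) * g⁻¹ = 1 := by group
      rw [h3]
      exact one_mem _
    · refine Subgroup.subset_closure ⟨u, hu, n * (g * m * g⁻¹),
        mul_mem hn (hN.conj_mem m hm g), ?_⟩
      have h2 := (hnx _).1 hx
      have h3 : n * (g * m * g⁻¹) * (g * x * g⁻¹) * (n * (g * m * g⁻¹))⁻¹ =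
        n * (g * (m * x * m⁻¹) * g⁻¹) * n⁻¹ := by group
      rwa [h3]
  exact h1 hx

/-- finite invariant sets of vertices -/
theorem fin_closed [N.Normal] (h : IsGP Λ A N) (g : G) (h1 : ∀ v, ∃ k : ℕ, 0 < k ∧ Cj A N (g ^ k) v v)
    (h2 : Finite V ∨ ∀ (j : ℤ) v, ∃ w, Cj A N (g ^ j) v w) {F₀ : Set V} (hF : F₀.Finite) :
    ∃ F : Set V, F.Finite ∧ Kf A F₀ ≤ Kf A F ∧ ∀ j : ℤ, ∀ w ∈ Fᶜ, A w = ⊥ ∨ ∃ u ∈ Fᶜ, Cj A N (g ^ j) w u := by
  rcases h2 with hV | h2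
  · refine ⟨Set.univ, Set.finite_univ, Kf_mono (Set.subset_univ _), ?_⟩
    intro j w hw
    exact absurd (Set.mem_univ w) hw
  obtain ⟨S, hS⟩ : ∃ S : V → Set V, S = fun v => {w | A w ≠ ⊥ ∧ ∃ i : ℤ, Cj A N (g ^ i) v w} := ⟨_, rfl⟩
  have hSf : ∀ v, (S v).Finite := by
    intro v
    obtain ⟨k, hk, hkv⟩ := h1 v
    have h3 : S v ⊆ ⋃ r ∈ (Set.Iio k), {w | A w ≠ ⊥ ∧ Cj A N (g ^ r) v w} := by
      rw [hS]
      rintro w ⟨hw, i, hi⟩
      rw [Set.mem_iUnion₂]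
      have hk' : (k : ℤ) ≠ 0 := by exact_mod_cast hk.ne'
      have hnn := Int.emod_nonneg i hk'
      have hlt := Int.emod_lt_of_pos i (by exact_mod_cast hk : (0 : ℤ) < k)
      refine ⟨(i % k).toNat, ?_, hw, ?_⟩
      · show (i % k).toNat < k
        omega
      · -- `g ^ r = g ^ i * (g ^ k) ^ (- q)`
        have h4 : ∀ q : ℤ, Cj A N ((g ^ k) ^ q) v v := by
          intro q
          have h5 : g ^ k ∈ ClStab N (A v) := hkv
          exact zpow_mem h5 q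
        have h5 := Cj_mul (h4 (-(i / k))) hi
        have h6 : g ^ i * (g ^ k) ^ (-(i / (k : ℤ))) = g ^ (i % k).toNat := by
          rw [← zpow_natCast g k, ← zpow_mul, ← zpow_add, ← zpow_natCast g (i % k).toNat,
            Int.toNat_of_nonneg hnn]
          congr 1
          have := Int.emod_add_mul_ediv i k
          linarith
        rwa [h6] at h5
    refine Set.Finite.subset ((Set.finite_Iio k).biUnion fun r _ => ?_) h3
    refine Set.Subsingleton.finite ?_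
    rintro w ⟨hw, hwc⟩ w' ⟨hw', hwc'⟩
    have h4 := Cj_mul (Cj_inv hwc) hwc'
    rw [mul_inv_cancel] at h4
    exact Cj_eq h h4 hw'
  refine ⟨⋃ v ∈ F₀, S v, hF.biUnion fun v _ => hSf v, ?_, ?_⟩
  · refine iSup₂_le fun v hv => ?_
    by_cases hb : A v = ⊥
    · rw [hb]
      exact bot_le
    · refine le_Kf (Set.mem_iUnion₂.2 ⟨v, hv, ?_⟩)
      rw [hS]
      exact ⟨hb, 0, by rw [zpow_zero]; exact Cj_one v⟩
  · intro j w hw
    by_cases hb : A w = ⊥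
    · exact Or.inl hb
    · right
      obtain ⟨u, hu⟩ := h2 j w
      refine ⟨u, ?_, hu⟩
      intro huF
      apply hw
      rw [Set.mem_iUnion₂] at huF ⊢
      obtain ⟨v, hv, hvS⟩ := huF
      refine ⟨v, hv, ?_⟩
      rw [hS] at hvS ⊢
      obtain ⟨_, i, hi⟩ := hvS
      refine ⟨hb, -j + i, ?_⟩
      rw [zpow_add, zpow_neg]
      exact Cj_mul hi (Cj_inv hu)

/-- finite index in `N ⟨g⟩` -/
theorem fin_idx [N.Normal] (g : G) (hG : N ⊔ Subgroup.zpowers g = ⊤) (H : Subgroup G) (hNH : N ≤ H)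
    {k : ℕ} (hk : 0 < k) (hg : g ^ k ∈ H) : H.FiniteIndex := by
  have hsur : Function.Surjective (fun i : Fin k => ((g ^ (i : ℕ) : G) : G ⧸ H)) := by
    intro x
    obtain ⟨x, rfl⟩ := QuotientGroup.mk_surjective x
    have hx : x ∈ N ⊔ Subgroup.zpowers g := by rw [hG]; trivial
    obtain ⟨n, hn, y, ⟨i, rfl⟩, rfl⟩ := mem_sup_normal.1 hx
    have hk' : (k : ℤ) ≠ 0 := by exact_mod_cast hk.ne'
    have hnn := Int.emod_nonneg i hk'
    have hlt := Int.emod_lt_of_pos i (by exact_mod_cast hk : (0 : ℤ) < k)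
    refine ⟨⟨(i % k).toNat, by omega⟩, ?_⟩
    show ((g ^ (i % k).toNat : G) : G ⧸ H) = ((n * g ^ i : G) : G ⧸ H)
    rw [QuotientGroup.eq]
    have h6 : g ^ i = g ^ (i % k).toNat * (g ^ k) ^ (i / (k : ℤ)) := by
      rw [← zpow_natCast g k, ← zpow_mul, ← zpow_natCast g (i % k).toNat, ← zpow_add,
        Int.toNat_of_nonneg hnn]
      congr 1
      exact (Int.emod_add_mul_ediv i k).symm
    rw [h6]
    have h7 : (g ^ (i % k).toNat)⁻¹ * (n * (g ^ (i % k).toNat * (g ^ k) ^ (i / (k : ℤ)))) =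
        ((g ^ (i % k).toNat)⁻¹ * n * (g ^ (i % k).toNat)⁻¹⁻¹) * (g ^ k) ^ (i / (k : ℤ)) := by group
    rw [h7]
    exact mul_mem (hNH (Subgroup.Normal.conj_mem inferInstance n hn _)) (zpow_mem hg _)
  have hfin : Finite (G ⧸ H) := Finite.of_surjective _ hsur
  exact Subgroup.finiteIndex_of_finite_quotient

/-- **extensions by graph products** -/
theorem gp_ext (hC : ClosedE C) (hF : FbC C) [hN : N.Normal] (h : IsGP Λ A N) (hQ : C (G ⧸ N))
    (h1 : ∀ (g : G) (v : V), ∃ k : ℕ, 0 < k ∧ Cj A N (g ^ k) v v)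
    (h2 : Finite V ∨ ∀ (g : G) (v : V), ∃ w, Cj A N g v w)
    (hB : ∀ v, ∀ g : G, (∀ x, x ∈ A v ↔ g * x * g⁻¹ ∈ A v) → C ↥(A v ⊔ Subgroup.zpowers g)) :
    C G := by
  refine Pool.Agent.R779.FJ.t_crit Pool.Agent.Y529.FJ.t_ext
    (Pool.Agent.Y961.FJ.t_perm Pool.Agent.Y529.FJ.t_ext) C hC G N hQ
    fun g E hE hEN => ?_
  -- the finite set of vertices
  have hE' : (E ∪ (fun x => g * x * g⁻¹) '' E).Finite := hE.union (hE.image _)
  have hEN' : ∀ x ∈ E ∪ (fun x => g * x * g⁻¹) '' E, x ∈ ⨆ v, A v := by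
    intro x hx
    rw [h.sup]
    rcases hx with hx | ⟨y, hy, rfl⟩
    · exact hEN hx
    · exact hN.conj_mem y (hEN hy) g
  obtain ⟨F₀, hF₀, hEF₀⟩ := ex_Kf' hE' hEN'
  obtain ⟨F, hFf, hFF, hFg⟩ := fin_closed h g (h1 g)
    (h2.imp id fun h2 j v => h2 (g ^ j) v) hF₀
  obtain ⟨K, hKdef⟩ : ∃ K, K = Kd A N Fᶜ := ⟨_, rfl⟩
  have hK : Kil A N Fᶜ K := hKdef ▸ Kd_kil h Fᶜ
  obtain ⟨G₁, hG₁⟩ : ∃ G₁ : Subgroup G, G₁ = N ⊔ Subgroup.zpowers g := ⟨_, rfl⟩
  have hNG : N ≤ G₁ := by rw [hG₁]; exact le_sup_left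
  have hgG : g ∈ G₁ := by rw [hG₁]; exact Subgroup.mem_sup_right (Subgroup.mem_zpowers g)
  have hKn : (K.subgroupOf G₁).Normal := by
    refine ⟨fun x hx y => ?_⟩
    rw [Subgroup.mem_subgroupOf] at hx ⊢
    have hy : (y : G) ∈ N ⊔ Subgroup.zpowers g := by rw [← hG₁]; exact y.2
    obtain ⟨n, hn, z, ⟨j, rfl⟩, hnz⟩ := mem_sup_normal.1 hy
    show (y : G) * x * (y : G)⁻¹ ∈ K
    rw [← hnz]
    have h3 : n * g ^ j * (x : G) * (n * g ^ j)⁻¹ = n * (g ^ j * x * (g ^ j)⁻¹) * n⁻¹ := by group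
    show n * g ^ j * (x : G) * (n * g ^ j)⁻¹ ∈ K
    rw [h3, hKdef]
    refine Kd_N _ hn (Kd_g (hFg j) ?_)
    rw [← hKdef]
    exact hx
  have hCP : C (G₁ ⧸ K.subgroupOf G₁) := by
    refine lemY hC hF (h.sub hNG) (hK.sub hNG) ?_ ?_ ?_ ?_
    · rw [compl_compl]
      exact hFf
    · intro w _
      obtain ⟨k, hk, hkw⟩ := h1 g w
      refine fin_idx (N := N.subgroupOf G₁) (⟨g, hgG⟩ : G₁) ?_ _ ?_ hk ?_
      · apply Subgroup.map_injective G₁.subtype_injective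
        rw [Subgroup.map_sup, Subgroup.subgroupOf_map_subtype, inf_eq_left.2 hNG,
          MonoidHom.map_zpowers, ← MonoidHom.range_eq_map, Subgroup.range_subtype]
        exact hG₁.symm
      · intro n hn
        refine ⟨n⁻¹, inv_mem hn, fun x => ?_⟩
        have : n⁻¹ * (n * x * n⁻¹) * n⁻¹⁻¹ = x := by group
        rw [this]
      · obtain ⟨n, hn, hnx⟩ := hkw
        exact ⟨⟨n, hNG hn⟩, hn, fun x => hnx x⟩
    · intro w x hx
      exact sub_cyc hC.base ((h.le w).trans hNG) (hB w) x hx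
    · refine Pool.Agent.R941.FJ.quot hC.base G₁ ?_
      exact hC.base.of_injective _ (G ⧸ N) (Subgroup.subtype _) Subtype.val_injective hQ
  -- the realization
  have hcl : Subgroup.closure (E ∪ (fun x => g * x * g⁻¹) '' E) ≤ Kf A F := by
    rw [Subgroup.closure_le]
    intro x hx
    exact hFF (hEF₀ x hx)
  have hKfN : Kf A F ≤ N := iSup₂_le fun w _ => h.le w
  refine ⟨G₁ ⧸ K.subgroupOf G₁, inferInstance,
    (QuotientGroup.mk' (K.subgroupOf G₁)).comp (Subgroup.inclusion (hcl.trans (hKfN.trans hNG))),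
    ((⟨g, hgG⟩ : G₁) : G₁ ⧸ K.subgroupOf G₁), hCP, ?_, ?_⟩
  · rw [injective_iff_map_eq_one]
    intro x hx
    have h3 : Subgroup.inclusion (hcl.trans (hKfN.trans hNG)) x ∈ K.subgroupOf G₁ :=
      (QuotientGroup.eq_one_iff _).1 hx
    rw [Subgroup.mem_subgroupOf] at h3
    have h4 : (x : G) ∈ K := h3
    rw [hKdef] at h4
    exact Subtype.ext (Kf_inf h (hcl x.2) h4)
  · intro x y _ hy
    have h3 : Subgroup.inclusion (hcl.trans (hKfN.trans hNG)) y = ⟨g, hgG⟩ *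
        Subgroup.inclusion (hcl.trans (hKfN.trans hNG)) x * ⟨g, hgG⟩⁻¹ := Subtype.ext hy
    show QuotientGroup.mk' (K.subgroupOf G₁) (Subgroup.inclusion (hcl.trans (hKfN.trans hNG)) y) = _
    rw [h3, map_mul, map_mul, map_inv]
    rfl

end gp

end Pool.Agent.R684.FP
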