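import Pool.Agent.R684.FP.Len
import Pool.Agent.R684.FP.Gpv

/-!
# Finite subgroups of graph products
-/

set_option autoImplicit false

namespace Pool.Agent.R684.FP

open Monoid.CoprodI (of)

section part

variable {G V : Type} [Group G] {Λ : SimpleGraph V} {A : V → Subgroup G} {N : Subgroup G}

theorem Kf_eq (U : Set V) : Kf A U = ⨆ w : U, A w.1 := (iSup_subtype' (p := (· ∈ U)) (f := fun w _ => A w))

/-- the part over a set of vertices is a graph product -/
theorem IsGP.part (h : IsGP Λ A N) (U : Set V) :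
    IsGP (Λ.comap (Subtype.val : U → V)) (fun w : U => A w.1) (Kf A U) where
  sup := (Kf_eq U).symm
  comm := fun v w hvw a ha b hb => h.comm v.1 w.1 hvw a ha b hb
  univ := by
    classical
    intro H _ f hf
    obtain ⟨F, hF⟩ := h.univ H (fun w => if hw : w ∈ U then f ⟨w, hw⟩ else 1) (by
      intro w1 w2 hadj a b
      by_cases hw1 : w1 ∈ U
      · by_cases hw2 : w2 ∈ U
        · simp only [dif_pos hw1, dif_pos hw2]
          exact hf ⟨w1, hw1⟩ ⟨w2, hw2⟩ hadj _ _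
        · simp only [dif_neg hw2]
          show _ * 1 = 1 * _
          rw [mul_one, one_mul]
      · simp only [dif_neg hw1]
        show 1 * _ = _ * 1
        rw [mul_one, one_mul])
    have hle : Kf A U ≤ N := iSup₂_le fun w _ => h.le w
    refine ⟨F.comp (Subgroup.inclusion hle), ?_⟩
    rintro w a ha
    have h1 := hF w.1 a (h.le w.1 a.2)
    simp only [dif_pos w.2] at h1
    exact h1

theorem Mv_kil (h : IsGP Λ A N) (v : V) : Kil A N {v} (Mv Λ A v) := by
  refine ⟨Mv_le h, ?_, ?_⟩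
  · intro w hw
    rw [Set.mem_singleton_iff.1 hw]
    exact fun a ha => A_le_Mv h ha
  · intro H _ F hFv
    have h1 : Mv Λ A v ≤ F.ker.map N.subtype := by
      refine iSup_le fun c x hx => ?_
      have hxN : x ∈ N := Mv_le h (le_iSup (Bc Λ A v) c hx)
      rw [mem_Bc] at hx
      have hr := Rr_le h (rp_mem c)
      refine ⟨⟨x, hxN⟩, ?_, rfl⟩
      have h2 := hFv v rfl ⟨_, h.le v hx⟩ hx
      have h3 : (⟨(rp Λ A v c)⁻¹ * x * rp Λ A v c, h.le v hx⟩ : N) =
        ⟨_, hr⟩⁻¹ * ⟨x, hxN⟩ * ⟨_, hr⟩ := rfl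
      rw [h3, map_mul, map_mul, map_inv] at h2
      show F ⟨x, hxN⟩ = 1
      have h4 : F ⟨x, hxN⟩ = F ⟨_, hr⟩ * ((F ⟨_, hr⟩)⁻¹ * F ⟨x, hxN⟩ * F ⟨_, hr⟩) * (F ⟨_, hr⟩)⁻¹ := by
        group
      rw [h4, h2]
      group
    intro x hx
    obtain ⟨y, hy, hyx⟩ := h1 hx
    have : y = x := Subtype.ext hyx
    rw [← this]
    exact hy

/-- a retraction is the identity on the part over its set of vertices -/
theorem ret_id {F : Set V} (h : IsGP Λ A N) {ρ : N →* G}
    (hρ : ∀ w ∈ F, ∀ a : N, (a : G) ∈ A w → ρ a = a) (x : N) (hx : (x : G) ∈ Kf A F) : ρ x = x := by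
  have h2 : Kf A F ≤
      { carrier := {x | ∃ hx : x ∈ N, ρ ⟨x, hx⟩ = x}
        one_mem' := ⟨one_mem _, map_one ρ⟩
        mul_mem' := by
          rintro x y ⟨hx, h1⟩ ⟨hy, h2⟩
          refine ⟨mul_mem hx hy, ?_⟩
          show ρ (⟨x, hx⟩ * ⟨y, hy⟩) = x * y
          rw [map_mul, h1, h2]
        inv_mem' := by
          rintro x ⟨hx, h1⟩
          refine ⟨inv_mem hx, ?_⟩
          show ρ (⟨x, hx⟩⁻¹) = x⁻¹
          rw [map_inv, h1] : Subgroup G } :=
    iSup₂_le fun w hw x hx => ⟨h.le w hx, hρ w hw ⟨x, h.le w hx⟩ hx⟩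
  obtain ⟨_, h3⟩ := h2 hx
  exact h3

theorem Mv_inf (h : IsGP Λ A N) {v : V} {x : G} (h1 : x ∈ Mv Λ A v) (h2 : x ∈ Rr A v) : x = 1 := by
  obtain ⟨ρ, hρ1, hρ2⟩ := ex_ret h {w | w ≠ v}
  have h3 := (Mv_kil h v).kill G ρ (fun u hu a ha => hρ2 u (fun hne => hne hu) a ha)
    ⟨x, Mv_le h h1⟩ h1
  rw [ret_id h hρ1 ⟨x, Mv_le h h1⟩ h2] at h3
  exact h3

end part

/-- the factors of a free product meet trivially -/
theorem ifp_inf {G₀ I : Type} [Group G₀] {M : Subgroup G₀} {B : I → Subgroup G₀}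
    (hB : IsFreeProd M B) {c c' : I} {x : G₀} (h1 : x ∈ B c) (h2 : x ∈ B c') (hx : x ≠ 1) :
    c = c' := by
  have h3 : (of (M := fun c => B c) (i := c) ⟨x, h1⟩) = of (M := fun c => B c) (i := c') ⟨x, h2⟩ := by
    apply hB.inj
    rw [Monoid.CoprodI.lift_of, Monoid.CoprodI.lift_of]
    rfl
  by_contra hne
  have hx1 : (⟨x, h1⟩ : B c) ≠ 1 := fun h => hx (congrArg Subtype.val h)
  have hx2 : (⟨x, h2⟩ : B c') ≠ 1 := fun h => hx (congrArg Subtype.val h)
  have h4 : hd c (of (M := fun c => B c) (i := c') ⟨x, h2⟩) = 1 := by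
    apply hd_other hne
    rw [hd_of]
    exact hx2
  rw [← h3, hd_of] at h4
  exact hx1 h4

section fsub

theorem map_fin {G H : Type} [Group G] [Group H] (f : G →* H) (K : Subgroup G) (hK : Finite K) :
    Finite (K.map f) := by
  have h1 : ((K : Set G).image f).Finite := (Set.toFinite (K : Set G)).image f
  exact h1

/-- **finite subgroups of graph products** -/
theorem fsub : ∀ (k : ℕ) (G V : Type) [Group G] [Finite V] (_ : Nat.card V = k)
    (Λ : SimpleGraph V) (A : V → Subgroup G) (N : Subgroup G), IsGP Λ A N →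
    (∀ v, Finite (A v) ∨ ∀ a ∈ A v, IsOfFinOrder a → a = 1) →
    ∀ H : Subgroup G, Finite H → H ≤ N →
    ∃ K : Set V, (∀ v ∈ K, ∀ w ∈ K, v ≠ w → Λ.Adj v w) ∧ (∀ v ∈ K, Finite (A v)) ∧
      ∃ n ∈ N, ∀ h ∈ H, n⁻¹ * h * n ∈ Kf A K := by
  intro k
  induction k using Nat.strong_induction_on with
  | _ k ih =>
  intro G V _ _ hk Λ A N h hA H hHf hHN
  by_cases hV : IsEmpty V
  · have hN : N = ⊥ := by rw [← h.sup, iSup_of_empty]
    refine ⟨∅, fun v hv => absurd hv (Set.notMem_empty v), fun v hv => absurd hv (Set.notMem_empty v),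
      1, one_mem _, fun x hx => ?_⟩
    have h1 := hHN hx
    rw [hN, Subgroup.mem_bot] at h1
    rw [h1]
    simp
  rw [not_isEmpty_iff] at hV
  obtain ⟨v⟩ := hV
  obtain ⟨x, hx, hcase⟩ := fixed (Bc_free h (v := v)) (Rr A v) (fun x h1 h2 => Mv_inf h h1 h2)
    (by
      intro e he c
      refine ⟨((⟨e * rp Λ A v c, mul_mem he (rp_mem c)⟩ : Rr A v) : Qt Λ A v), fun y hy => ?_⟩
      rw [mem_Bc] at hy
      rw [mem_Bc' h]
      show (e * rp Λ A v c)⁻¹ * (e * y * e⁻¹) * (e * rp Λ A v c) ∈ A v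
      have h2 : (e * rp Λ A v c)⁻¹ * (e * y * e⁻¹) * (e * rp Λ A v c) =
          (rp Λ A v c)⁻¹ * y * rp Λ A v c := by group
      rwa [h2]) H (fun y hy => dcv h (hHN hy))
  have hxN : x ∈ N := Mv_le h hx
  rcases hcase with hcase | ⟨c, hcb, hcase⟩
  · -- into the other vertices
    have hcard : Nat.card {w | w ≠ v} < k := by
      rw [← hk]
      exact Finite.card_subtype_lt (x := v) (fun hne => hne rfl)
    obtain ⟨K, hK1, hK2, n, hn, hK3⟩ := ih _ hcard G {w | w ≠ v} rfl _ _ _ (h.part {w | w ≠ v})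
      (fun w => hA w.1) (H.map (MulAut.conj x⁻¹).toMonoidHom) (map_fin _ _ hHf) (by
        rintro _ ⟨y, hy, rfl⟩
        have := hcase y hy
        show x⁻¹ * y * x⁻¹⁻¹ ∈ Kf A {w | w ≠ v}
        rw [inv_inv]
        exact this)
    have hRN : Rr A v ≤ N := Rr_le h
    refine ⟨Subtype.val '' K, ?_, ?_, x * n, mul_mem hxN (hRN hn), ?_⟩
    · rintro _ ⟨a, ha, rfl⟩ _ ⟨b, hb, rfl⟩ hab
      exact hK1 a ha b hb (fun h => hab (congrArg _ h))
    · rintro _ ⟨a, ha, rfl⟩
      exact hK2 a ha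
    · intro y hy
      have h1 := hK3 (x⁻¹ * y * x) ⟨y, hy, by
        show x⁻¹ * y * x⁻¹⁻¹ = _
        rw [inv_inv]⟩
      have h2 : (x * n)⁻¹ * y * (x * n) = n⁻¹ * (x⁻¹ * y * x) * n := by group
      rw [h2]
      have h3 : Kf (fun w : {w | w ≠ v} => A w.1) K ≤ Kf A (Subtype.val '' K) :=
        iSup₂_le fun w hw => le_Kf ⟨w, hw, rfl⟩
      exact h3 h1
  · -- into the star of the vertex
    obtain ⟨r, hr⟩ : ∃ r, r = rp Λ A v c := ⟨_, rfl⟩
    have hrR : r ∈ Rr A v := by rw [hr]; exact rp_mem c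
    have hLR : Lk Λ A v ≤ Rr A v := Lk_le Λ A v
    have hRN : Rr A v ≤ N := Rr_le h
    -- the elements after conjugation
    have hdec : ∀ y ∈ H, ∃ a ∈ A v, ∃ l ∈ Lk Λ A v, (x * r)⁻¹ * y * (x * r) = a * l := by
      intro y hy
      obtain ⟨b, hb, e, he, hee, hbe⟩ := hcase y hy
      have hb' : r⁻¹ * b * r ∈ A v := by
        rw [hr]
        exact mem_Bc.1 hb
      refine ⟨r⁻¹ * b * r, hb', r⁻¹ * e * r, ?_, ?_⟩
      · -- `e` fixes the coset
        obtain ⟨y0, hy0, hne⟩ : ∃ y0 ∈ Bc Λ A v c, y0 ≠ 1 := by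
          by_contra hno
          push Not at hno
          exact hcb (by
            rw [eq_bot_iff]
            intro y hy
            exact hno y hy)
        have h1 := hee y0 hy0
        have h2 : e * y0 * e⁻¹ ∈ Bc Λ A v
            ((⟨e * rp Λ A v c, mul_mem he (rp_mem c)⟩ : Rr A v) : Qt Λ A v) := by
          rw [mem_Bc' h]
          show (e * rp Λ A v c)⁻¹ * (e * y0 * e⁻¹) * (e * rp Λ A v c) ∈ A v
          have h2 : (e * rp Λ A v c)⁻¹ * (e * y0 * e⁻¹) * (e * rp Λ A v c) =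
              (rp Λ A v c)⁻¹ * y0 * rp Λ A v c := by group
          rw [h2]
          exact mem_Bc.1 hy0
        have h3 : e * y0 * e⁻¹ ≠ 1 := by
          intro h4
          apply hne
          have h5 : y0 = e⁻¹ * (e * y0 * e⁻¹) * e := by group
          rw [h5, h4]
          group
        have h4 := ifp_inf (Bc_free h) h1 h2 h3
        have h5 : c = ((⟨r, hrR⟩ : Rr A v) : Qt Λ A v) := by
          have h6 : (⟨r, hrR⟩ : Rr A v) = Quotient.out c := Subtype.ext hr
          rw [h6]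
          exact (QuotientGroup.out_eq' c).symm
        rw [h5] at h4
        have h7 : (⟨e * rp Λ A v ((⟨r, hrR⟩ : Rr A v) : Qt Λ A v), mul_mem he (rp_mem _)⟩ : Rr A v) =
            ⟨e * r, mul_mem he hrR⟩ := by
          apply Subtype.ext
          show e * rp Λ A v ((⟨r, hrR⟩ : Rr A v) : Qt Λ A v) = e * r
          rw [← h5, ← hr]
        rw [h7, QuotientGroup.eq, Subgroup.mem_subgroupOf] at h4
        have h8 : r⁻¹ * (e * r) ∈ Lk Λ A v := h4
        rwa [← mul_assoc] at h8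
      · have h1 : (x * r)⁻¹ * y * (x * r) = r⁻¹ * (x⁻¹ * y * x) * r := by group
        rw [h1, hbe]
        group
    obtain ⟨ρ, hρ1, hρ2⟩ := ex_ret h {w | Λ.Adj w v}
    obtain ⟨H', hH'⟩ : ∃ H' : Subgroup G, H' = H.map (MulAut.conj (x * r)⁻¹).toMonoidHom := ⟨_, rfl⟩
    have hH'f : Finite H' := by rw [hH']; exact map_fin _ _ hHf
    have hH'N : H' ≤ N := by
      rw [hH']
      rintro _ ⟨y, hy, rfl⟩
      show (x * r)⁻¹ * y * (x * r)⁻¹⁻¹ ∈ N
      exact mul_mem (mul_mem (inv_mem (mul_mem hxN (hRN hrR))) (hHN hy))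
        (inv_mem (inv_mem (mul_mem hxN (hRN hrR))))
    have hH'd : ∀ y (hy : y ∈ H'), ∃ a ∈ A v, ∃ l ∈ Lk Λ A v, y = a * l ∧ ρ ⟨y, hH'N hy⟩ = l := by
      intro y hy
      have hy2 := hy
      rw [hH'] at hy2
      obtain ⟨y0, hy0, rfl⟩ := hy2
      obtain ⟨a, ha, l, hl, hal⟩ := hdec y0 hy0
      have h1 : (MulAut.conj (x * r)⁻¹).toMonoidHom y0 = a * l := by
        rw [← hal]
        show (x * r)⁻¹ * y0 * (x * r)⁻¹⁻¹ = _
        rw [inv_inv]
      refine ⟨a, ha, l, hl, h1, ?_⟩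
      have h2 : (⟨(MulAut.conj (x * r)⁻¹).toMonoidHom y0, hH'N hy⟩ : N) =
          ⟨a, h.le v ha⟩ * ⟨l, hRN (hLR hl)⟩ := Subtype.ext h1
      rw [h2, map_mul, hρ2 v (fun hadj => (Λ.loopless.irrefl v hadj)) ⟨a, h.le v ha⟩ ha, one_mul]
      exact ret_id h hρ1 ⟨l, hRN (hLR hl)⟩ hl
    have hcard : Nat.card {w | Λ.Adj w v} < k := by
      rw [← hk]
      exact Finite.card_subtype_lt (x := v) (fun hadj => (Λ.loopless.irrefl v hadj))
    obtain ⟨K, hK1, hK2, n, hn, hK3⟩ := ih _ hcard G {w | Λ.Adj w v} rfl _ _ _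
      (h.part {w | Λ.Adj w v}) (fun w => hA w.1) ((H'.subgroupOf N).map ρ) (by
        have : Finite (H'.subgroupOf N) :=
          Finite.of_injective (fun y => (⟨(y : N), y.2⟩ : H')) (fun y z hyz => by
            apply Subtype.ext
            apply Subtype.ext
            exact congrArg (fun z : H' => (z : G)) hyz)
        exact map_fin _ _ this) (by
        rintro _ ⟨y, hy, rfl⟩
        obtain ⟨a, ha, l, hl, -, h1⟩ := hH'd y hy
        have h2 : ρ y = l := h1
        rw [h2]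
        exact hl)
    have hnL : n ∈ Lk Λ A v := hn
    have h3 : Kf (fun w : {w | Λ.Adj w v} => A w.1) K ≤ Kf A (Subtype.val '' K) :=
      iSup₂_le fun w hw => le_Kf ⟨w, hw, rfl⟩
    -- the conjugated elements
    have hfin : ∀ y ∈ H, ∃ a ∈ A v, ∃ l ∈ Lk Λ A v, (x * r)⁻¹ * y * (x * r) = a * l ∧
        (x * r * n)⁻¹ * y * (x * r * n) = a * (n⁻¹ * l * n) ∧
        n⁻¹ * l * n ∈ Kf A (Subtype.val '' K) ∧ (x * r)⁻¹ * y * (x * r) ∈ H' := by
      intro y hy
      have hyH' : (x * r)⁻¹ * y * (x * r) ∈ H' := by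
        rw [hH']
        refine ⟨y, hy, ?_⟩
        show (x * r)⁻¹ * y * (x * r)⁻¹⁻¹ = _
        rw [inv_inv]
      obtain ⟨a, ha, l, hl, h1, h2⟩ := hH'd _ hyH'
      refine ⟨a, ha, l, hl, h1, ?_, ?_, hyH'⟩
      · have h4 : (x * r * n)⁻¹ * y * (x * r * n) = n⁻¹ * ((x * r)⁻¹ * y * (x * r)) * n := by group
        rw [h4, h1]
        have h5 := comm_Lk h (inv_mem hnL) ha
        have h6 : n⁻¹ * (a * l) * n = (n⁻¹ * a) * l * n := by group
        rw [h6, h5]
        group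
      · apply h3
        exact hK3 l ⟨⟨_, hH'N hyH'⟩, hyH', h2⟩
    rcases hA v with hAf | hAt
    · refine ⟨insert v (Subtype.val '' K), ?_, ?_, x * r * n,
        mul_mem (mul_mem hxN (hRN hrR)) (hRN (hLR hnL)), ?_⟩
      · intro a ha b hb hab
        rcases Set.mem_insert_iff.1 ha with h4 | ⟨a', ha', h4⟩
        · rcases Set.mem_insert_iff.1 hb with h5 | ⟨b', hb', h5⟩
          · exact absurd (h4.trans h5.symm) hab
          · rw [h4, ← h5]
            exact (b'.2 : Λ.Adj b'.1 v).symm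
        · rcases Set.mem_insert_iff.1 hb with h5 | ⟨b', hb', h5⟩
          · rw [← h4, h5]
            exact a'.2
          · rw [← h4, ← h5]
            exact hK1 a' ha' b' hb' (fun h => hab (by rw [← h4, ← h5, h]))
      · intro a ha
        rcases Set.mem_insert_iff.1 ha with h4 | ⟨a', ha', h4⟩
        · rw [h4]
          exact hAf
        · rw [← h4]
          exact hK2 a' ha'
      · intro y hy
        obtain ⟨a, ha, l, hl, -, h1, h2, -⟩ := hfin y hy
        rw [h1]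
        exact mul_mem (le_Kf (Set.mem_insert _ _) ha) (Kf_mono (Set.subset_insert _ _) h2)
    · refine ⟨Subtype.val '' K, ?_, ?_, x * r * n,
        mul_mem (mul_mem hxN (hRN hrR)) (hRN (hLR hnL)), ?_⟩
      · rintro _ ⟨a, ha, rfl⟩ _ ⟨b, hb, rfl⟩ hab
        exact hK1 a ha b hb (fun h => hab (congrArg _ h))
      · rintro _ ⟨a, ha, rfl⟩
        exact hK2 a ha
      · intro y hy
        obtain ⟨a, ha, l, hl, h0, h1, h2, hyH'⟩ := hfin y hy
        rw [h1]
        have hcom : Commute a l := (comm_Lk h hl ha).symm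
        -- finite order
        obtain ⟨m, hm, hm1⟩ : ∃ m : ℕ, 0 < m ∧ (a * l) ^ m = 1 := by
          have h4 : IsOfFinOrder (⟨_, hyH'⟩ : H') := isOfFinOrder_of_finite _
          obtain ⟨m, hm, hm1⟩ := isOfFinOrder_iff_pow_eq_one.1 h4
          refine ⟨m, hm, ?_⟩
          have := congrArg Subtype.val hm1
          rw [← h0]
          exact this
        rw [hcom.mul_pow] at hm1
        have h4 : a ^ m = 1 := by
          refine Mv_inf h (v := v) (A_le_Mv h (pow_mem ha m)) ?_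
          have h5 : a ^ m = (l ^ m)⁻¹ := mul_eq_one_iff_eq_inv.1 hm1
          rw [h5]
          exact inv_mem (pow_mem (hLR hl) m)
        have h5 : a = 1 := hAt a ha (isOfFinOrder_iff_pow_eq_one.2 ⟨m, hm, h4⟩)
        rw [h5, one_mul]
        exact h2

/-- the finite groups over the cliques -/
theorem Kf_finite {G V : Type} [Group G] [Finite V] {Λ : SimpleGraph V} {A : V → Subgroup G}
    {N : Subgroup G} (h : IsGP Λ A N) {K : Set V} (h1 : ∀ v ∈ K, ∀ w ∈ K, v ≠ w → Λ.Adj v w)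
    (h2 : ∀ v ∈ K, Finite (A v)) : Finite (Kf A K) := by
  classical
  have hf : Fintype K := Fintype.ofFinite K
  have hfA : ∀ w : K, Finite (A w.1) := fun w => h2 w.1 w.2
  have hcomm : Pairwise fun i j : K => ∀ x y : G, x ∈ A i.1 → y ∈ A j.1 → Commute x y := by
    intro i j hij x y hx hy
    exact h.comm i.1 j.1 (h1 i.1 i.2 j.1 j.2 (fun he => hij (Subtype.ext he))) x hx y hy
  rw [Kf_eq, ← Subgroup.noncommPiCoprod_range (hcomm := hcomm)]
  exact Set.finite_range (Subgroup.noncommPiCoprod hcomm)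

end fsub

end Pool.Agent.R684.FP
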