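import Pool.Agent.R684.FP.Gpz

/-!
# Extensions by graph products
-/

set_option autoImplicit false

namespace Pool.Agent.R684.FP

open Monoid.CoprodI (of)
open Pool.Agent.Y110.FJ
open Pool.Agent.R941.FJ (C_equiv C_le C_cyc mem_sup_normal)
open Pool.Agent.Y462.SS (Closed)

variable {C : ∀ (G : Type) [Group G], Prop}

section sub

variable {G V : Type} [Group G] {Λ : SimpleGraph V} {A : V → Subgroup G} {N : Subgroup G}

/-- restriction to a subgroup -/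
theorem IsGP.sub (h : IsGP Λ A N) {G₀ : Subgroup G} (hN : N ≤ G₀) :
    IsGP Λ (fun v => (A v).subgroupOf G₀) (N.subgroupOf G₀) where
  sup := by
    apply Subgroup.map_injective G₀.subtype_injective
    rw [Subgroup.map_iSup]
    have h1 : ∀ v, ((A v).subgroupOf G₀).map G₀.subtype = A v := fun v => by
      rw [Subgroup.subgroupOf_map_subtype, inf_eq_left.2 ((h.le v).trans hN)]
    simp_rw [h1]
    rw [Subgroup.subgroupOf_map_subtype, inf_eq_left.2 hN]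
    exact h.sup
  comm := by
    rintro v w hvw a ha b hb
    exact Subtype.ext (h.comm v w hvw a ha b hb)
  univ := by
    intro H _ f hf
    obtain ⟨F, hF⟩ := h.univ H (fun v => (f v).comp
      (Subgroup.subgroupOfEquivOfLe ((h.le v).trans hN)).symm.toMonoidHom)
      (fun v w hvw a b => hf v w hvw _ _)
    refine ⟨F.comp (Subgroup.subgroupOfEquivOfLe hN).toMonoidHom, ?_⟩
    rintro v ⟨⟨a, ha0⟩, ha⟩ ha'
    exact hF v ⟨a, ha⟩ (h.le v ha)

theorem Kil.sub {D : Set V} {K : Subgroup G} (hK : Kil A N D K) {G₀ : Subgroup G} (hN : N ≤ G₀) :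
    Kil (fun v => (A v).subgroupOf G₀) (N.subgroupOf G₀) D (K.subgroupOf G₀) where
  le := Subgroup.comap_mono hK.le
  mem w hw := Subgroup.comap_mono (hK.mem w hw)
  kill := by
    intro H _ F hF k hk
    have := hK.kill H (F.comp (Subgroup.subgroupOfEquivOfLe hN).symm.toMonoidHom) (by
      intro w hw a ha
      exact hF w hw _ ha) ⟨(k : G₀), k.2⟩ hk
    exact this

theorem sub_cyc (hC : Closed C) {B G₀ : Subgroup G} (hBG : B ≤ G₀)
    (hB : ∀ g : G, (∀ x, x ∈ B ↔ g * x * g⁻¹ ∈ B) → C ↥(B ⊔ Subgroup.zpowers g))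
    (g : G₀) (hg : ∀ x, x ∈ B.subgroupOf G₀ ↔ g * x * g⁻¹ ∈ B.subgroupOf G₀) :
    C ↥(B.subgroupOf G₀ ⊔ Subgroup.zpowers g) := by
  have h1 : ∀ x, x ∈ B ↔ (g : G) * x * (g : G)⁻¹ ∈ B := by
    intro x
    constructor
    · intro hx
      exact (hg ⟨x, hBG hx⟩).1 hx
    · intro hx
      have h2 : x ∈ G₀ := by
        have := mul_mem (mul_mem (inv_mem g.2) (hBG hx)) g.2
        have h3 : (g : G)⁻¹ * ((g : G) * x * (g : G)⁻¹) * g = x := by group
        rwa [h3] at this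
      exact (hg ⟨x, h2⟩).2 hx
  have h2 : B.subgroupOf G₀ ⊔ Subgroup.zpowers g ≤ (B ⊔ Subgroup.zpowers (g : G)).comap G₀.subtype := by
    refine sup_le ?_ ?_
    · intro x hx
      exact Subgroup.mem_sup_left hx
    · rw [Subgroup.zpowers_le]
      exact Subgroup.mem_sup_right (Subgroup.mem_zpowers _)
  refine hC.of_injective _ _ ((G₀.subtype.comp (Subgroup.subtype _)).codRestrict
    (B ⊔ Subgroup.zpowers (g : G)) fun x => h2 x.2) ?_ (hB g h1)
  intro x y hxy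
  have h3 : ((x : G₀) : G) = ((y : G₀) : G) :=
    congrArg (fun z : ↥(B ⊔ Subgroup.zpowers (g : G)) => (z : G)) hxy
  exact Subtype.ext (Subtype.ext h3)

/-- quotients, all the classes of the remaining vertex groups are fixed -/
theorem lemX (hC : ClosedE C) (hF : FbC C) [hN : N.Normal] (h : IsGP Λ A N) {D : Set V}
    {K : Subgroup G} [K.Normal] (hK : Kil A N D K) (hD : Dᶜ.Finite)
    (hp : ∀ w, w ∉ D → ∀ g, g ∈ ClStab N (A w))
    (hB : ∀ w, ∀ g : G, (∀ x, x ∈ A w ↔ g * x * g⁻¹ ∈ A w) → C ↥(A w ⊔ Subgroup.zpowers g))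
    (hQ : C (G ⧸ N)) : C (G ⧸ K) := by
  have hN' : (N.map (QuotientGroup.mk' K)).Normal :=
    Subgroup.Normal.map inferInstance _ (QuotientGroup.mk'_surjective _)
  have hfin : Finite {w // w ∉ D} := hD
  refine gp_pure hC hF _ (G ⧸ K) {w // w ∉ D} rfl _ _ _ (h.quot D K hK.mem hK.kill)
    (C_equiv hC.base (QuotientGroup.quotientQuotientEquivQuotient K N hK.le) hQ) ?_ ?_
  · rintro ⟨w, hw⟩ g
    obtain ⟨g, rfl⟩ := QuotientGroup.mk_surjective g
    exact quot_cl (hp w hw g)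
  · rintro ⟨w, hw⟩ g hg
    obtain ⟨g, rfl⟩ := QuotientGroup.mk_surjective g
    exact quot_cyc hC h hK hw (hB w) (hp w hw g) hg

/-- quotients, finite index -/
theorem lemY (hC : ClosedE C) (hF : FbC C) [hN : N.Normal] (h : IsGP Λ A N) {D : Set V}
    {K : Subgroup G} [hKn : K.Normal] (hK : Kil A N D K) (hD : Dᶜ.Finite)
    (hp : ∀ w, w ∉ D → (ClStab N (A w)).FiniteIndex)
    (hB : ∀ w, ∀ g : G, (∀ x, x ∈ A w ↔ g * x * g⁻¹ ∈ A w) → C ↥(A w ⊔ Subgroup.zpowers g))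
    (hQ : C (G ⧸ N)) : C (G ⧸ K) := by
  have hfin : Finite {w // w ∉ D} := hD
  obtain ⟨G₂, hG₂⟩ : ∃ G₂ : Subgroup G, G₂ = ⨅ w : {w // w ∉ D}, ClStab N (A w.1) := ⟨_, rfl⟩
  have hfi : G₂.FiniteIndex := by
    have : ∀ w : {w // w ∉ D}, (ClStab N (A w.1)).FiniteIndex := fun w => hp w.1 w.2
    rw [hG₂]
    exact Subgroup.finiteIndex_iInf this
  have hNG : N ≤ G₂ := by
    rw [hG₂]
    refine le_iInf fun w n hn => ⟨n⁻¹, N.inv_mem hn, fun x => ?_⟩
    have : n⁻¹ * (n * x * n⁻¹) * n⁻¹⁻¹ = x := by group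
    rw [this]
  have hN2 : (N.subgroupOf G₂).Normal := inferInstance
  have hK2 : (K.subgroupOf G₂).Normal := inferInstance
  have h1 : C (G₂ ⧸ K.subgroupOf G₂) := by
    refine lemX hC hF (h.sub hNG) (hK.sub hNG) hD ?_ ?_ ?_
    · intro w hw g
      have h3 : G₂ ≤ ClStab N (A w) := by
        rw [hG₂]
        exact iInf_le (fun w : {w // w ∉ D} => ClStab N (A w.1)) ⟨w, hw⟩
      have h2 : (g : G) ∈ ClStab N (A w) := h3 g.2
      obtain ⟨n, hn, hnx⟩ := h2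
      exact ⟨⟨n, hNG hn⟩, hn, fun x => hnx x⟩
    · intro w g hg
      exact sub_cyc hC.base ((h.le w).trans hNG) (hB w) g hg
    · refine Pool.Agent.R941.FJ.quot hC.base G₂ ?_
      exact hC.base.of_injective _ (G ⧸ N) (Subgroup.subtype _) Subtype.val_injective hQ
  -- the image has finite index
  have h2 : (G₂.map (QuotientGroup.mk' K)).FiniteIndex := by
    refine ⟨fun h0 => hfi.index_ne_zero ?_⟩
    have h3 := Subgroup.index_map_dvd (H := G₂) (QuotientGroup.mk'_surjective K)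
    rw [h0] at h3
    exact zero_dvd_iff.1 h3
  refine hC.base.finiteIndex _ (G₂.map (QuotientGroup.mk' K)) h2 ?_
  have h3 : ((QuotientGroup.mk' K).subgroupMap G₂).ker = K.subgroupOf G₂ := by
    ext x
    rw [Subgroup.mem_subgroupOf]
    constructor
    · intro hx
      have h4 : QuotientGroup.mk' K (x : G) = 1 := congrArg Subtype.val hx
      exact (QuotientGroup.eq_one_iff _).1 h4
    · intro hx
      exact Subtype.ext ((QuotientGroup.eq_one_iff _).2 hx)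
  exact C_equiv hC.base ((QuotientGroup.quotientKerEquivOfSurjective _
    ((QuotientGroup.mk' K).subgroupMap_surjective G₂)).symm.trans
      (QuotientGroup.quotientMulEquivOfEq h3)) h1

/-- the normal closure in `N` of the vertex groups over `D` -/
def Kd (A : V → Subgroup G) (N : Subgroup G) (D : Set V) : Subgroup G :=
  Subgroup.closure {x | ∃ w ∈ D, ∃ n ∈ N, n * x * n⁻¹ ∈ A w}

theorem Kd_kil (h : IsGP Λ A N) (D : Set V) : Kil A N D (Kd A N D) where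
  le := by
    rw [Kd, Subgroup.closure_le]
    rintro x ⟨w, -, n, hn, hx⟩
    have := N.mul_mem (N.mul_mem (N.inv_mem hn) (h.le w hx)) hn
    have h2 : n⁻¹ * (n * x * n⁻¹) * n = x := by group
    rw [h2] at this
    exact this
  mem w hw x hx := Subgroup.subset_closure ⟨w, hw, 1, one_mem _, by simpa using hx⟩
  kill := by
    intro H _ F hF
    have h1 : Kd A N D ≤ F.ker.map N.subtype := by
      rw [Kd, Subgroup.closure_le]
      rintro x ⟨w, hw, n, hn, hx⟩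
      have hxN : x ∈ N := by
        have := N.mul_mem (N.mul_mem (N.inv_mem hn) (h.le w hx)) hn
        have h2 : n⁻¹ * (n * x * n⁻¹) * n = x := by group
        rwa [h2] at this
      refine ⟨⟨x, hxN⟩, ?_, rfl⟩
      have h2 := hF w hw ⟨_, h.le w hx⟩ hx
      have h3 : (⟨n * x * n⁻¹, h.le w hx⟩ : N) = ⟨n, hn⟩ * ⟨x, hxN⟩ * ⟨n, hn⟩⁻¹ := rfl
      rw [h3, map_mul, map_mul, map_inv] at h2
      show F ⟨x, hxN⟩ = 1
      have h4 : F ⟨x, hxN⟩ = (F ⟨n, hn⟩)⁻¹ * (F ⟨n, hn⟩ * F ⟨x, hxN⟩ * (F ⟨n, hn⟩)⁻¹) * F ⟨n, hn⟩ := by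
        group
      rw [h4, h2]
      group
    intro x hx
    obtain ⟨y, hy, hyx⟩ := h1 hx
    have : y = x := Subtype.ext hyx
    rw [← this]
    exact hy

/-- `g` maps the `N`-class of `A v` to the `N`-class of `A w` -/
def Cj (A : V → Subgroup G) (N : Subgroup G) (g : G) (v w : V) : Prop :=
  ∃ n ∈ N, ∀ x, x ∈ A v ↔ n * (g * x * g⁻¹) * n⁻¹ ∈ A w

theorem Cj_mul [hN : N.Normal] {g h : G} {u v w : V} (h1 : Cj A N h u v) (h2 : Cj A N g v w) :
    Cj A N (g * h) u w := by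
  obtain ⟨m, hm, h1⟩ := h1
  obtain ⟨n, hn, h2⟩ := h2
  refine ⟨n * (g * m * g⁻¹), N.mul_mem hn (hN.conj_mem m hm g), fun x => ?_⟩
  rw [h1, h2]
  have : n * (g * (m * (h * x * h⁻¹) * m⁻¹) * g⁻¹) * n⁻¹ =
      n * (g * m * g⁻¹) * (g * h * x * (g * h)⁻¹) * (n * (g * m * g⁻¹))⁻¹ := by group
  rw [this]

theorem Cj_inv [hN : N.Normal] {g : G} {v w : V} (h1 : Cj A N g v w) : Cj A N g⁻¹ w v := by
  obtain ⟨n, hn, h1⟩ := h1
  refine ⟨g⁻¹ * n⁻¹ * g, ?_, fun x => ?_⟩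
  · have := hN.conj_mem _ (N.inv_mem hn) g⁻¹
    rwa [inv_inv] at this
  · rw [h1 (g⁻¹ * n⁻¹ * g * (g⁻¹ * x * g⁻¹⁻¹) * (g⁻¹ * n⁻¹ * g)⁻¹)]
    have : n * (g * (g⁻¹ * n⁻¹ * g * (g⁻¹ * x * g⁻¹⁻¹) * (g⁻¹ * n⁻¹ * g)⁻¹) * g⁻¹) * n⁻¹ = x := by
      group
    rw [this]

theorem Cj_one (v : V) : Cj A N 1 v v := ⟨1, one_mem _, fun x => by simp⟩

/-- the vertex is determined by the class -/
theorem Cj_eq (h : IsGP Λ A N) {v w : V} (h1 : Cj A N 1 v w) (hne : A w ≠ ⊥) : v = w := by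
  by_contra hvw
  apply hne
  rw [eq_bot_iff]
  intro x hx
  obtain ⟨n, hn, h1⟩ := h1
  obtain ⟨ρ, hρ1, hρ2⟩ := ex_ret h {w}
  obtain ⟨y, hy⟩ : ∃ y, y = n⁻¹ * x * n := ⟨_, rfl⟩
  have hxy : n * (1 * y * 1⁻¹) * n⁻¹ = x := by
    rw [hy]
    group
  have hyv : y ∈ A v := by
    rw [h1 y, hxy]
    exact hx
  have h2 := hρ1 w rfl ⟨x, h.le w hx⟩ hx
  have h3 : (⟨x, h.le w hx⟩ : N) = ⟨n, hn⟩ * ⟨y, h.le v hyv⟩ * ⟨n, hn⟩⁻¹ := by
    apply Subtype.ext
    show x = n * y * n⁻¹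
    rw [← hxy]
    group
  rw [h3, map_mul, map_mul, map_inv, hρ2 v (fun he => hvw he) ⟨y, h.le v hyv⟩ hyv] at h2
  have h4 : ρ ⟨n, hn⟩ * 1 * (ρ ⟨n, hn⟩)⁻¹ = 1 := by group
  rw [h4] at h2
  have h5 : x = 1 := by
    have h6 : ((⟨n, hn⟩ * ⟨y, h.le v hyv⟩ * ⟨n, hn⟩⁻¹ : N) : G) = x := by rw [← h3]
    rw [← h6]
    exact h2.symm
  rw [h5]
  exact one_mem _

end sub

end Pool.Agent.R684.FP
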