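import Pool.Agent.R684.FP.Hd

/-!
# Automorphisms of a free product of three groups
-/

set_option autoImplicit false

namespace Pool.Agent.R684.FP

open Monoid.CoprodI (of)
open Pointwise

/-- from endomorphisms to automorphisms -/
def autOf {H N : Type} [Group H] [Group N] (f : H →* Monoid.End N) : H →* MulAut N where
  toFun h :=
    { toFun := f h
      invFun := f h⁻¹
      left_inv := fun x => by
        show (f h⁻¹ * f h) x = x
        rw [← map_mul, inv_mul_cancel, map_one]
        rfl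
      right_inv := fun x => by
        show (f h * f h⁻¹) x = x
        rw [← map_mul, mul_inv_cancel, map_one]
        rfl
      map_mul' := (f h).map_mul }
  map_one' := by
    ext x
    show f 1 x = x
    rw [map_one]
    rfl
  map_mul' h k := by
    ext x
    show f (h * k) x = f h (f k x)
    rw [map_mul]
    rfl

theorem autOf_apply {H N : Type} [Group H] [Group N] (f : H →* Monoid.End N) (h : H) (x : N) :
    autOf f h x = f h x := rfl

section gen

variable {ι : Type} {A : ι → Type} [∀ i, Group (A i)]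

/-- conjugations of the factors -/
def cj (c : ι → Monoid.CoprodI A) : Monoid.CoprodI A →* Monoid.CoprodI A :=
  Monoid.CoprodI.lift fun j => (MulAut.conj (c j)).toMonoidHom.comp of

theorem cj_of (c : ι → Monoid.CoprodI A) {j : ι} (y : A j) : cj c (of y) = c j * of y * (c j)⁻¹ := by
  rw [cj, Monoid.CoprodI.lift_of]
  rfl

/-- automorphisms of the factors -/
def fm (p : ∀ i, MulAut (A i)) : Monoid.CoprodI A →* Monoid.CoprodI A :=
  Monoid.CoprodI.lift fun i => of.comp (p i).toMonoidHom

theorem fm_of (p : ∀ i, MulAut (A i)) {i : ι} (x : A i) : fm p (of x) = of (p i x) := by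
  rw [fm, Monoid.CoprodI.lift_of]
  rfl

/-- automorphisms of the factors -/
def fa : (∀ i, MulAut (A i)) →* Monoid.End (Monoid.CoprodI A) where
  toFun p := fm p
  map_one' := by
    apply Monoid.CoprodI.ext_hom
    intro i
    ext x : 1
    exact fm_of 1 x
  map_mul' p q := by
    apply Monoid.CoprodI.ext_hom
    intro i
    ext x : 1
    show fm (p * q) (of x) = fm p (fm q (of x))
    rw [fm_of, fm_of, fm_of]
    rfl

theorem fa_of (p : ∀ i, MulAut (A i)) {i : ι} (x : A i) : fa p (of x) = of (p i x) := fm_of p x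

theorem aut_ext {φ ψ : MulAut (Monoid.CoprodI A)} (h : ∀ i (x : A i), φ (of x) = ψ (of x)) :
    φ = ψ := by
  apply MulEquiv.toMonoidHom_injective
  apply Monoid.CoprodI.ext_hom
  intro i
  ext x : 1
  exact h i x

/-- the configuration of an automorphism -/
def Cf (φ : MulAut (Monoid.CoprodI A)) (g : ι → Monoid.CoprodI A) : Prop :=
  ∀ j (y : A j), φ (of y) = g j * of y * (g j)⁻¹

end gen

section three

variable {A : Fin 3 → Type} [∀ i, Group (A i)]

theorem n1 (i : Fin 3) : i ≠ i + 1 := by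
  revert i; decide
theorem n2 (i : Fin 3) : i + 2 ≠ i + 1 := by
  revert i; decide
theorem n3 (i : Fin 3) : i ≠ i + 2 := by
  revert i; decide
theorem cases3 {i j : Fin 3} (h : i ≠ j) : j = i + 1 ∨ j = i + 2 := by
  revert i j; decide
theorem e1 (i : Fin 3) : i + 1 + 1 = i + 2 := by
  revert i; decide
theorem e2 (i : Fin 3) : i + 1 + 2 = i := by
  revert i; decide
theorem e3 (i : Fin 3) : i + 2 + 1 = i := by
  revert i; decide
theorem e4 (i : Fin 3) : i + 2 + 2 = i + 1 := by
  revert i; decide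
theorem all3 (i j : Fin 3) : j = i ∨ j = i + 1 ∨ j = i + 2 := by
  revert i j; decide

/-- the conjugators of the basic automorphism -/
def ct (i : Fin 3) (a : A i) : Fin 3 → Monoid.CoprodI A := Function.update 1 (i + 1) (of a)⁻¹

theorem ct_self (i : Fin 3) (a : A i) : ct i a (i + 1) = (of a)⁻¹ := Function.update_self _ _ _
theorem ct_ne {i j : Fin 3} (h : j ≠ i + 1) (a : A i) : ct i a j = 1 := Function.update_of_ne h _ _

/-- the elements of `A i` act by conjugation on `A (i + 1)` -/
def ch (i : Fin 3) : A i →* Monoid.End (Monoid.CoprodI A) where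
  toFun a := cj (ct i a)
  map_one' := by
    apply Monoid.CoprodI.ext_hom
    intro j
    ext y : 1
    show cj (ct i 1) (of y) = of y
    rw [cj_of]
    by_cases h : j = i + 1
    · subst h
      rw [ct_self, map_one]
      simp
    · rw [ct_ne h]
      simp
  map_mul' a b := by
    apply Monoid.CoprodI.ext_hom
    intro j
    ext y : 1
    show cj (ct i (a * b)) (of y) = cj (ct i a) (cj (ct i b) (of y))
    rw [cj_of, cj_of, map_mul, map_mul, map_inv, cj_of]
    by_cases h : j = i + 1
    · subst h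
      rw [ct_self, ct_self, ct_self, map_inv, cj_of, ct_ne (n1 i), map_mul]
      group
    · rw [ct_ne h, ct_ne h, ct_ne h, map_one]
      group

/-- the homomorphism given by the basic automorphisms -/
def dl : Monoid.CoprodI A →* MulAut (Monoid.CoprodI A) :=
  Monoid.CoprodI.lift fun i => autOf (ch i)

theorem dl_of {i : Fin 3} (a : A i) (x : Monoid.CoprodI A) : dl (of a) x = cj (ct i a) x := by
  rw [dl, Monoid.CoprodI.lift_of]
  rfl

/-- the action on configurations -/
def rho (i : Fin 3) (a : A i) (g : Fin 3 → Monoid.CoprodI A) : Fin 3 → Monoid.CoprodI A :=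
  Function.update g (i + 1) (g i * of a * (g i)⁻¹ * g (i + 1))

theorem rho_self (i : Fin 3) (a : A i) (g : Fin 3 → Monoid.CoprodI A) :
    rho i a g (i + 1) = g i * of a * (g i)⁻¹ * g (i + 1) := Function.update_self _ _ _
theorem rho_ne {i j : Fin 3} (h : j ≠ i + 1) (a : A i) (g : Fin 3 → Monoid.CoprodI A) :
    rho i a g j = g j := Function.update_of_ne h _ _

theorem rho_one (i : Fin 3) (g : Fin 3 → Monoid.CoprodI A) : rho i 1 g = g := by
  funext j
  by_cases h : j = i + 1
  · subst h
    rw [rho_self, map_one]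
    group
  · rw [rho_ne h]

theorem rho_mul (i : Fin 3) (a b : A i) (g : Fin 3 → Monoid.CoprodI A) :
    rho i (a * b) g = rho i a (rho i b g) := by
  funext j
  by_cases h : j = i + 1
  · subst h
    rw [rho_self, rho_self, rho_self, rho_ne (n1 i), map_mul]
    group
  · rw [rho_ne h, rho_ne h, rho_ne h]

/-- the action on configurations -/
def rhoP (i : Fin 3) : A i →* Equiv.Perm (Fin 3 → Monoid.CoprodI A) where
  toFun a :=
    { toFun := rho i a
      invFun := rho i a⁻¹
      left_inv := fun g => by rw [← rho_mul, inv_mul_cancel, rho_one]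
      right_inv := fun g => by rw [← rho_mul, mul_inv_cancel, rho_one] }
  map_one' := by
    ext1 g
    exact rho_one i g
  map_mul' a b := by
    ext1 g
    exact rho_mul i a b g

theorem Cf_step {φ : MulAut (Monoid.CoprodI A)} {g : Fin 3 → Monoid.CoprodI A} (h : Cf φ g)
    (x : Monoid.CoprodI A) : Cf (φ * dl x) (Monoid.CoprodI.lift rhoP x⁻¹ g) := by
  induction x using Monoid.CoprodI.induction_on generalizing φ g with
  | one =>
    rw [inv_one, map_one, map_one, mul_one]
    exact h
  | of i a =>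
    intro j y
    have h0 : Monoid.CoprodI.lift rhoP (of a)⁻¹ = rhoP i a⁻¹ := by
      rw [← map_inv, Monoid.CoprodI.lift_of]
    rw [MulAut.mul_apply, dl_of, cj_of, map_mul, map_mul, map_inv, h, h0]
    show _ = rho i a⁻¹ g j * of y * (rho i a⁻¹ g j)⁻¹
    by_cases hj : j = i + 1
    · subst hj
      rw [ct_self, rho_self, map_inv, h, map_inv]
      group
    · rw [ct_ne hj, rho_ne hj, map_one]
      group
  | mul x1 x2 h1 h2 =>
    have h3 := h2 (h1 h)
    rw [mul_assoc, ← map_mul] at h3
    have h4 : Monoid.CoprodI.lift rhoP (x1 * x2)⁻¹ g =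
        Monoid.CoprodI.lift rhoP x2⁻¹ (Monoid.CoprodI.lift rhoP x1⁻¹ g) := by
      rw [mul_inv_rev, map_mul, Equiv.Perm.mul_apply]
    rw [h4]
    exact h3

/-- the configurations with the vertex `i` in the middle -/
def XX (i : Fin 3) : Set (Fin 3 → Monoid.CoprodI A) :=
  {g | hd i ((g i)⁻¹ * g (i + 1)) ≠ hd i ((g i)⁻¹ * g (i + 2))}

theorem step_in {i : Fin 3} {a : A i} (ha : a ≠ 1) {g : Fin 3 → Monoid.CoprodI A}
    (h : hd i ((g i)⁻¹ * g (i + 1)) = hd i ((g i)⁻¹ * g (i + 2))) : rho i a g ∈ XX i := by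
  show hd i ((rho i a g i)⁻¹ * rho i a g (i + 1)) ≠ hd i ((rho i a g i)⁻¹ * rho i a g (i + 2))
  rw [rho_self, rho_ne (n1 i), rho_ne (n2 i)]
  have h1 : (g i)⁻¹ * (g i * of a * (g i)⁻¹ * g (i + 1)) = of a * ((g i)⁻¹ * g (i + 1)) := by group
  rw [h1, hd_mul, h]
  intro h2
  rw [mul_eq_right] at h2
  exact ha h2

theorem mid {i j : Fin 3} (hij : i ≠ j) {g : Fin 3 → Monoid.CoprodI A} (h : g ∈ XX j) :
    hd i ((g i)⁻¹ * g (i + 1)) = hd i ((g i)⁻¹ * g (i + 2)) := by
  have h' : hd j ((g j)⁻¹ * g (j + 1)) ≠ hd j ((g j)⁻¹ * g (j + 2)) := h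
  rcases cases3 hij with rfl | rfl
  · rw [e1, e2] at h'
    have h1 := hd_tr hij ((g i)⁻¹ * g (i + 1)) ((g (i + 1))⁻¹ * g (i + 2)) (by
      rw [mul_inv_rev, inv_inv]
      exact fun h => h' h.symm)
    rw [← h1]
    congr 1
    group
  · rw [e3, e4] at h'
    have h1 := hd_tr hij ((g i)⁻¹ * g (i + 2)) ((g (i + 2))⁻¹ * g (i + 1)) (by
      rw [mul_inv_rev, inv_inv]
      exact h')
    rw [← h1]
    congr 1
    group

theorem pp {i j : Fin 3} (w : Monoid.CoprodI.NeWord A i j) :
    Monoid.CoprodI.lift rhoP w.prod (1 : Fin 3 → Monoid.CoprodI A) ∈ XX i := by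
  have hpp : Pairwise fun i j => ∀ h : A i, h ≠ 1 →
      (rhoP i h : Equiv.Perm (Fin 3 → Monoid.CoprodI A)) • (XX j : Set (Fin 3 → Monoid.CoprodI A)) ⊆
        XX i := by
    intro i j hij a ha
    rintro _ ⟨g, hg, rfl⟩
    exact step_in ha (mid hij hg)
  induction w with
  | singleton a ha =>
    rw [Monoid.CoprodI.NeWord.prod_singleton, Monoid.CoprodI.lift_of]
    exact step_in ha rfl
  | append w₁ hne w₂ h1 h2 =>
    rw [Monoid.CoprodI.NeWord.append_prod, map_mul]
    exact Monoid.CoprodI.lift_word_ping_pong rhoP XX hpp w₁ hne ⟨_, h2, rfl⟩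

theorem ne_word {x : Monoid.CoprodI A} (h : x ≠ 1) :
    ∃ (i j : Fin 3) (w : Monoid.CoprodI.NeWord A i j), w.prod = x := by
  classical
  obtain ⟨i, j, w, hw⟩ := Monoid.CoprodI.NeWord.of_word (Monoid.CoprodI.Word.equiv x) (by
    intro h1
    apply h
    have h2 : (Monoid.CoprodI.Word.equiv x).prod = x :=
      Monoid.CoprodI.Word.equiv.symm_apply_apply x
    rw [← h2, h1]
    rfl)
  refine ⟨i, j, w, ?_⟩
  show w.toWord.prod = x
  rw [hw]
  exact Monoid.CoprodI.Word.equiv.symm_apply_apply x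

/-- **independence** -/
theorem indep [∀ i, Nontrivial (A i)] {x n : Monoid.CoprodI A} {p : ∀ i, MulAut (A i)}
    (h : dl x * autOf fa p = MulAut.conj n) : x = 1 ∧ p = 1 ∧ n = 1 := by
  obtain ⟨k, hk⟩ : ∃ k, k = Monoid.CoprodI.lift rhoP x⁻¹ (1 : Fin 3 → Monoid.CoprodI A) := ⟨_, rfl⟩
  have hcf : Cf (dl x) k := by
    have h1 : Cf (1 : MulAut (Monoid.CoprodI A)) 1 := by
      intro j y
      show of y = 1 * of y * 1⁻¹
      simp
    have h2 := Cf_step h1 x
    rwa [one_mul, ← hk] at h2
  have h1 : ∀ j (y : A j), k j * of (p j y) * (k j)⁻¹ = n * of y * n⁻¹ := by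
    intro j y
    have h2 := DFunLike.congr_fun h (of y)
    rw [MulAut.mul_apply, autOf_apply, fa_of, hcf, MulAut.conj_apply] at h2
    exact h2
  have h2 : ∀ j, ∃ b : A j, n = k j * of b := by
    intro j
    obtain ⟨y, hy⟩ := exists_ne (1 : A j)
    have h3 : ((k j)⁻¹ * n) * of y * ((k j)⁻¹ * n)⁻¹ = of (p j y) := by
      have := h1 j y
      have h4 : ((k j)⁻¹ * n) * of y * ((k j)⁻¹ * n)⁻¹ = (k j)⁻¹ * (n * of y * n⁻¹) * k j := by
        group
      rw [h4, ← this]
      group
    obtain ⟨b, hb⟩ := malnormal hy h3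
    exact ⟨b, by rw [← hb]; group⟩
  choose b hb using h2
  have hx : x = 1 := by
    by_contra hx
    obtain ⟨i, j, w, hw⟩ := ne_word (x := x⁻¹) (fun h => hx (inv_eq_one.1 h))
    have h3 : k ∈ XX i := by
      rw [hk, ← hw]
      exact pp w
    apply h3
    have h4 : ∀ l, (k i)⁻¹ * k l = of (b i) * (of (b l))⁻¹ := by
      intro l
      have h5 : k i = n * (of (b i))⁻¹ := by rw [hb i, mul_inv_cancel_right]
      have h6 : k l = n * (of (b l))⁻¹ := by rw [hb l, mul_inv_cancel_right]
      rw [h5, h6]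
      group
    have h7 : ∀ l, i ≠ l → hd i ((k i)⁻¹ * k l) = b i := by
      intro l hl
      rw [h4, ← map_inv, hd_mul_of hl, hd_of]
    rw [h7 _ (n1 i), h7 _ (n3 i)]
  have hk1 : k = 1 := by
    rw [hk, hx, inv_one, map_one (Monoid.CoprodI.lift rhoP)]
    rfl
  have hn0 : n = of (b 0) := by rw [hb 0, hk1]; simp
  have hn1 : n = of (b 1) := by rw [hb 1, hk1]; simp
  have hn : n = 1 := by
    have h3 : hd 0 (of (b 0) : Monoid.CoprodI A) = hd 0 (of (b 1) : Monoid.CoprodI A) := by
      rw [← hn0, ← hn1]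
    have h4 : hd (0 : Fin 3) (of (b 1) : Monoid.CoprodI A) = 1 := by
      have := hd_mul_of (A := A) (show (0 : Fin 3) ≠ 1 by decide) 1 (b 1)
      rwa [one_mul, hd_one] at this
    rw [hd_of, h4] at h3
    rw [hn0, h3, map_one]
  refine ⟨hx, ?_, hn⟩
  funext j
  ext y
  have h3 := h1 j y
  rw [hn, hk1] at h3
  simp only [Pi.one_apply, one_mul, inv_one, mul_one] at h3
  exact Monoid.CoprodI.of_injective j h3

end three

end Pool.Agent.R684.FP
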