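import Pool.Agent.R684.FP.Main
import Pool.Agent.R684.FP.Three

/-!
# Extensions by graph products
-/

set_option autoImplicit false

namespace Pool.Agent.R684.FP

open Monoid.CoprodI (of)
open Pool.Agent.Y110.FJ
open Pool.Agent.R941.FJ (C_equiv C_le C_cyc mem_sup_normal)
open Pool.Agent.Y462.SS (Closed)

variable {C : ∀ (G : Type) [Group G], Prop}

section defs

variable {G V : Type} [Group G]

/-- the elements of `G` which map the subgroup `B` to an `N`-conjugate of `B` -/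
def ClStab (N B : Subgroup G) [hN : N.Normal] : Subgroup G where
  carrier := {g | ∃ n ∈ N, ∀ x, x ∈ B ↔ n * (g * x * g⁻¹) * n⁻¹ ∈ B}
  one_mem' := ⟨1, one_mem _, fun x => by simp⟩
  mul_mem' := by
    rintro g h ⟨n, hn, h1⟩ ⟨m, hm, h2⟩
    refine ⟨n * (g * m * g⁻¹), N.mul_mem hn (hN.conj_mem m hm g), fun x => ?_⟩
    rw [h2, h1]
    have : n * (g * (m * (h * x * h⁻¹) * m⁻¹) * g⁻¹) * n⁻¹ =
        n * (g * m * g⁻¹) * (g * h * x * (g * h)⁻¹) * (n * (g * m * g⁻¹))⁻¹ := by group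
    rw [this]
  inv_mem' := by
    rintro g ⟨n, hn, h1⟩
    refine ⟨g⁻¹ * n⁻¹ * g, ?_, fun x => ?_⟩
    · have := hN.conj_mem _ (N.inv_mem hn) g⁻¹
      rwa [inv_inv] at this
    · rw [h1 (g⁻¹ * n⁻¹ * g * (g⁻¹ * x * g⁻¹⁻¹) * (g⁻¹ * n⁻¹ * g)⁻¹)]
      have : n * (g * (g⁻¹ * n⁻¹ * g * (g⁻¹ * x * g⁻¹⁻¹) * (g⁻¹ * n⁻¹ * g)⁻¹) * g⁻¹) * n⁻¹ = x := by
        group
      rw [this]

/-- `N` is the graph product of its subgroups `A v` over the graph `Λ`: they generate `N`, adjacent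
ones commute, and `N` is universal with these properties -/
structure IsGP (Λ : SimpleGraph V) (A : V → Subgroup G) (N : Subgroup G) : Prop where
  sup : ⨆ v, A v = N
  comm : ∀ v w, Λ.Adj v w → ∀ a ∈ A v, ∀ b ∈ A w, a * b = b * a
  univ : ∀ (H : Type) [Group H] (f : ∀ v, A v →* H),
    (∀ v w, Λ.Adj v w → ∀ (a : A v) (b : A w), f v a * f w b = f w b * f v a) →
    ∃ F : N →* H, ∀ v (a : A v) (ha : (a : G) ∈ N), F ⟨a, ha⟩ = f v a

theorem IsGP.le {Λ : SimpleGraph V} {A : V → Subgroup G} {N : Subgroup G} (h : IsGP Λ A N) (v : V) :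
    A v ≤ N := h.sup ▸ le_iSup A v

end defs

/-! ### the normal closure of a vertex group -/

section vertex

variable {G V : Type} [Group G] (Λ : SimpleGraph V) (A : V → Subgroup G) (v : V)

/-- the subgroup generated by the other vertex groups -/
def Rr : Subgroup G := ⨆ w, ⨆ _ : w ≠ v, A w

/-- the subgroup generated by the adjacent vertex groups -/
def Lk : Subgroup G := ⨆ w, ⨆ _ : Λ.Adj w v, A w

theorem le_Rr {w : V} (h : w ≠ v) : A w ≤ Rr A v := le_iSup₂_of_le w h le_rfl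

theorem Lk_le : Lk Λ A v ≤ Rr A v := iSup₂_le fun w h => le_Rr A v h.ne

/-- the cosets -/
abbrev Qt : Type := Rr A v ⧸ (Lk Λ A v).subgroupOf (Rr A v)

/-- the representative of a coset -/
noncomputable def rp (c : Qt Λ A v) : G := ((Quotient.out c : Rr A v) : G)

/-- the conjugates of the vertex group -/
noncomputable def Bc (c : Qt Λ A v) : Subgroup G :=
  (A v).map (MulAut.conj (rp Λ A v c)).toMonoidHom

/-- the normal closure of the vertex group -/
noncomputable def Mv : Subgroup G := ⨆ c, Bc Λ A v c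

variable {Λ A v}

theorem mem_Bc {c : Qt Λ A v} {x : G} : x ∈ Bc Λ A v c ↔ (rp Λ A v c)⁻¹ * x * rp Λ A v c ∈ A v := by
  rw [Bc]
  constructor
  · rintro ⟨a, ha, rfl⟩
    have : (rp Λ A v c)⁻¹ * ((MulAut.conj (rp Λ A v c)).toMonoidHom a) * rp Λ A v c = a := by
      show (rp Λ A v c)⁻¹ * (rp Λ A v c * a * (rp Λ A v c)⁻¹) * rp Λ A v c = a
      group
    rw [this]
    exact ha
  · intro h
    refine ⟨_, h, ?_⟩
    show rp Λ A v c * ((rp Λ A v c)⁻¹ * x * rp Λ A v c) * (rp Λ A v c)⁻¹ = x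
    group

theorem rp_mem (c : Qt Λ A v) : rp Λ A v c ∈ Rr A v := (Quotient.out c : Rr A v).2

variable {N : Subgroup G} (h : IsGP Λ A N)

include h

theorem comm_Lk {l a : G} (hl : l ∈ Lk Λ A v) (ha : a ∈ A v) : l * a = a * l := by
  have h1 : Lk Λ A v ≤ Subgroup.centralizer {a} := by
    refine iSup₂_le fun w hw x hx => ?_
    rw [Subgroup.mem_centralizer_singleton_iff]
    exact h.comm w v hw x hx a ha
  exact (Subgroup.mem_centralizer_singleton_iff.1 (h1 hl))

theorem Rr_le : Rr A v ≤ N := iSup₂_le fun w _ => h.le w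

/-- independence of the representative -/
theorem mem_Bc' (r : Rr A v) {x : G} : x ∈ Bc Λ A v (r : Qt Λ A v) ↔ (r : G)⁻¹ * x * r ∈ A v := by
  rw [mem_Bc]
  obtain ⟨s, hs⟩ : ∃ s : Rr A v, s = Quotient.out (r : Qt Λ A v) := ⟨_, rfl⟩
  have h1 : rp Λ A v (r : Qt Λ A v) = s := by rw [hs]; rfl
  have h2 : (s : Qt Λ A v) = r := by rw [hs]; exact QuotientGroup.out_eq' _
  rw [QuotientGroup.eq, Subgroup.mem_subgroupOf] at h2
  have h3 : (s : G)⁻¹ * r ∈ Lk Λ A v := h2
  rw [h1]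
  obtain ⟨l, hl⟩ : ∃ l, l = (s : G)⁻¹ * r := ⟨_, rfl⟩
  rw [← hl] at h3
  have h4 : (r : G) = s * l := by rw [hl]; group
  have h5 : ∀ y : G, y ∈ A v ↔ l⁻¹ * y * l ∈ A v := by
    intro y
    constructor
    · intro hy
      have := comm_Lk h h3 hy
      have h6 : l⁻¹ * y * l = y := by
        rw [mul_assoc, ← this]
        group
      rwa [h6]
    · intro hy
      have := comm_Lk h h3 hy
      have h6 : y = l * (l⁻¹ * y * l) * l⁻¹ := by group
      rw [h6, this]
      have h7 : l⁻¹ * y * l * l * l⁻¹ = l⁻¹ * y * l := by group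
      rw [h7]
      exact hy
  rw [h5 ((s : G)⁻¹ * x * s), h4]
  have h6 : l⁻¹ * ((s : G)⁻¹ * x * s) * l = (s * l)⁻¹ * x * (s * l) := by group
  rw [h6]

theorem A_le_Mv {a : G} (ha : a ∈ A v) : a ∈ Mv Λ A v := by
  refine le_iSup (Bc Λ A v) ((1 : Rr A v) : Qt Λ A v) ?_
  rw [mem_Bc' h]
  simpa using ha

theorem Rr_conj {r x : G} (hr : r ∈ Rr A v) (hx : x ∈ Mv Λ A v) : r * x * r⁻¹ ∈ Mv Λ A v := by
  have h1 : Mv Λ A v ≤ (Mv Λ A v).comap (MulAut.conj r).toMonoidHom := by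
    conv_lhs => rw [Mv]
    refine iSup_le fun c x hx => ?_
    show r * x * r⁻¹ ∈ Mv Λ A v
    rw [mem_Bc] at hx
    refine le_iSup (Bc Λ A v) ((⟨r * rp Λ A v c, (Rr A v).mul_mem hr (rp_mem c)⟩ : Rr A v) :
      Qt Λ A v) ?_
    rw [mem_Bc' h]
    show (r * rp Λ A v c)⁻¹ * (r * x * r⁻¹) * (r * rp Λ A v c) ∈ A v
    have h2 : (r * rp Λ A v c)⁻¹ * (r * x * r⁻¹) * (r * rp Λ A v c) =
        (rp Λ A v c)⁻¹ * x * rp Λ A v c := by group
    rwa [h2]
  exact h1 hx

theorem Mv_le : Mv Λ A v ≤ N := by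
  refine iSup_le fun c x hx => ?_
  rw [mem_Bc] at hx
  have h1 := Rr_le h (rp_mem c)
  have h2 : x = rp Λ A v c * ((rp Λ A v c)⁻¹ * x * rp Λ A v c) * (rp Λ A v c)⁻¹ := by group
  rw [h2]
  exact N.mul_mem (N.mul_mem h1 (h.le v hx)) (N.inv_mem h1)

theorem dcv {n : G} (hn : n ∈ N) : ∃ m ∈ Mv Λ A v, ∃ r ∈ Rr A v, n = m * r := by
  have h1 : N ≤
      { carrier := {x | ∃ m ∈ Mv Λ A v, ∃ r ∈ Rr A v, x = m * r}
        one_mem' := ⟨1, one_mem _, 1, one_mem _, (mul_one 1).symm⟩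
        mul_mem' := by
          rintro _ _ ⟨m, hm, r, hr, rfl⟩ ⟨m', hm', r', hr', rfl⟩
          exact ⟨m * (r * m' * r⁻¹), mul_mem hm (Rr_conj h hr hm'), r * r', mul_mem hr hr',
            by group⟩
        inv_mem' := by
          rintro _ ⟨m, hm, r, hr, rfl⟩
          refine ⟨r⁻¹ * m⁻¹ * r, ?_, r⁻¹, inv_mem hr, by group⟩
          have := Rr_conj h (inv_mem hr) (inv_mem hm)
          rwa [inv_inv] at this : Subgroup G } := by
    conv_lhs => rw [← h.sup]
    refine iSup_le fun w x hx => ?_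
    by_cases hw : w = v
    · subst hw
      exact ⟨x, A_le_Mv h hx, 1, one_mem _, (mul_one x).symm⟩
    · exact ⟨1, one_mem _, x, le_Rr A v hw hx, (one_mul x).symm⟩
  exact h1 hn

omit h in
/-- the permutation of the factors -/
def pmu (B : Type) [Group B] : Rr A v →* Monoid.End (Monoid.CoprodI (fun _ : Qt Λ A v => B)) where
  toFun r := Monoid.CoprodI.lift fun c => of (M := fun _ : Qt Λ A v => B) (i := r • c)
  map_one' := by
    apply Monoid.CoprodI.ext_hom
    intro c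
    ext b : 1
    show (Monoid.CoprodI.lift fun c => of (M := fun _ : Qt Λ A v => B) (i := (1 : Rr A v) • c))
      (of (M := fun _ : Qt Λ A v => B) (i := c) b) = of (M := fun _ : Qt Λ A v => B) (i := c) b
    rw [Monoid.CoprodI.lift_of, one_smul]
  map_mul' r s := by
    apply Monoid.CoprodI.ext_hom
    intro c
    ext b : 1
    show (Monoid.CoprodI.lift fun c => of (M := fun _ : Qt Λ A v => B) (i := (r * s) • c))
      (of (M := fun _ : Qt Λ A v => B) (i := c) b) =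
        (Monoid.CoprodI.lift fun c => of (M := fun _ : Qt Λ A v => B) (i := r • c))
        ((Monoid.CoprodI.lift fun c => of (M := fun _ : Qt Λ A v => B) (i := s • c))
          (of (M := fun _ : Qt Λ A v => B) (i := c) b))
    rw [Monoid.CoprodI.lift_of, Monoid.CoprodI.lift_of, Monoid.CoprodI.lift_of, mul_smul]


section F

variable (B : Type) [Group B]

omit h

theorem pmu_of (r : Rr A v) (c : Qt Λ A v) (b : B) :
    pmu B r (of (M := fun _ : Qt Λ A v => B) (i := c) b) =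
      of (M := fun _ : Qt Λ A v => B) (i := r • c) b := by
  show (Monoid.CoprodI.lift fun c => of (M := fun _ : Qt Λ A v => B) (i := r • c))
      (of (M := fun _ : Qt Λ A v => B) (i := c) b) = _
  rw [Monoid.CoprodI.lift_of]

end F

omit h in
/-- the target of the embedding -/
abbrev Tg (Λ : SimpleGraph V) (A : V → Subgroup G) (v : V) : Type :=
  Monoid.CoprodI (fun _ : Qt Λ A v => A v) ⋊[autOf (pmu (Λ := Λ) (A := A) (v := v) (A v))] Rr A v

omit h in
/-- the factor of the trivial coset -/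
noncomputable def i0 (Λ : SimpleGraph V) (A : V → Subgroup G) (v : V) : A v →* Tg Λ A v :=
  SemidirectProduct.inl.comp (of (M := fun _ : Qt Λ A v => A v) (i := ((1 : Rr A v) : Qt Λ A v)))

omit h in
theorem i0_conj (r : Rr A v) (a : A v) :
    (SemidirectProduct.inr r : Tg Λ A v) * i0 Λ A v a * (SemidirectProduct.inr r)⁻¹ =
      SemidirectProduct.inl (of (M := fun _ : Qt Λ A v => A v) (i := (r : Qt Λ A v)) a) := by
  show SemidirectProduct.inr r * SemidirectProduct.inl _ * (SemidirectProduct.inr r)⁻¹ = _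
  rw [← map_inv, ← SemidirectProduct.inl_aut, autOf_apply, pmu_of]
  congr 3
  show ((r * 1 : Rr A v) : Qt Λ A v) = _
  rw [mul_one]

theorem ex_F : ∃ F : N →* Tg Λ A v, (∀ (a : A v) (ha : (a : G) ∈ N), F ⟨a, ha⟩ = i0 Λ A v a) ∧
    ∀ (r : Rr A v) (hr : (r : G) ∈ N), F ⟨r, hr⟩ = SemidirectProduct.inr r := by
  classical
  obtain ⟨f, hf⟩ : ∃ f : ∀ w, A w →* Tg Λ A v, f = fun w => if hw : w = v then
      (i0 Λ A v).comp (Subgroup.inclusion (hw ▸ le_rfl)) else
      SemidirectProduct.inr.comp (Subgroup.inclusion (le_Rr A v hw)) := ⟨_, rfl⟩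
  have hf1 : ∀ a : A v, f v a = i0 Λ A v a := by
    intro a
    rw [hf]
    simp only [dif_pos]
    rfl
  have hf2 : ∀ w (hw : w ≠ v) (a : A w), f w a = SemidirectProduct.inr ⟨a, le_Rr A v hw a.2⟩ := by
    intro w hw a
    rw [hf]
    simp only [dif_neg hw]
    rfl
  have key : ∀ w, Λ.Adj w v → ∀ (b : A w) (a : A v), f w b * f v a = f v a * f w b := by
    intro w hw b a
    rw [hf1, hf2 w hw.ne, ← mul_inv_eq_iff_eq_mul, i0_conj]
    have e : ((⟨b, le_Rr A v hw.ne b.2⟩ : Rr A v) : Qt Λ A v) = ((1 : Rr A v) : Qt Λ A v) := by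
      rw [QuotientGroup.eq, Subgroup.mem_subgroupOf]
      have : (b : G) ∈ Lk Λ A v :=
        (le_iSup₂_of_le (f := fun w (_ : Λ.Adj w v) => A w) w hw le_rfl) b.2
      show (b : G)⁻¹ * 1 ∈ Lk Λ A v
      rw [mul_one]
      exact inv_mem this
    rw [e]
    rfl
  obtain ⟨F, hF⟩ := h.univ (Tg Λ A v) f (by
    intro w1 w2 hadj a b
    by_cases h1 : w1 = v
    · subst h1
      exact (key w2 hadj.symm b a).symm
    · by_cases h2 : w2 = v
      · subst h2
        exact key w1 hadj a b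
      · rw [hf2 w1 h1, hf2 w2 h2, ← map_mul, ← map_mul]
        congr 1
        exact Subtype.ext (h.comm w1 w2 hadj a a.2 b b.2))
  refine ⟨F, fun a ha => by rw [hF, hf1], ?_⟩
  have h1 : Rr A v ≤
      { carrier := {x | ∃ (hx : x ∈ N) (hr : x ∈ Rr A v), F ⟨x, hx⟩ = SemidirectProduct.inr ⟨x, hr⟩}
        one_mem' := ⟨one_mem _, one_mem _, by
          show F 1 = SemidirectProduct.inr 1
          rw [map_one, map_one]⟩
        mul_mem' := by
          rintro x y ⟨hx, hx', h1⟩ ⟨hy, hy', h2⟩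
          refine ⟨mul_mem hx hy, mul_mem hx' hy', ?_⟩
          show F (⟨x, hx⟩ * ⟨y, hy⟩) = SemidirectProduct.inr (⟨x, hx'⟩ * ⟨y, hy'⟩)
          rw [map_mul, h1, h2, map_mul]
        inv_mem' := by
          rintro x ⟨hx, hx', h1⟩
          refine ⟨inv_mem hx, inv_mem hx', ?_⟩
          show F (⟨x, hx⟩⁻¹) = SemidirectProduct.inr (⟨x, hx'⟩⁻¹)
          rw [map_inv, h1, map_inv] : Subgroup G } := by
    refine iSup₂_le fun w hw x hx => ?_
    refine ⟨h.le w hx, le_Rr A v hw hx, ?_⟩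
    rw [hF w ⟨x, hx⟩, hf2 w hw]
  intro r hr
  obtain ⟨_, _, h2⟩ := h1 r.2
  exact h2

theorem Bc_inj : Function.Injective (Monoid.CoprodI.lift fun c => (Bc Λ A v c).subtype) := by
  obtain ⟨F, hF1, hF2⟩ := ex_F h (v := v)
  have hle : ∀ c, Bc Λ A v c ≤ N := fun c => (le_iSup (Bc Λ A v) c).trans (Mv_le h)
  -- the isomorphism of the free products
  obtain ⟨q, hq⟩ : ∃ q : ∀ c, Bc Λ A v c →* A v, ∀ c x, (q c x : G) =
      (rp Λ A v c)⁻¹ * x * rp Λ A v c := by
    refine ⟨fun c => ((MulAut.conj (rp Λ A v c)⁻¹).toMonoidHom.comp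
      (Bc Λ A v c).subtype).codRestrict _ fun x => ?_, fun c x => ?_⟩
    · show (rp Λ A v c)⁻¹ * (x : G) * (rp Λ A v c)⁻¹⁻¹ ∈ A v
      rw [inv_inv]
      exact mem_Bc.1 x.2
    · show (rp Λ A v c)⁻¹ * (x : G) * (rp Λ A v c)⁻¹⁻¹ = _
      rw [inv_inv]
  obtain ⟨p, hp⟩ : ∃ p : ∀ c, A v →* Bc Λ A v c, ∀ c x, (p c x : G) =
      rp Λ A v c * x * (rp Λ A v c)⁻¹ := by
    refine ⟨fun c => ((MulAut.conj (rp Λ A v c)).toMonoidHom.comp
      (A v).subtype).codRestrict _ fun x => ?_, fun c x => rfl⟩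
    exact ⟨x, x.2, rfl⟩
  obtain ⟨ν, hν⟩ : ∃ ν : Monoid.CoprodI (fun c => Bc Λ A v c) →*
      Monoid.CoprodI (fun _ : Qt Λ A v => A v), ν = Monoid.CoprodI.lift fun c =>
        (of (M := fun _ : Qt Λ A v => A v) (i := c)).comp (q c) := ⟨_, rfl⟩
  obtain ⟨μ, hμ⟩ : ∃ μ : Monoid.CoprodI (fun _ : Qt Λ A v => A v) →*
      Monoid.CoprodI (fun c => Bc Λ A v c), μ = Monoid.CoprodI.lift fun c =>
        (of (M := fun c => Bc Λ A v c) (i := c)).comp (p c) := ⟨_, rfl⟩
  have hμν : ∀ x, μ (ν x) = x := by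
    intro x
    have : μ.comp ν = MonoidHom.id _ := by
      apply Monoid.CoprodI.ext_hom
      intro c
      ext x : 1
      show μ (ν (of (M := fun c => Bc Λ A v c) (i := c) x)) = of (M := fun c => Bc Λ A v c) (i := c) x
      rw [hν, Monoid.CoprodI.lift_of]
      show μ (of (M := fun _ : Qt Λ A v => A v) (i := c) (q c x)) = of (M := fun c => Bc Λ A v c) (i := c) x
      rw [hμ, Monoid.CoprodI.lift_of]
      show of (M := fun c => Bc Λ A v c) (i := c) (p c (q c x)) = of (M := fun c => Bc Λ A v c) (i := c) x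
      congr 1
      apply Subtype.ext
      rw [hp, hq]
      group
    exact DFunLike.congr_fun this x
  have hνinj : Function.Injective ν := Function.LeftInverse.injective hμν
  obtain ⟨J, hJ⟩ : ∃ J : Monoid.CoprodI (fun c => Bc Λ A v c) →* G,
    J = Monoid.CoprodI.lift fun c => (Bc Λ A v c).subtype := ⟨_, rfl⟩
  obtain ⟨J', hJ'⟩ : ∃ J' : Monoid.CoprodI (fun c => Bc Λ A v c) →* N,
    J' = Monoid.CoprodI.lift fun c => Subgroup.inclusion (hle c) := ⟨_, rfl⟩
  have h1 : ∀ x, J x = J' x := by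
    intro x
    have : J = N.subtype.comp J' := by
      apply Monoid.CoprodI.ext_hom
      intro c
      ext x : 1
      show J (of (M := fun c => Bc Λ A v c) (i := c) x) = (J' (of (M := fun c => Bc Λ A v c) (i := c) x) : G)
      rw [hJ, hJ', Monoid.CoprodI.lift_of, Monoid.CoprodI.lift_of]
      rfl
    exact DFunLike.congr_fun this x
  have h2 : ∀ x, F (J' x) = SemidirectProduct.inl (ν x) := by
    intro x
    have : F.comp J' = SemidirectProduct.inl.comp ν := by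
      apply Monoid.CoprodI.ext_hom
      intro c
      ext x : 1
      show F (J' (of (M := fun c => Bc Λ A v c) (i := c) x)) = SemidirectProduct.inl (ν (of (M := fun c => Bc Λ A v c) (i := c) x))
      rw [hJ', hν, Monoid.CoprodI.lift_of, Monoid.CoprodI.lift_of]
      show F ⟨x, _⟩ = SemidirectProduct.inl (of (M := fun _ : Qt Λ A v => A v) (i := c) (q c x))
      have hrN := Rr_le h (rp_mem c)
      have h3 : (⟨(x : G), hle c x.2⟩ : N) = ⟨rp Λ A v c, hrN⟩ * ⟨(q c x : G), h.le v (q c x).2⟩ *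
          ⟨rp Λ A v c, hrN⟩⁻¹ := by
        apply Subtype.ext
        show (x : G) = rp Λ A v c * (q c x : G) * (rp Λ A v c)⁻¹
        rw [hq]
        group
      rw [h3, map_mul, map_mul, map_inv, hF1, hF2 ⟨rp Λ A v c, rp_mem c⟩, i0_conj]
      have h4 : ((⟨rp Λ A v c, rp_mem c⟩ : Rr A v) : Qt Λ A v) = c := QuotientGroup.out_eq' c
      rw [h4]
    exact DFunLike.congr_fun this x
  rw [← hJ]
  intro x y hxy
  rw [h1, h1] at hxy
  have h3 : J' x = J' y := Subtype.ext hxy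
  have h4 := congrArg F h3
  rw [h2, h2] at h4
  exact hνinj (SemidirectProduct.inl_injective h4)

theorem Bc_free : IsFreeProd (Mv Λ A v) (Bc Λ A v) := ⟨rfl, Bc_inj h⟩

end vertex

end Pool.Agent.R684.FP
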