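import Pool.Agent.R684.FP.Gpx
import Pool.Agent.R684.FP.Free

/-!
# Extensions by graph products, one vertex
-/

set_option autoImplicit false

namespace Pool.Agent.R684.FP

open Monoid.CoprodI (of)
open Pool.Agent.Y110.FJ
open Pool.Agent.R941.FJ (C_equiv C_le C_cyc mem_sup_normal)
open Pool.Agent.Y462.SS (Closed)

variable {C : ∀ (G : Type) [Group G], Prop}

section one

variable {G V : Type} [Group G] {Λ : SimpleGraph V} {A : V → Subgroup G} {v : V} {N : Subgroup G}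

theorem N_conj (h : IsGP Λ A N) {n x : G} (hn : n ∈ N) (hx : x ∈ Mv Λ A v) :
    n * x * n⁻¹ ∈ Mv Λ A v := by
  obtain ⟨m, hm, r, hr, rfl⟩ := dcv h (v := v) hn
  have := mul_mem (mul_mem hm (Rr_conj h hr hx)) (inv_mem hm)
  have h2 : m * r * x * (m * r)⁻¹ = m * (r * x * r⁻¹) * m⁻¹ := by group
  rwa [h2]

theorem Mv_conj [hN : N.Normal] (h : IsGP Λ A N) {g : G} (hg : g ∈ ClStab N (A v)) {x : G}
    (hx : x ∈ Mv Λ A v) : g * x * g⁻¹ ∈ Mv Λ A v := by
  obtain ⟨n, hn, hnx⟩ := hg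
  have h1 : Mv Λ A v ≤ (Mv Λ A v).comap (MulAut.conj g).toMonoidHom := by
    conv_lhs => rw [Mv]
    refine iSup_le fun c x hx => ?_
    show g * x * g⁻¹ ∈ Mv Λ A v
    rw [mem_Bc] at hx
    have h2 := (hnx _).1 hx
    have h3 := A_le_Mv h h2
    have h4 := N_conj h (N.mul_mem (hN.conj_mem _ (Rr_le h (rp_mem c)) g) (N.inv_mem hn)) h3
    have h5 : g * rp Λ A v c * g⁻¹ * n⁻¹ *
        (n * (g * ((rp Λ A v c)⁻¹ * x * rp Λ A v c) * g⁻¹) * n⁻¹) *
        (g * rp Λ A v c * g⁻¹ * n⁻¹)⁻¹ = g * x * g⁻¹ := by group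
    rwa [h5] at h4
  exact h1 hx

theorem Mv_normal [hN : N.Normal] (h : IsGP Λ A N) (hg : ∀ g, g ∈ ClStab N (A v)) :
    (Mv Λ A v).Normal := ⟨fun _ hx g => Mv_conj h (hg g) hx⟩

/-- one vertex -/
theorem vstep (hC : ClosedE C) (hF : FbC C) [hN : N.Normal] (h : IsGP Λ A N)
    (hp : ∀ g, g ∈ ClStab N (A v))
    (hB : ∀ g : G, (∀ x, x ∈ A v ↔ g * x * g⁻¹ ∈ A v) → C ↥(A v ⊔ Subgroup.zpowers g))
    [(Mv Λ A v).Normal] (hQ : C (G ⧸ Mv Λ A v)) : C G := by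
  refine main_all hC hF hQ (Bc Λ A v) Set.univ (Bc_free h) (fun i hi => absurd trivial hi) ?_ ?_
  · intro c _ g
    obtain ⟨n0, hn0, hnx⟩ := hp g
    obtain ⟨k, hk⟩ : ∃ k, k = n0 * (g * (rp Λ A v c)⁻¹ * g⁻¹) := ⟨_, rfl⟩
    have hkN : k ∈ N := by
      rw [hk]
      exact N.mul_mem hn0 (hN.conj_mem _ (N.inv_mem (Rr_le h (rp_mem c))) g)
    have h1 : ∀ x, x ∈ Bc Λ A v c ↔ k * (g * x * g⁻¹) * k⁻¹ ∈ A v := by
      intro x
      rw [mem_Bc, hnx, hk]
      have : n0 * (g * ((rp Λ A v c)⁻¹ * x * rp Λ A v c) * g⁻¹) * n0⁻¹ =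
        n0 * (g * (rp Λ A v c)⁻¹ * g⁻¹) * (g * x * g⁻¹) * (n0 * (g * (rp Λ A v c)⁻¹ * g⁻¹))⁻¹ := by
        group
      rw [this]
    obtain ⟨m, hm, r, hr, hmr⟩ := dcv h (v := v) (N.inv_mem hkN)
    refine ⟨((⟨r, hr⟩ : Rr A v) : Qt Λ A v), trivial, m⁻¹, inv_mem hm, fun x => ?_⟩
    rw [h1, mem_Bc' h]
    have h2 : k = r⁻¹ * m⁻¹ := by rw [← inv_inv k, hmr]; group
    show _ ↔ r⁻¹ * _ * r ∈ A v
    have h3 : k * (g * x * g⁻¹) * k⁻¹ = r⁻¹ * (m⁻¹ * (g * x * g⁻¹) * m⁻¹⁻¹) * r := by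
      rw [h2]
      group
    rw [h3]
  · intro c _ g hg
    obtain ⟨r, hr⟩ : ∃ r, r = rp Λ A v c := ⟨_, rfl⟩
    have hBb : Bc Λ A v c = (A v).map (MulAut.conj r).toMonoidHom := by rw [Bc, hr]
    have h1 : ∀ x, x ∈ A v ↔ (r⁻¹ * g * r) * x * (r⁻¹ * g * r)⁻¹ ∈ A v := by
      intro x
      have h2 := hg (r * x * r⁻¹)
      rw [mem_Bc, mem_Bc, ← hr] at h2
      have h3 : r⁻¹ * (r * x * r⁻¹) * r = x := by group
      have h4 : r⁻¹ * (g * (r * x * r⁻¹) * g⁻¹) * r = (r⁻¹ * g * r) * x * (r⁻¹ * g * r)⁻¹ := by group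
      rwa [h3, h4] at h2
    have h2 := hB _ h1
    have h3 : Bc Λ A v c ⊔ Subgroup.zpowers g =
        (A v ⊔ Subgroup.zpowers (r⁻¹ * g * r)).map (MulAut.conj r).toMonoidHom := by
      rw [Subgroup.map_sup, ← hBb, MonoidHom.map_zpowers]
      congr 2
      show g = r * (r⁻¹ * g * r) * r⁻¹
      group
    rw [h3]
    exact C_equiv hC.base ((A v ⊔ Subgroup.zpowers (r⁻¹ * g * r)).equivMapOfInjective
      (MulAut.conj r).toMonoidHom (MulAut.conj r).injective).symm h2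

end one

section retract

variable {G V : Type} [Group G] {Λ : SimpleGraph V} {A : V → Subgroup G} {N : Subgroup G}

/-- the retraction to the part over a set of vertices -/
theorem ex_ret (h : IsGP Λ A N) (F : Set V) : ∃ ρ : N →* G,
    (∀ w ∈ F, ∀ a : N, (a : G) ∈ A w → ρ a = a) ∧ (∀ w, w ∉ F → ∀ a : N, (a : G) ∈ A w → ρ a = 1) := by
  classical
  obtain ⟨ρ, hρ⟩ := h.univ G (fun w => if w ∈ F then (A w).subtype else 1) (by
    intro w1 w2 hadj a b
    by_cases h1 : w1 ∈ F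
    · by_cases h2 : w2 ∈ F
      · simp only [if_pos h1, if_pos h2]
        exact h.comm w1 w2 hadj a a.2 b b.2
      · simp only [if_neg h2]
        show _ * 1 = 1 * _
        rw [mul_one, one_mul]
    · simp only [if_neg h1]
      show 1 * _ = _ * 1
      rw [mul_one, one_mul])
  refine ⟨ρ, ?_, ?_⟩
  · intro w hw a ha
    have := hρ w ⟨a, ha⟩ a.2
    simp only [if_pos hw] at this
    exact this
  · intro w hw a ha
    have := hρ w ⟨a, ha⟩ a.2
    simp only [if_neg hw] at this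
    exact this

/-- conjugation by an element of `N` on a vertex group -/
theorem inner_conj (h : IsGP Λ A N) (v : V) {n : G} (hn : n ∈ N) : ∃ a ∈ A v, ∀ y ∈ A v,
    n * y * n⁻¹ ∈ A v → n * y * n⁻¹ = a * y * a⁻¹ := by
  obtain ⟨ρ, hρ1, hρ2⟩ := ex_ret h {v}
  have hr : ∀ x : N, ρ x ∈ A v := by
    have h1 : N ≤ ((A v).comap ρ).map N.subtype := by
      conv_lhs => rw [← h.sup]
      refine iSup_le fun w x hx => ?_
      refine ⟨⟨x, h.le w hx⟩, ?_, rfl⟩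
      show ρ ⟨x, h.le w hx⟩ ∈ A v
      by_cases hw : w = v
      · subst hw
        rw [hρ1 w rfl ⟨x, h.le w hx⟩ hx]
        exact hx
      · rw [hρ2 w hw ⟨x, h.le w hx⟩ hx]
        exact one_mem _
    intro x
    obtain ⟨y, hy, hyx⟩ := h1 x.2
    have : y = x := Subtype.ext hyx
    rw [← this]
    exact hy
  refine ⟨ρ ⟨n, hn⟩, hr _, fun y hy hny => ?_⟩
  have h2 := hρ1 v rfl ⟨n * y * n⁻¹, h.le v hny⟩ hny
  have h3 : (⟨n * y * n⁻¹, h.le v hny⟩ : N) = ⟨n, hn⟩ * ⟨y, h.le v hy⟩ * ⟨n, hn⟩⁻¹ := rfl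
  rw [h3, map_mul, map_mul, map_inv, hρ1 v rfl ⟨y, h.le v hy⟩ hy] at h2
  exact h2.symm

/-- deleting vertices -/
theorem IsGP.quot (h : IsGP Λ A N) (D : Set V) (K : Subgroup G) [K.Normal]
    (h1 : ∀ w ∈ D, A w ≤ K)
    (h2 : ∀ (H : Type) [Group H] (F : N →* H), (∀ w ∈ D, ∀ a : N, (a : G) ∈ A w → F a = 1) →
      ∀ k : N, (k : G) ∈ K → F k = 1) :
    IsGP (Λ.comap (Subtype.val : {w // w ∉ D} → V))
      (fun w => (A w.1).map (QuotientGroup.mk' K)) (N.map (QuotientGroup.mk' K)) where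
  sup := by
    rw [← Subgroup.map_iSup]
    apply le_antisymm
    · exact Subgroup.map_mono (iSup_le fun w => h.le w.1)
    · conv_lhs => rw [← h.sup]
      rw [Subgroup.map_iSup]
      refine iSup_le fun w => ?_
      by_cases hw : w ∈ D
      · rintro _ ⟨x, hx, rfl⟩
        have : QuotientGroup.mk' K x = 1 := (QuotientGroup.eq_one_iff _).2 (h1 w hw hx)
        rw [this]
        exact one_mem _
      · exact Subgroup.map_mono (le_iSup_of_le ⟨w, hw⟩ le_rfl)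
  comm := by
    rintro w1 w2 hadj _ ⟨a, ha, rfl⟩ _ ⟨b, hb, rfl⟩
    rw [← map_mul, ← map_mul, h.comm w1.1 w2.1 hadj a ha b hb]
  univ := by
    classical
    intro H _ f hf
    obtain ⟨F, hFF⟩ := h.univ H (fun w => if hw : w ∈ D then 1 else
      (f ⟨w, hw⟩).comp ((QuotientGroup.mk' K).subgroupMap (A w))) (by
        intro w1 w2 hadj a b
        by_cases hw1 : w1 ∈ D
        · simp only [dif_pos hw1]
          show 1 * _ = _ * 1
          rw [mul_one, one_mul]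
        · by_cases hw2 : w2 ∈ D
          · simp only [dif_pos hw2]
            show _ * 1 = 1 * _
            rw [mul_one, one_mul]
          · simp only [dif_neg hw1, dif_neg hw2]
            exact hf ⟨w1, hw1⟩ ⟨w2, hw2⟩ hadj _ _)
    have hFK : ∀ k : N, (k : G) ∈ K → F k = 1 := h2 H F (by
      intro w hw a ha
      have := hFF w ⟨a, ha⟩ a.2
      simp only [dif_pos hw] at this
      exact this)
    have hker : ((QuotientGroup.mk' K).subgroupMap N).ker ≤ F.ker := by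
      intro k hk
      refine hFK k ?_
      have h3 : QuotientGroup.mk' K (k : G) = 1 := congrArg Subtype.val hk
      exact (QuotientGroup.eq_one_iff _).1 h3
    have hsur := (QuotientGroup.mk' K).subgroupMap_surjective N
    refine ⟨((QuotientGroup.mk' K).subgroupMap N).liftOfSurjective hsur ⟨F, hker⟩, ?_⟩
    rintro w ⟨_, a, ha, rfl⟩ hmem
    have h4 : (⟨QuotientGroup.mk' K a, hmem⟩ : N.map (QuotientGroup.mk' K)) =
        (QuotientGroup.mk' K).subgroupMap N ⟨a, h.le w.1 ha⟩ := rfl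
    show (((QuotientGroup.mk' K).subgroupMap N).liftOfSurjective hsur ⟨F, hker⟩)
      (⟨QuotientGroup.mk' K a, hmem⟩ : N.map (QuotientGroup.mk' K)) = _
    rw [h4, MonoidHom.liftOfRightInverse_comp_apply]
    have h5 := hFF w.1 ⟨a, ha⟩ (h.le w.1 ha)
    simp only [dif_neg w.2] at h5
    exact h5

end retract

end Pool.Agent.R684.FP
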