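import Pool.Agent.R684.FP.Gpy

/-!
# Extensions by graph products over finite graphs
-/

set_option autoImplicit false

namespace Pool.Agent.R684.FP

open Monoid.CoprodI (of)
open Pool.Agent.Y110.FJ
open Pool.Agent.R941.FJ (C_equiv C_le C_cyc mem_sup_normal)
open Pool.Agent.Y462.SS (Closed)

variable {C : ∀ (G : Type) [Group G], Prop}

section quot

variable {G V : Type} [Group G] {Λ : SimpleGraph V} {A : V → Subgroup G} {N : Subgroup G}

/-- `K` is the normal closure in `N` of the vertex groups over `D` -/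
structure Kil (A : V → Subgroup G) (N : Subgroup G) (D : Set V) (K : Subgroup G) : Prop where
  le : K ≤ N
  mem : ∀ w ∈ D, A w ≤ K
  kill : ∀ (H : Type) [Group H] (F : N →* H), (∀ w ∈ D, ∀ a : N, (a : G) ∈ A w → F a = 1) →
      ∀ k : N, (k : G) ∈ K → F k = 1

theorem Kil.inf (h : IsGP Λ A N) {D : Set V} {K : Subgroup G} (hK : Kil A N D K) {w : V}
    (hw : w ∉ D) {x : G} (hx : x ∈ A w) (hxK : x ∈ K) : x = 1 := by
  obtain ⟨ρ, hρ1, hρ2⟩ := ex_ret h {w}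
  have h1 := hK.kill G ρ (fun u hu a ha => hρ2 u (fun he => hw (by rw [← Set.mem_singleton_iff.1 he]; exact hu)) a ha)
    ⟨x, hK.le hxK⟩ hxK
  rw [hρ1 w rfl ⟨x, hK.le hxK⟩ hx] at h1
  exact h1

theorem quot_mem {B K : Subgroup G} [K.Normal] {u : G} (hu : ∀ x, x ∈ B ↔ u * x * u⁻¹ ∈ B)
    (x : G ⧸ K) : x ∈ B.map (QuotientGroup.mk' K) ↔
      (u : G ⧸ K) * x * (u : G ⧸ K)⁻¹ ∈ B.map (QuotientGroup.mk' K) := by
  constructor
  · rintro ⟨b, hb, rfl⟩
    exact ⟨u * b * u⁻¹, (hu b).1 hb, rfl⟩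
  · rintro ⟨b, hb, hbx⟩
    refine ⟨u⁻¹ * b * u, (hu _).2 ?_, ?_⟩
    · have : u * (u⁻¹ * b * u) * u⁻¹ = b := by group
      rw [this]
      exact hb
    · have h1 : (b : G ⧸ K) = (u : G ⧸ K) * x * (u : G ⧸ K)⁻¹ := hbx
      show (u : G ⧸ K)⁻¹ * (b : G ⧸ K) * (u : G ⧸ K) = x
      rw [h1]
      group

theorem quot_cl [hN : N.Normal] {B K : Subgroup G} [K.Normal]
    [hN' : (N.map (QuotientGroup.mk' K)).Normal] {g : G} (hg : g ∈ ClStab N B) :
    (g : G ⧸ K) ∈ ClStab (N.map (QuotientGroup.mk' K)) (B.map (QuotientGroup.mk' K)) := by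
  obtain ⟨n, hn, h⟩ := hg
  refine ⟨(n : G ⧸ K), ⟨n, hn, rfl⟩, fun x => ?_⟩
  have h1 : ∀ x, x ∈ B ↔ (n * g) * x * (n * g)⁻¹ ∈ B := by
    intro x
    rw [h x]
    have : n * (g * x * g⁻¹) * n⁻¹ = n * g * x * (n * g)⁻¹ := by group
    rw [this]
  rw [quot_mem h1 x]
  have : ((n * g : G) : G ⧸ K) * x * ((n * g : G) : G ⧸ K)⁻¹ =
      (n : G ⧸ K) * ((g : G ⧸ K) * x * (g : G ⧸ K)⁻¹) * (n : G ⧸ K)⁻¹ := by
    rw [QuotientGroup.mk_mul]
    group
  rw [this]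

/-- the cyclic extensions in the quotient -/
theorem quot_cyc (hC : ClosedE C) [hN : N.Normal] (h : IsGP Λ A N) {D : Set V} {K : Subgroup G}
    [K.Normal] (hK : Kil A N D K) {w : V} (hw : w ∉ D)
    (hB : ∀ g : G, (∀ x, x ∈ A w ↔ g * x * g⁻¹ ∈ A w) → C ↥(A w ⊔ Subgroup.zpowers g))
    {g : G} (hg : g ∈ ClStab N (A w))
    (hg' : ∀ x : G ⧸ K, x ∈ (A w).map (QuotientGroup.mk' K) ↔
      (g : G ⧸ K) * x * (g : G ⧸ K)⁻¹ ∈ (A w).map (QuotientGroup.mk' K)) :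
    C ↥((A w).map (QuotientGroup.mk' K) ⊔ Subgroup.zpowers (g : G ⧸ K)) := by
  obtain ⟨n, hn, hnx⟩ := hg
  obtain ⟨u, hu⟩ : ∃ u, u = n * g := ⟨_, rfl⟩
  have h1 : ∀ x, x ∈ A w ↔ u * x * u⁻¹ ∈ A w := by
    intro x
    rw [hnx x, hu]
    have : n * (g * x * g⁻¹) * n⁻¹ = n * g * x * (n * g)⁻¹ := by group
    rw [this]
  -- the retraction of the quotient
  have hgp := h.quot D K hK.mem hK.kill
  obtain ⟨a, ha, hcj⟩ := inner_conj hgp ⟨w, hw⟩ (n := (n : G ⧸ K)⁻¹)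
    (inv_mem (Subgroup.mem_map_of_mem (QuotientGroup.mk' K) hn))
  obtain ⟨a', ha', rfl⟩ := ha
  -- the identification
  have hinj : Function.Injective ((QuotientGroup.mk' K).subgroupMap (A w)) := by
    rw [injective_iff_map_eq_one]
    intro x hx
    have h3 : QuotientGroup.mk' K (x : G) = 1 := congrArg Subtype.val hx
    exact Subtype.ext (Kil.inf h hK hw x.2 ((QuotientGroup.eq_one_iff _).1 h3))
  obtain ⟨e, he⟩ : ∃ e : A w ≃* (A w).map (QuotientGroup.mk' K), ∀ x, ((e x : (A w).map (QuotientGroup.mk' K)) : G ⧸ K) = ((x : G) : G ⧸ K) :=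
    ⟨MulEquiv.ofBijective _ ⟨hinj, (QuotientGroup.mk' K).subgroupMap_surjective (A w)⟩,
      fun x => rfl⟩
  obtain ⟨H, hH⟩ : ∃ H : Subgroup G, H = A w ⊔ Subgroup.zpowers u := ⟨_, rfl⟩
  have hHA : A w ≤ H := by rw [hH]; exact le_sup_left
  have huH : u ∈ H := by rw [hH]; exact Subgroup.mem_sup_right (Subgroup.mem_zpowers u)
  have hCH : C H := by rw [hH]; exact hB u h1
  refine cyc_real hC ((A w).map (QuotientGroup.mk' K)) (g : G ⧸ K) hg'
    ((Subgroup.inclusion hHA).comp e.symm.toMonoidHom)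
    ((Subgroup.inclusion_injective hHA).comp e.symm.injective)
    (⟨a', hHA ha'⟩ * ⟨u, huH⟩) ?_ hCH
  intro x y hxy
  obtain ⟨x, rfl⟩ := e.surjective x
  obtain ⟨y, rfl⟩ := e.surjective y
  apply Subtype.ext
  show ((e.symm (e y) : A w) : G) = a' * u * (e.symm (e x) : A w) * (a' * u)⁻¹
  rw [e.symm_apply_apply, e.symm_apply_apply]
  rw [he, he] at hxy
  -- `y = n⁻¹ (u x u⁻¹) n` modulo `K`
  have h5 : ((u * x * u⁻¹ : G) : G ⧸ K) ∈ (A w).map (QuotientGroup.mk' K) :=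
    ⟨_, (h1 x).1 x.2, rfl⟩
  have h6 : (n : G ⧸ K)⁻¹ * ((u * x * u⁻¹ : G) : G ⧸ K) * (n : G ⧸ K)⁻¹⁻¹ =
      (g : G ⧸ K) * ((x : G) : G ⧸ K) * (g : G ⧸ K)⁻¹ := by
    rw [hu]
    simp only [QuotientGroup.mk_mul, QuotientGroup.mk_inv]
    group
  have h7 := hcj _ h5 (by rw [h6, ← hxy]; exact ⟨y, y.2, rfl⟩)
  rw [h6, ← hxy] at h7
  have h8 : ((y : G) : G ⧸ K) = ((a' * u * x * (a' * u)⁻¹ : G) : G ⧸ K) := by
    rw [h7]
    show ((a' : G) : G ⧸ K) * _ * ((a' : G) : G ⧸ K)⁻¹ = _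
    simp only [QuotientGroup.mk_mul, QuotientGroup.mk_inv]
    group
  have h9 : a' * u * x * (a' * u)⁻¹ ∈ A w := by
    have : a' * u * x * (a' * u)⁻¹ = a' * (u * x * u⁻¹) * a'⁻¹ := by group
    rw [this]
    exact mul_mem (mul_mem ha' ((h1 x).1 x.2)) (inv_mem ha')
  rw [QuotientGroup.eq] at h8
  have h10 := Kil.inf h hK hw (mul_mem (inv_mem y.2) h9) h8
  exact (inv_mul_eq_one.1 h10)

end quot

/-- **finite graphs, all the classes of the vertex groups are fixed** -/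
theorem gp_pure (hC : ClosedE C) (hF : FbC C) : ∀ (k : ℕ) (G V : Type) [Group G] [Finite V]
    (_ : Nat.card V = k) (Λ : SimpleGraph V) (A : V → Subgroup G) (N : Subgroup G) [N.Normal],
    IsGP Λ A N → C (G ⧸ N) → (∀ v g, g ∈ ClStab N (A v)) →
    (∀ v, ∀ g : G, (∀ x, x ∈ A v ↔ g * x * g⁻¹ ∈ A v) → C ↥(A v ⊔ Subgroup.zpowers g)) → C G := by
  intro k
  induction k with
  | zero =>
    intro G V _ _ hk Λ A N _ h hQ _ _
    have hV : IsEmpty V := by
      rcases Nat.card_eq_zero.1 hk with h1 | h1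
      · exact h1
      · exact absurd ‹Finite V› (not_finite_iff_infinite.2 h1)
    have hN : N = ⊥ := by rw [← h.sup, iSup_of_empty]
    subst hN
    exact C_equiv hC.base (QuotientGroup.quotientBot (G := G)).symm hQ
  | succ k ih =>
    intro G V _ _ hk Λ A N _ h hQ hp hB
    have hne : Nonempty V := by
      by_contra hV
      rw [not_nonempty_iff] at hV
      rw [Nat.card_of_isEmpty] at hk
      omega
    obtain ⟨v⟩ := hne
    have hMn := Mv_normal h (hp v)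
    have hK : Kil A N {v} (Mv Λ A v) := by
      refine ⟨Mv_le h, ?_, ?_⟩
      · intro w hw
        rw [Set.mem_singleton_iff.1 hw]
        exact fun a ha => A_le_Mv h ha
      · intro H _ F hFv
        have h1 : Mv Λ A v ≤ F.ker.map N.subtype := by
          refine iSup_le fun c x hx => ?_
          have hxN : x ∈ N := Mv_le h (le_iSup (Bc Λ A v) c hx)
          rw [mem_Bc] at hx
          have hr := Rr_le h (rp_mem c)
          refine ⟨⟨x, hxN⟩, ?_, rfl⟩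
          have h2 := hFv v rfl ⟨_, h.le v hx⟩ hx
          have h3 : (⟨(rp Λ A v c)⁻¹ * x * rp Λ A v c, h.le v hx⟩ : N) =
            ⟨_, hr⟩⁻¹ * ⟨x, hxN⟩ * ⟨_, hr⟩ := rfl
          rw [h3, map_mul, map_mul, map_inv] at h2
          show F ⟨x, hxN⟩ = 1
          have h4 : F ⟨x, hxN⟩ = F ⟨_, hr⟩ * ((F ⟨_, hr⟩)⁻¹ * F ⟨x, hxN⟩ * F ⟨_, hr⟩) * (F ⟨_, hr⟩)⁻¹ := by
            group
          rw [h4, h2]
          group
        intro x hx
        obtain ⟨y, hy, hyx⟩ := h1 hx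
        have : y = x := Subtype.ext hyx
        rw [← this]
        exact hy
    refine vstep hC hF h (hp v) (hB v) ?_
    have hN' : (N.map (QuotientGroup.mk' (Mv Λ A v))).Normal :=
      Subgroup.Normal.map inferInstance _ (QuotientGroup.mk'_surjective _)
    have hgp := h.quot {v} (Mv Λ A v) hK.mem hK.kill
    refine ih (G ⧸ Mv Λ A v) {w // w ∉ ({v} : Set V)} ?_ _ _ _ hgp
      (C_equiv hC.base (QuotientGroup.quotientQuotientEquivQuotient (Mv Λ A v) N (Mv_le h)) hQ) ?_ ?_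
    · have h1 := Set.ncard_add_ncard_compl ({v} : Set V)
      rw [Set.ncard_singleton] at h1
      have h2 : Nat.card {w // w ∉ ({v} : Set V)} = ({v}ᶜ : Set V).ncard := rfl
      omega
    · rintro ⟨w, hw⟩ g
      obtain ⟨g, rfl⟩ := QuotientGroup.mk_surjective g
      exact quot_cl (hp w g)
    · rintro ⟨w, hw⟩ g hg
      obtain ⟨g, rfl⟩ := QuotientGroup.mk_surjective g
      exact quot_cyc hC h hK hw (hB w) (hp w g) hg

end Pool.Agent.R684.FP
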