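import Mathlib

/-!
# First letters of the elements of a free product
-/

set_option autoImplicit false

namespace Pool.Agent.R684.FP

open Monoid.CoprodI (of)

section hd

variable {ι : Type} {A : ι → Type} [∀ i, Group (A i)]

open Classical in
/-- the first letter of `x` if this letter is in `A i`, and `1` otherwise -/
noncomputable def hd (i : ι) (x : Monoid.CoprodI A) : A i :=
  (Monoid.CoprodI.Word.equivPair i (Monoid.CoprodI.Word.equiv x)).head

theorem hd_mul (i : ι) (a : A i) (x : Monoid.CoprodI A) : hd i (of a * x) = a * hd i x := by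
  classical
  unfold hd
  have h1 : (Monoid.CoprodI.Word.equiv (of a * x)) = of a • (Monoid.CoprodI.Word.equiv x) := by
    show (of a * x) • (Monoid.CoprodI.Word.empty : Monoid.CoprodI.Word A) =
      of a • (x • (Monoid.CoprodI.Word.empty : Monoid.CoprodI.Word A))
    rw [mul_smul]
  rw [h1, Monoid.CoprodI.Word.equivPair_smul_same]

theorem hd_one (i : ι) : hd i (1 : Monoid.CoprodI A) = 1 := by
  classical
  unfold hd
  have h1 : (Monoid.CoprodI.Word.equiv (1 : Monoid.CoprodI A)) = Monoid.CoprodI.Word.empty := by
    show (1 : Monoid.CoprodI A) • Monoid.CoprodI.Word.empty = _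
    rw [one_smul]
  rw [h1, Monoid.CoprodI.Word.equivPair_eq_of_fstIdx_ne]
  intro h
  cases h

theorem hd_of (i : ι) (a : A i) : hd i (of a : Monoid.CoprodI A) = a := by
  have := hd_mul i a 1
  rwa [mul_one, hd_one, mul_one] at this

/-- induction on the number of letters -/
theorem ind_hd0 {P : Monoid.CoprodI A → Prop} (h1 : P 1)
    (h2 : ∀ (k : ι) (m : A k) (x : Monoid.CoprodI A), m ≠ 1 → hd k x = 1 →
      (∀ i, i ≠ k → hd i (of m * x) = 1) → P x → P (of m * x)) (x : Monoid.CoprodI A) : P x := by
  classical
  have key : ∀ w : Monoid.CoprodI.Word A, P w.prod := by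
    intro w
    induction w using Monoid.CoprodI.Word.consRecOn with
    | empty => exact h1
    | cons k m w hw hm ih =>
      have hww : Monoid.CoprodI.Word.equiv w.prod = w := Monoid.CoprodI.Word.equiv.apply_symm_apply w
      have hcc : Monoid.CoprodI.Word.equiv (Monoid.CoprodI.Word.cons m w hw hm).prod =
          Monoid.CoprodI.Word.cons m w hw hm :=
        Monoid.CoprodI.Word.equiv.apply_symm_apply (Monoid.CoprodI.Word.cons m w hw hm)
      rw [Monoid.CoprodI.Word.prod_cons] at hcc ⊢
      refine h2 k m _ hm ?_ ?_ ih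
      · unfold hd
        rw [hww, Monoid.CoprodI.Word.equivPair_eq_of_fstIdx_ne hw]
      · intro i hi
        unfold hd
        rw [hcc, Monoid.CoprodI.Word.equivPair_eq_of_fstIdx_ne]
        rw [Monoid.CoprodI.Word.fstIdx_cons]
        intro h
        exact hi (Option.some.inj h).symm
  have h3 := key (Monoid.CoprodI.Word.equiv x)
  have h4 : (Monoid.CoprodI.Word.equiv x).prod = x := Monoid.CoprodI.Word.equiv.symm_apply_apply x
  rwa [h4] at h3

theorem hd_other {i k : ι} (hik : i ≠ k) {x : Monoid.CoprodI A} (h : hd k x ≠ 1) : hd i x = 1 := by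
  induction x using ind_hd0 with
  | h1 => exact hd_one i
  | h2 m a x ha hx hoth _ =>
    by_cases hkm : k = m
    · subst hkm
      exact hoth i hik
    · exact absurd (hoth k hkm) h

theorem hd_ne {i k : ι} (hik : i ≠ k) {m : A k} {x : Monoid.CoprodI A} (hm : m ≠ 1)
    (hx : hd k x = 1) : hd i (of m * x) = 1 := by
  apply hd_other hik
  rw [hd_mul, hx, mul_one]
  exact hm

/-- induction on the number of letters -/
theorem ind_hd {P : Monoid.CoprodI A → Prop} (h1 : P 1)
    (h2 : ∀ (k : ι) (m : A k) (x : Monoid.CoprodI A), m ≠ 1 → hd k x = 1 → P x → P (of m * x))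
    (x : Monoid.CoprodI A) : P x :=
  ind_hd0 h1 (fun k m x hm hx _ h => h2 k m x hm hx h) x

theorem ex_hd {x : Monoid.CoprodI A} (h : x ≠ 1) : ∃ k, hd k x ≠ 1 := by
  induction x using ind_hd with
  | h1 => exact absurd rfl h
  | h2 k m x hm hx _ =>
    refine ⟨k, ?_⟩
    rw [hd_mul, hx, mul_one]
    exact hm

/-- stripping the first letter -/
theorem strip (i : ι) (x : Monoid.CoprodI A) : ∃ y, x = of (hd i x) * y ∧ hd i y = 1 := by
  refine ⟨(of (hd i x))⁻¹ * x, ?_, ?_⟩
  · rw [mul_inv_cancel_left]
  · rw [← map_inv, hd_mul, inv_mul_cancel]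

/-- multiplication on the right by a letter of another group -/
theorem hd_mul_of {i j : ι} (hij : i ≠ j) (x : Monoid.CoprodI A) (b : A j) :
    hd i (x * of b) = hd i x := by
  have hbase : ∀ (i : ι), i ≠ j → ∀ b : A j, hd i (of b : Monoid.CoprodI A) = 1 := by
    intro i hi b
    by_cases hb : b = 1
    · rw [hb, map_one, hd_one]
    · apply hd_other hi
      rw [hd_of]
      exact hb
  induction x using ind_hd generalizing i with
  | h1 => rw [one_mul, hd_one]; exact hbase i hij b
  | h2 k m x hm hx ih =>
    rw [mul_assoc]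
    by_cases hik : i = k
    · subst hik
      rw [hd_mul, hd_mul, ih hij]
    · rw [hd_ne hik hm hx]
      by_cases hkj : k = j
      · subst hkj
        by_cases hx1 : x = 1
        · rw [hx1, one_mul, ← map_mul]
          exact hbase i hik _
        · obtain ⟨l, hl⟩ := ex_hd hx1
          have hlk : l ≠ k := by
            rintro rfl
            exact hl hx
          have h1 := ih hlk
          have h2 : hd k (x * of b) = 1 := hd_other (fun h => hlk h.symm) (by rw [h1]; exact hl)
          exact hd_ne hik hm h2
      · have h1 := ih hkj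
        exact hd_ne hik hm (by rw [h1, hx])

/-- the product of `x` and `y` if there is no full cancellation in between -/
theorem hd_tr {i j : ι} (hij : i ≠ j) (x y : Monoid.CoprodI A) (h : hd j x⁻¹ ≠ hd j y) :
    hd i (x * y) = hd i x := by
  induction y using ind_hd generalizing i j x with
  | h1 => rw [mul_one]
  | h2 k m y hm hy ih =>
    rw [← mul_assoc]
    by_cases hkj : k = j
    · subst hkj
      rw [hd_mul, hy, mul_one] at h
      have h1 : hd k (x * of m)⁻¹ ≠ hd k y := by
        rw [mul_inv_rev, ← map_inv, hd_mul, hy]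
        intro h2
        apply h
        rw [inv_mul_eq_one] at h2
        exact h2.symm
      rw [ih hij _ h1, hd_mul_of hij]
    · have h0 : hd j (of m * y) = 1 := hd_ne (fun h => hkj h.symm) hm hy
      rw [h0] at h
      -- the general statement for indices other than `k`
      have key : ∀ z : Monoid.CoprodI A, hd j z⁻¹ ≠ 1 → ∀ l, l ≠ k → hd l (z * of m * y) = hd l z := by
        intro z hz l hl
        have h1 : hd k (z * of m)⁻¹ ≠ hd k y := by
          rw [mul_inv_rev, ← map_inv, hd_mul, hy, hd_other (fun h => hkj h) hz, mul_one]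
          intro h2
          exact hm (inv_eq_one.1 h2)
        rw [ih hl _ h1, hd_mul_of hl]
      by_cases hik : i = k
      · subst hik
        obtain ⟨z, hz, hz1⟩ := strip i x
        have h2 : hd j z⁻¹ ≠ 1 := by
          have h3 : x⁻¹ = z⁻¹ * of (hd i x)⁻¹ := by
            conv_lhs => rw [hz]
            rw [mul_inv_rev, map_inv]
          rw [h3, hd_mul_of (fun h => hkj h.symm)] at h
          exact h
        have h3 : z ≠ 1 := by
          rintro rfl
          rw [inv_one, hd_one] at h2
          exact h2 rfl
        obtain ⟨l, hl⟩ := ex_hd h3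
        have hli : l ≠ i := by
          rintro rfl
          exact hl hz1
        have h4 := key z h2 l hli
        have h5 : hd i (z * of m * y) = 1 :=
          hd_other (fun h => hli h.symm) (by rw [h4]; exact hl)
        have h6 : x * of m * y = of (hd i x) * (z * of m * y) := by
          conv_lhs => rw [hz]
          simp only [mul_assoc]
        rw [h6, hd_mul, h5, mul_one]
      · exact key x h i hik

/-- the factors are malnormal -/
theorem malnormal {j : ι} {u : Monoid.CoprodI A} {y z : A j} (hy : y ≠ 1)
    (h : u * of y * u⁻¹ = of z) : ∃ a : A j, u = of a := by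
  obtain ⟨v, hv, hv1⟩ := strip j u
  by_cases h1 : v = 1
  · exact ⟨hd j u, by rw [h1, mul_one] at hv; exact hv⟩
  · exfalso
    obtain ⟨l, hl⟩ := ex_hd h1
    have hlj : l ≠ j := by
      rintro rfl
      exact hl hv1
    obtain ⟨c, hc⟩ : ∃ c, c = hd j u := ⟨_, rfl⟩
    rw [← hc] at hv
    have h2 : v * of y = of (c⁻¹ * z * c) * v := by
      have h3 : v = of c⁻¹ * u := by rw [hv, map_inv, inv_mul_cancel_left]
      have h4 : u * of y = of z * u := by rw [← h, inv_mul_cancel_right]
      rw [map_mul, map_mul]
      conv_lhs => rw [h3, mul_assoc, h4]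
      conv_rhs => rw [mul_assoc, ← hv]
      rw [mul_assoc]
    have h3 : hd l (v * of y) ≠ 1 := by
      rw [hd_mul_of hlj]
      exact hl
    have h4 : hd j (v * of y) = 1 := hd_other (fun h => hlj h.symm) h3
    rw [h2, hd_mul, hv1, mul_one] at h4
    rw [h4, map_one, one_mul] at h2
    have h5 : (of y : Monoid.CoprodI A) = 1 := by
      rwa [mul_eq_left] at h2
    apply hy
    apply Monoid.CoprodI.of_injective j
    rw [h5, map_one]

end hd

end Pool.Agent.R684.FP
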