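import Pool.Agent.Y417.FJ.Am

/-!
# Kernels of homomorphisms from free products which are injective on the factors

They are free groups.
-/

set_option autoImplicit false

namespace Pool.Agent.R684.FP

open Pool.Agent.Y110.FJ
open Pool.Agent.Y417.FJ

/-- the set `I × Q` with the action of `Q` on the second coordinate -/
structure IQ (I Q : Type) where
  i : I
  q : Q

instance (I Q : Type) [Group Q] : MulAction Q (IQ I Q) where
  smul p x := ⟨x.i, p * x.q⟩
  one_smul x := by
    show (⟨x.i, 1 * x.q⟩ : IQ I Q) = x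
    rw [one_mul]
  mul_smul p q x := by
    show (⟨x.i, p * q * x.q⟩ : IQ I Q) = ⟨x.i, p * (q * x.q)⟩
    rw [mul_assoc]

theorem smul_i {I Q : Type} [Group Q] (p : Q) (x : IQ I Q) : (p • x).i = x.i := rfl
theorem smul_q {I Q : Type} [Group Q] (p : Q) (x : IQ I Q) : (p • x).q = p * x.q := rfl

section ker

variable {I Q : Type} [Group Q] {A : I → Type} [∀ i, Group (A i)] (f : Monoid.CoprodI A →* Q)

/-- the homomorphism to the semidirect product -/
noncomputable def Ph : Monoid.CoprodI A →* FreeGroup (IQ I Q) ⋊[permAut (IQ I Q) Q] Q :=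
  Monoid.CoprodI.lift fun i =>
    (MulAut.conj (SemidirectProduct.inl (FreeGroup.of ⟨i, 1⟩) :
      FreeGroup (IQ I Q) ⋊[permAut (IQ I Q) Q] Q)).toMonoidHom.comp
      (SemidirectProduct.inr.comp (f.comp Monoid.CoprodI.of))

theorem Ph_of (i : I) (a : A i) : Ph f (Monoid.CoprodI.of a) =
    SemidirectProduct.inl (FreeGroup.of ⟨i, 1⟩) * SemidirectProduct.inr (f (Monoid.CoprodI.of a)) *
      (SemidirectProduct.inl (FreeGroup.of ⟨i, 1⟩))⁻¹ := by
  rw [Ph, Monoid.CoprodI.lift_of]
  rfl

theorem Ph_right (x : Monoid.CoprodI A) : (Ph f x).right = f x := by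
  have : (SemidirectProduct.rightHom.comp (Ph f)) = f := by
    apply Monoid.CoprodI.ext_hom
    intro i
    ext a
    show (Ph f (Monoid.CoprodI.of a)).right = _
    rw [Ph_of]
    simp
  exact DFunLike.congr_fun this x

theorem Ph_left_of (i : I) (a : A i) : (Ph f (Monoid.CoprodI.of a)).left =
    FreeGroup.mk [((⟨i, 1⟩ : IQ I Q), true), ((⟨i, f (Monoid.CoprodI.of a)⟩ : IQ I Q), false)] := by
  rw [Ph_of]
  have h1 : (permAut (IQ I Q) Q (f (Monoid.CoprodI.of a))) (FreeGroup.of (⟨i, 1⟩ : IQ I Q))⁻¹ =
      FreeGroup.mk [((⟨i, f (Monoid.CoprodI.of a)⟩ : IQ I Q), false)] := by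
    have h2 : (FreeGroup.of (⟨i, 1⟩ : IQ I Q))⁻¹ = FreeGroup.mk [((⟨i, 1⟩ : IQ I Q), false)] := rfl
    rw [h2, permAut_mk]
    have h3 : f (Monoid.CoprodI.of a) • (⟨i, 1⟩ : IQ I Q) = ⟨i, f (Monoid.CoprodI.of a)⟩ := by
      show (⟨i, f (Monoid.CoprodI.of a) * 1⟩ : IQ I Q) = _
      rw [mul_one]
    simp [h3]
  rw [← map_inv, SemidirectProduct.mul_left, SemidirectProduct.mul_left]
  simp only [SemidirectProduct.left_inl, SemidirectProduct.left_inr, SemidirectProduct.mul_right,
    SemidirectProduct.right_inl, SemidirectProduct.right_inr, map_one, one_mul, mul_one]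
  rw [h1]
  rfl

theorem Ph_left_mul (x y : Monoid.CoprodI A) : (Ph f (x * y)).left =
    (Ph f x).left * permAut _ Q (f x) (Ph f y).left := by
  rw [map_mul, SemidirectProduct.mul_left, Ph_right]

/-- reduced words have reduced images -/
theorem main (hf : ∀ i, Function.Injective (f.comp (Monoid.CoprodI.of (i := i))))
    (l : List (Σ i, A i)) (h1 : ∀ x ∈ l, x.2 ≠ 1) (h2 : l.IsChain (fun x y => x.1 ≠ y.1)) :
    ∃ L : List (IQ I Q × Bool), FreeGroup.IsReduced L ∧
      (Ph f (l.map (fun x => Monoid.CoprodI.of x.2)).prod).left = FreeGroup.mk L ∧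
      (∀ x ∈ l.head?, ∃ L', L = ((⟨x.1, 1⟩ : IQ I Q), true) :: L') ∧ (l = [] → L = []) := by
  induction l with
  | nil =>
    refine ⟨[], FreeGroup.IsReduced.nil, ?_, by simp, fun _ => rfl⟩
    simp
    rfl
  | cons a l ih =>
    obtain ⟨L, hL, hLm, hh, hn⟩ := ih (fun x hx => h1 x (List.mem_cons_of_mem a hx))
      (List.isChain_cons.1 h2).2
    obtain ⟨q, hq⟩ : ∃ q, q = f (Monoid.CoprodI.of a.2) := ⟨_, rfl⟩
    refine ⟨((⟨a.1, 1⟩ : IQ I Q), true) :: ((⟨a.1, q⟩ : IQ I Q), false) ::
      L.map (fun x => (q • x.1, x.2)), ?_, ?_, ?_, ?_⟩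
    · rw [FreeGroup.isReduced_cons_cons]
      refine ⟨?_, ?_⟩
      · intro h
        exfalso
        have h3 : (1 : Q) = q := congrArg IQ.q h
        apply h1 a (List.mem_cons_self)
        apply hf a.1
        rw [map_one]
        show f (Monoid.CoprodI.of a.2) = 1
        rw [← hq, ← h3]
      · cases l with
        | nil =>
          rw [hn rfl]
          exact FreeGroup.IsReduced.singleton
        | cons b l =>
          obtain ⟨L', hL'⟩ := hh b (by simp)
          subst hL'
          rw [List.map_cons, FreeGroup.isReduced_cons_cons]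
          refine ⟨?_, ?_⟩
          · intro h
            exfalso
            have h3 : a.1 = b.1 := congrArg IQ.i h
            exact (List.isChain_cons_cons.1 h2).1 h3
          · have := reduced_map q _ hL
            rwa [List.map_cons] at this
    · rw [List.map_cons, List.prod_cons, Ph_left_mul, hLm, permAut_mk, Ph_left_of,
        FreeGroup.mul_mk, hq]
      rfl
    · intro x hx
      simp at hx
      subst hx
      exact ⟨_, rfl⟩
    · intro h
      simp at h

theorem Ph_injective (hf : ∀ i, Function.Injective (f.comp (Monoid.CoprodI.of (i := i)))) :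
    Function.Injective (Ph f) := by
  classical
  rw [injective_iff_map_eq_one]
  intro g hg
  obtain ⟨w, rfl⟩ : ∃ w : Monoid.CoprodI.Word A, w.prod = g :=
    ⟨_, Monoid.CoprodI.Word.equiv.symm_apply_apply g⟩
  obtain ⟨L, hL, hLm, hh, hn⟩ := main f hf w.toList w.ne_one w.chain_ne
  have h1 : FreeGroup.mk L = 1 := by
    rw [← hLm]
    have h2 : (w.toList.map (fun x => Monoid.CoprodI.of x.2)).prod = w.prod := rfl
    rw [h2, hg]
    rfl
  have h2 : L = [] := by
    have h5 : (FreeGroup.mk L).toWord = L := by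
      rw [FreeGroup.toWord_mk]
      exact hL.reduce_eq
    rw [← h5, h1]
    simp
  have h3 : w.toList = [] := by
    cases h : w.toList with
    | nil => rfl
    | cons a l =>
      obtain ⟨L', hL'⟩ := hh a (by rw [h]; rfl)
      rw [h2] at hL'
      simp at hL'
  show (w.toList.map (fun x => Monoid.CoprodI.of x.2)).prod = 1
  rw [h3]
  rfl

/-- **the kernel is free** -/
theorem ker_free (hf : ∀ i, Function.Injective (f.comp (Monoid.CoprodI.of (i := i)))) :
    IsFreeGroup f.ker := by
  let g : f.ker →* FreeGroup (IQ I Q) :=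
    { toFun := fun x => (Ph f x).left
      map_one' := by
        show (Ph f 1).left = 1
        rw [map_one]
        rfl
      map_mul' := fun x y => by
        show (Ph f (x * y)).left = _
        rw [Ph_left_mul, show f x = 1 from x.2, map_one]
        rfl }
  have hg : Function.Injective g := by
    rw [injective_iff_map_eq_one]
    intro x hx
    apply Subtype.ext
    apply Ph_injective f hf
    show Ph f x = Ph f 1
    rw [map_one]
    apply SemidirectProduct.ext
    · exact hx
    · rw [Ph_right]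
      exact x.2
  exact IsFreeGroup.ofMulEquiv (MonoidHom.ofInjective hg).symm

end ker

end Pool.Agent.R684.FP
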