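import Pool.Agent.R684.FP.Free
import Pool.Agent.R941.FJ.Rdp

/-!
# Extensions by regular products of subgroups

`M` is generated by its subgroups `B i`, and no `B i` meets the normal closure in `M` of the others.
-/

set_option autoImplicit false

namespace Pool.Agent.R684.FP

open Pool.Agent.Y110.FJ
open Pool.Agent.R941.FJ (C_equiv C_le C_cyc mem_sup_normal IsRdp)
open Pool.Agent.Y462.SS (Closed)

variable {C : ∀ (G : Type) [Group G], Prop}

section reg

variable {G I : Type} [Group G]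

/-- the normal closure in `M` of the subgroups `B j`, `j ≠ i` -/
def NC (M : Subgroup G) (B : I → Subgroup G) (i : I) : Subgroup G :=
  Subgroup.closure {x | ∃ j, j ≠ i ∧ ∃ m ∈ M, ∃ b ∈ B j, x = m * b * m⁻¹}

variable {M : Subgroup G} {B : I → Subgroup G}

theorem mem_NC {i j : I} (h : j ≠ i) {m b : G} (hm : m ∈ M) (hb : b ∈ B j) :
    m * b * m⁻¹ ∈ NC M B i := Subgroup.subset_closure ⟨j, h, m, hm, b, hb, rfl⟩

theorem mem_NC' {i j : I} (h : j ≠ i) {b : G} (hb : b ∈ B j) : b ∈ NC M B i := by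
  have := mem_NC (M := M) h (one_mem M) hb
  simpa using this

theorem NC_le (hB : ∀ i, B i ≤ M) (i : I) : NC M B i ≤ M := by
  rw [NC, Subgroup.closure_le]
  rintro _ ⟨j, _, m, hm, b, hb, rfl⟩
  exact M.mul_mem (M.mul_mem hm (hB j hb)) (M.inv_mem hm)

theorem NC_conj (i : I) {m x : G} (hm : m ∈ M) (hx : x ∈ NC M B i) : m * x * m⁻¹ ∈ NC M B i := by
  have h1 : NC M B i ≤ (NC M B i).comap (MulAut.conj m).toMonoidHom := by
    conv_lhs => rw [NC]
    rw [Subgroup.closure_le]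
    rintro _ ⟨j, hj, n, hn, b, hb, rfl⟩
    show m * (n * b * n⁻¹) * m⁻¹ ∈ NC M B i
    have := mem_NC hj (M.mul_mem hm hn) hb
    have h2 : m * (n * b * n⁻¹) * m⁻¹ = m * n * b * (m * n)⁻¹ := by group
    rwa [h2]
  exact h1 hx

/-- decomposition -/
theorem dec (hsup : ⨆ i, B i = M) (i : I) {x : G} (hx : x ∈ M) :
    ∃ b ∈ B i, ∃ l ∈ NC M B i, x = b * l := by
  have hB : ∀ i, B i ≤ M := fun i => hsup ▸ le_iSup B i
  have h1 : M ≤
      { carrier := {x | ∃ b ∈ B i, ∃ l ∈ NC M B i, x = b * l}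
        one_mem' := ⟨1, one_mem _, 1, one_mem _, (mul_one 1).symm⟩
        mul_mem' := by
          rintro _ _ ⟨b, hb, l, hl, rfl⟩ ⟨b', hb', l', hl', rfl⟩
          refine ⟨b * b', mul_mem hb hb', b'⁻¹ * l * b' * l', mul_mem ?_ hl', by group⟩
          have := NC_conj i (M.inv_mem (hB i hb')) hl
          rwa [inv_inv] at this
        inv_mem' := by
          rintro _ ⟨b, hb, l, hl, rfl⟩
          exact ⟨b⁻¹, inv_mem hb, b * l⁻¹ * b⁻¹, NC_conj i (hB i hb) (inv_mem hl), by group⟩ :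
        Subgroup G } := by
    conv_lhs => rw [← hsup]
    refine iSup_le fun j b hb => ?_
    by_cases hj : j = i
    · subst hj
      exact ⟨b, hb, 1, one_mem _, (mul_one b).symm⟩
    · exact ⟨1, one_mem _, b, mem_NC' hj hb, (one_mul b).symm⟩
  exact h1 hx

/-- `g` maps the class of `B i` to the class of `B j` -/
def Rel (M : Subgroup G) (B : I → Subgroup G) (g : G) (i j : I) : Prop :=
  ∃ m ∈ M, ∀ x, x ∈ B i ↔ m * (g * x * g⁻¹) * m⁻¹ ∈ B j

theorem Rel_unique (hne : ∀ i, B i ≠ ⊥) (hreg : ∀ i, B i ⊓ NC M B i = ⊥) {g : G} {i j k : I}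
    (h1 : Rel M B g i j) (h2 : Rel M B g i k) : j = k := by
  by_contra hjk
  obtain ⟨m, hm, h1⟩ := h1
  obtain ⟨n, hn, h2⟩ := h2
  obtain ⟨⟨x, hx⟩, hx0⟩ := Subgroup.ne_bot_iff_exists_ne_one.1 (hne i)
  have hx1 : x ≠ 1 := fun h => hx0 (Subtype.ext h)
  have h3 := (h1 _).1 hx
  have h4 := (h2 _).1 hx
  have h5 := mem_NC (i := k) hjk (M.mul_mem hn (M.inv_mem hm)) h3
  have h6 : n * m⁻¹ * (m * (g * ↑x * g⁻¹) * m⁻¹) * (n * m⁻¹)⁻¹ = n * (g * x * g⁻¹) * n⁻¹ := by
    group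
  rw [h6] at h5
  have h7 : n * (g * (x : G) * g⁻¹) * n⁻¹ ∈ B k ⊓ NC M B k := ⟨h4, h5⟩
  rw [hreg k, Subgroup.mem_bot] at h7
  apply hx1
  have h8 : (x : G) = g⁻¹ * n⁻¹ * (n * (g * (x : G) * g⁻¹) * n⁻¹) * n * g := by group
  rw [h8, h7]
  group

theorem Rel_one {m : G} (hm : m ∈ M) (i : I) : Rel M B m i i := by
  refine ⟨m⁻¹, M.inv_mem hm, fun x => ?_⟩
  have : m⁻¹ * (m * x * m⁻¹) * m⁻¹⁻¹ = x := by group
  rw [this]

theorem Rel_mul [hM : M.Normal] {g h : G} {i j k : I} (h1 : Rel M B h i j) (h2 : Rel M B g j k) :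
    Rel M B (g * h) i k := by
  obtain ⟨m, hm, h1⟩ := h1
  obtain ⟨n, hn, h2⟩ := h2
  refine ⟨n * (g * m * g⁻¹), M.mul_mem hn (hM.conj_mem m hm g), fun x => ?_⟩
  rw [h1, h2]
  have : n * (g * (m * (h * x * h⁻¹) * m⁻¹) * g⁻¹) * n⁻¹ =
      n * (g * m * g⁻¹) * (g * h * x * (g * h)⁻¹) * (n * (g * m * g⁻¹))⁻¹ := by group
  rw [this]

/-- the data -/
structure Dat (M : Subgroup G) (B : I → Subgroup G) : Prop where
  nor : M.Normal
  ne : ∀ i, B i ≠ ⊥
  sup : ⨆ i, B i = M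
  reg : ∀ i, B i ⊓ NC M B i = ⊥
  perm : ∀ (g : G) (i : I), ∃ j, Rel M B g i j

theorem Dat.le (d : Dat M B) (i : I) : B i ≤ M := d.sup ▸ le_iSup B i

/-- the permutation -/
noncomputable def sg (d : Dat M B) (g : G) (i : I) : I := Classical.choose (d.perm g i)

theorem sg_spec (d : Dat M B) (g : G) (i : I) : Rel M B g i (sg d g i) :=
  Classical.choose_spec (d.perm g i)

theorem sg_eq (d : Dat M B) {g : G} {i j : I} (h : Rel M B g i j) : sg d g i = j :=
  Rel_unique d.ne d.reg (sg_spec d g i) h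

theorem sg_M (d : Dat M B) {m : G} (hm : m ∈ M) (i : I) : sg d m i = i := sg_eq d (Rel_one hm i)

theorem sg_mul (d : Dat M B) (g h : G) (i : I) : sg d (g * h) i = sg d g (sg d h i) :=
  haveI := d.nor
  sg_eq d (Rel_mul (sg_spec d h i) (sg_spec d g _))

theorem sg_inj (d : Dat M B) (g : G) {i j : I} (h : sg d g i = sg d g j) : i = j := by
  have h1 := congrArg (sg d g⁻¹) h
  rw [← sg_mul, ← sg_mul, inv_mul_cancel, sg_M d (one_mem M), sg_M d (one_mem M)] at h1
  exact h1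

/-- conjugation permutes the normal closures -/
theorem NC_sg (d : Dat M B) (g : G) (i : I) {x : G} (hx : x ∈ NC M B i) :
    g * x * g⁻¹ ∈ NC M B (sg d g i) := by
  have hM := d.nor
  have h1 : NC M B i ≤ (NC M B (sg d g i)).comap (MulAut.conj g).toMonoidHom := by
    conv_lhs => rw [NC]
    rw [Subgroup.closure_le]
    rintro _ ⟨j, hj, n, hn, b, hb, rfl⟩
    show g * (n * b * n⁻¹) * g⁻¹ ∈ NC M B (sg d g i)
    obtain ⟨m, hm, h2⟩ := sg_spec d g j
    have h3 := (h2 b).1 hb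
    have h4 := mem_NC (i := sg d g i) (j := sg d g j) (fun h => hj (sg_inj d g h))
      (M.mul_mem (hM.conj_mem n hn g) (M.inv_mem hm)) h3
    have h5 : g * n * g⁻¹ * m⁻¹ * (m * (g * b * g⁻¹) * m⁻¹) * (g * n * g⁻¹ * m⁻¹)⁻¹ =
      g * (n * b * n⁻¹) * g⁻¹ := by group
    rwa [h5] at h4
  exact h1 hx

/-- the cartesian subgroup -/
def Ct (M : Subgroup G) (B : I → Subgroup G) : Subgroup G := M ⊓ ⨅ i, NC M B i

theorem Ct_le : Ct M B ≤ M := inf_le_left

theorem Ct_le' (i : I) : Ct M B ≤ NC M B i := inf_le_right.trans (iInf_le _ i)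

theorem mem_Ct {x : G} : x ∈ Ct M B ↔ x ∈ M ∧ ∀ i, x ∈ NC M B i := by
  rw [Ct, Subgroup.mem_inf, Subgroup.mem_iInf]

theorem Ct_normal (d : Dat M B) : (Ct M B).Normal := by
  refine ⟨fun x hx g => ?_⟩
  rw [mem_Ct] at hx ⊢
  refine ⟨d.nor.conj_mem x hx.1 g, fun i => ?_⟩
  have h1 := NC_sg d g (sg d g⁻¹ i) (hx.2 _)
  rwa [← sg_mul, mul_inv_cancel, sg_M d (one_mem M)] at h1

/-- the action of the quotient on the set of indices -/
@[instance_reducible] noncomputable def act (d : Dat M B) [(Ct M B).Normal] : MulAction (G ⧸ Ct M B) I :=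
  { smul := fun q i => sg d (Quotient.out q) i
    one_smul := fun i => by
      show sg d (Quotient.out (1 : G ⧸ Ct M B)) i = i
      refine sg_M d ?_ i
      have h1 : ((Quotient.out (1 : G ⧸ Ct M B) : G) : G ⧸ Ct M B) = 1 := QuotientGroup.out_eq' _
      exact Ct_le ((QuotientGroup.eq_one_iff _).1 h1)
    mul_smul := fun p q i => by
      show sg d (Quotient.out (p * q)) i = sg d (Quotient.out p) (sg d (Quotient.out q) i)
      obtain ⟨a, ha⟩ : ∃ a, a = Quotient.out p := ⟨_, rfl⟩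
      obtain ⟨b, hb⟩ : ∃ b, b = Quotient.out q := ⟨_, rfl⟩
      obtain ⟨c, hc⟩ : ∃ c, c = Quotient.out (p * q) := ⟨_, rfl⟩
      rw [← ha, ← hb, ← hc]
      have h1 : ((b⁻¹ * a⁻¹ * c : G) : G ⧸ Ct M B) = 1 := by
        rw [QuotientGroup.mk_mul, QuotientGroup.mk_mul, QuotientGroup.mk_inv, QuotientGroup.mk_inv,
          ha, hb, hc]
        rw [QuotientGroup.out_eq', QuotientGroup.out_eq', QuotientGroup.out_eq']
        group
      have h2 : c = a * b * (b⁻¹ * a⁻¹ * c) := by group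
      rw [h2, sg_mul, sg_mul, sg_M d (Ct_le ((QuotientGroup.eq_one_iff _).1 h1))] }

theorem act_mk (d : Dat M B) [(Ct M B).Normal] (g : G) (i : I) :
    (act d).smul (g : G ⧸ Ct M B) i = sg d g i := by
  show sg d (Quotient.out (g : G ⧸ Ct M B)) i = sg d g i
  obtain ⟨a, ha⟩ : ∃ a, a = Quotient.out (g : G ⧸ Ct M B) := ⟨_, rfl⟩
  rw [← ha]
  have h1 : ((g⁻¹ * a : G) : G ⧸ Ct M B) = 1 := by
    rw [QuotientGroup.mk_mul, QuotientGroup.mk_inv, ha, QuotientGroup.out_eq']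
    group
  have h2 : a = g * (g⁻¹ * a) := by group
  rw [h2, sg_mul, sg_M d (Ct_le ((QuotientGroup.eq_one_iff _).1 h1))]

/-- the factors and the normal closures of the others commute modulo the cartesian subgroup -/
theorem comm_mem (d : Dat M B) {i : I} {b l : G} (hb : b ∈ B i) (hl : l ∈ NC M B i) :
    l * b * l⁻¹ * b⁻¹ ∈ Ct M B := by
  have hbM := d.le i hb
  have hlM := NC_le d.le i hl
  rw [mem_Ct]
  refine ⟨M.mul_mem (M.mul_mem (M.mul_mem hlM hbM) (M.inv_mem hlM)) (M.inv_mem hbM), fun k => ?_⟩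
  by_cases hk : i = k
  · subst hk
    have h1 := (NC M B i).mul_mem hl (NC_conj i hbM ((NC M B i).inv_mem hl))
    have h2 : l * (b * l⁻¹ * b⁻¹) = l * b * l⁻¹ * b⁻¹ := by group
    rwa [h2] at h1
  · have h0 : b ∈ NC M B k := mem_NC' hk hb
    exact (NC M B k).mul_mem (NC_conj k hlM h0) ((NC M B k).inv_mem h0)

end reg

/-- **extensions by regular products** -/
theorem regular (hC : ClosedE C) {G I : Type} [Group G] {M : Subgroup G} {B : I → Subgroup G}
    [M.Normal] (d : Dat M B) (hK : ∀ g : G, C ↥(Ct M B ⊔ Subgroup.zpowers g))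
    (hB : ∀ (i : I) (g : G), (∀ x, x ∈ B i ↔ g * x * g⁻¹ ∈ B i) → C ↥(B i ⊔ Subgroup.zpowers g))
    (hQ : C (G ⧸ M)) : C G := by
  have hn := Ct_normal d
  let _ := act d
  have hact : ∀ (g : G) (i : I), (g : G ⧸ Ct M B) • i = sg d g i := fun g i => act_mk d g i
  obtain ⟨π, hπ⟩ : ∃ π : G →* G ⧸ Ct M B, π = QuotientGroup.mk' (Ct M B) := ⟨_, rfl⟩
  have hπe : ∀ x y : G, π x = π y ↔ x⁻¹ * y ∈ Ct M B := by
    intro x y
    rw [hπ]
    exact QuotientGroup.eq
  have hπ1 : ∀ x : G, π x = 1 ↔ x ∈ Ct M B := by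
    intro x
    rw [hπ]
    exact QuotientGroup.eq_one_iff x
  have hπc : ∀ {i : I} {b l : G}, b ∈ B i → l ∈ NC M B i → π (l * b * l⁻¹) = π b := by
    intro i b l hb hl
    have h1 := (hπ1 _).2 (comm_mem d hb hl)
    rw [map_mul, map_inv π b, mul_inv_eq_one] at h1
    exact h1
  have hπs : Function.Surjective π := by rw [hπ]; exact QuotientGroup.mk'_surjective _
  have hMn : (M.map π).Normal := Subgroup.Normal.map inferInstance π hπs
  have hinj : ∀ (i : I) (b : G), b ∈ B i → π b = 1 → b = 1 := by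
    intro i b hb h1
    have h2 : b ∈ B i ⊓ NC M B i := ⟨hb, Ct_le' i ((hπ1 b).1 h1)⟩
    rwa [d.reg i, Subgroup.mem_bot] at h2
  -- conjugates
  have hconj : ∀ (g : G) (i : I), ∃ c : G, (∀ x, x ∈ B i ↔ c * x * c⁻¹ ∈ B (sg d g i)) ∧
      ∀ x, x ∈ B i → π (g * x * g⁻¹) = π (c * x * c⁻¹) := by
    intro g i
    obtain ⟨m, hm, h1⟩ := sg_spec d g i
    obtain ⟨b, hb, l, hl, hbl⟩ := dec d.sup (sg d g i) (M.inv_mem hm)
    refine ⟨b * m * g, fun x => ?_, fun x hx => ?_⟩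
    · rw [h1]
      have h2 : b * m * g * x * (b * m * g)⁻¹ = b * (m * (g * x * g⁻¹) * m⁻¹) * b⁻¹ := by group
      rw [h2]
      constructor
      · intro h
        exact (B _).mul_mem ((B _).mul_mem hb h) ((B _).inv_mem hb)
      · intro h
        have h3 := (B _).mul_mem ((B _).mul_mem ((B _).inv_mem hb) h) hb
        have h4 : ∀ z : G, b⁻¹ * (b * z * b⁻¹) * b = z := fun z => by group
        rwa [h4] at h3
    · have h3 := (h1 x).1 hx
      obtain ⟨y, hy⟩ : ∃ y, y = m * (g * x * g⁻¹) * m⁻¹ := ⟨_, rfl⟩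
      rw [← hy] at h3
      have h4 : g * x * g⁻¹ = b * (l * y * l⁻¹) * b⁻¹ := by
        have h5 : g * x * g⁻¹ = m⁻¹ * y * m⁻¹⁻¹ := by rw [hy]; group
        rw [h5, hbl]
        group
      have h5 : b * m * g * x * (b * m * g)⁻¹ = b * y * b⁻¹ := by rw [hy]; group
      rw [h5, h4, map_mul, map_mul π b, hπc h3 hl, ← map_mul, ← map_mul]
  refine Pool.Agent.Y529.FJ.t_ext C hC G (Ct M B) (C_le hC.base le_sup_left (hK 1)) ?_
    fun g _ => hK g
  refine Pool.Agent.R941.FJ.rdp (N := M.map π) (K := fun i => (B i).map π) hC ?_ ?_ ?_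
  · -- restricted direct product
    refine ⟨?_, ?_, ?_, ?_⟩
    · rw [← Subgroup.map_iSup, d.sup]
    · rintro i j hij _ ⟨x, hx, rfl⟩ _ ⟨y, hy, rfl⟩
      have h1 := hπc hx (mem_NC' (M := M) (fun h => hij h.symm) hy)
      rw [map_mul, map_mul, map_inv, mul_inv_eq_iff_eq_mul] at h1
      exact h1.symm
    · intro i
      rw [eq_bot_iff]
      rintro z ⟨hz1, hz2⟩
      obtain ⟨b, hb, rfl⟩ := hz1
      have h1 : (⨆ j, ⨆ _ : j ≠ i, (B j).map π) ≤ (NC M B i).map π := by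
        refine iSup₂_le fun j hj => Subgroup.map_mono ?_
        intro x hx
        exact mem_NC' hj hx
      obtain ⟨l, hl, hlb⟩ := h1 hz2
      have h2 := Ct_le' i ((hπe l b).1 hlb)
      have h3 : b ∈ NC M B i := by
        have := (NC M B i).mul_mem hl h2
        rwa [mul_inv_cancel_left] at this
      have h4 : b ∈ B i ⊓ NC M B i := ⟨hb, h3⟩
      rw [d.reg i, Subgroup.mem_bot] at h4
      rw [Subgroup.mem_bot, h4, map_one]
    · intro g i x hx
      obtain ⟨a, rfl⟩ := hπs g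
      obtain ⟨b, hb, rfl⟩ := hx
      obtain ⟨c, hc, hc'⟩ := hconj a i
      have h1 : π a • i = sg d a i := by rw [hπ]; exact hact a i
      rw [h1, ← map_mul, ← map_inv, ← map_mul, hc' b hb]
      exact ⟨_, (hc b).1 hb, rfl⟩
  · -- cyclic extensions of the factors
    intro i g hgi
    obtain ⟨a, rfl⟩ := hπs g
    have h1 : π a • i = sg d a i := by rw [hπ]; exact hact a i
    rw [h1] at hgi
    obtain ⟨c, hc, hc'⟩ := hconj a i
    rw [hgi] at hc
    -- the isomorphism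
    let e0 : B i →* (B i).map π := (π.subgroupMap (B i))
    have he0 : Function.Bijective e0 := by
      refine ⟨?_, MonoidHom.subgroupMap_surjective _ _⟩
      rw [injective_iff_map_eq_one]
      intro x hx
      exact Subtype.ext (hinj i x x.2 (congrArg Subtype.val hx))
    let e : B i ≃* (B i).map π := MulEquiv.ofBijective e0 he0
    have he : ∀ x : B i, ((e x : (B i).map π) : G ⧸ Ct M B) = π x := fun x => rfl
    have hcP : c ∈ B i ⊔ Subgroup.zpowers c := Subgroup.mem_sup_right (Subgroup.mem_zpowers c)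
    have hBle : B i ≤ B i ⊔ Subgroup.zpowers c := le_sup_left
    refine cyc_real hC ((B i).map π) (π a) ?_
      ((Subgroup.inclusion hBle).comp e.symm.toMonoidHom) ?_ ⟨c, hcP⟩ ?_ (hB i c hc)
    · -- normalization
      intro x
      have key : ∀ x, x ∈ (B i).map π → π a * x * (π a)⁻¹ ∈ (B i).map π := by
        rintro _ ⟨b, hb, rfl⟩
        rw [← map_mul, ← map_inv, ← map_mul, hc' b hb]
        exact ⟨_, (hc b).1 hb, rfl⟩
      refine ⟨key x, fun hx => ?_⟩
      obtain ⟨b, hb, hbx⟩ := hx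
      have hb' : c * (c⁻¹ * b * c) * c⁻¹ ∈ B i := by
        have : c * (c⁻¹ * b * c) * c⁻¹ = b := by group
        rw [this]; exact hb
      have h2 := (hc _).2 hb'
      have h3 := hc' _ h2
      have h4 : c * (c⁻¹ * b * c) * c⁻¹ = b := by group
      rw [h4, hbx, map_mul, map_mul, map_inv, mul_left_inj, mul_right_inj] at h3
      rw [← h3]
      exact ⟨_, h2, rfl⟩
    · exact (Subgroup.inclusion_injective hBle).comp e.symm.injective
    · intro x y hxy
      obtain ⟨b, rfl⟩ := e.surjective x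
      have h2 : y = e ⟨c * b * c⁻¹, (hc b).1 b.2⟩ := by
        apply Subtype.ext
        rw [hxy, he, he, ← map_mul, ← map_inv, ← map_mul, hc' b b.2]
      rw [h2]
      apply Subtype.ext
      show ((e.symm (e ⟨c * b * c⁻¹, (hc b).1 b.2⟩) : B i) : G) = c * ((e.symm (e b) : B i) : G) * c⁻¹
      rw [e.symm_apply_apply, e.symm_apply_apply]
  · -- the quotient
    have h1 : (M.map π) = M.map (QuotientGroup.mk' (Ct M B)) := by rw [hπ]
    have hle : Ct M B ≤ M := Ct_le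
    subst hπ
    exact C_equiv hC.base (QuotientGroup.quotientQuotientEquivQuotient (Ct M B) M hle) hQ

end Pool.Agent.R684.FP
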