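import Pool.Agent.R684.FP.Ker
import Pool.Agent.R684.FP.Reg

/-!
# Extensions by free products
-/

set_option autoImplicit false

namespace Pool.Agent.R684.FP

open Pool.Agent.Y110.FJ
open Pool.Agent.R941.FJ (C_equiv C_le C_cyc mem_sup_normal)
open Pool.Agent.Y462.SS (Closed)

variable {C : ∀ (G : Type) [Group G], Prop}

section shift

variable {T F : Type} [Group F] (D : T → Type) [∀ t, Group (D t)]

/-- the shift of the functions on `T × F` -/
def sh : F →* MulAut (∀ p : T × F, D p.1) where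
  toFun f :=
    { toFun := fun φ p => φ (p.1, f⁻¹ * p.2)
      invFun := fun φ p => φ (p.1, f * p.2)
      left_inv := fun φ => by
        funext p
        show φ (p.1, f⁻¹ * (f * p.2)) = φ p
        rw [inv_mul_cancel_left]
      right_inv := fun φ => by
        funext p
        show φ (p.1, f * (f⁻¹ * p.2)) = φ p
        rw [mul_inv_cancel_left]
      map_mul' := fun φ ψ => rfl }
  map_one' := by
    ext φ p
    show φ (p.1, 1⁻¹ * p.2) = φ p
    rw [inv_one, one_mul]
  map_mul' f g := by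
    ext φ p
    show φ (p.1, (f * g)⁻¹ * p.2) = φ (p.1, g⁻¹ * (f⁻¹ * p.2))
    rw [mul_inv_rev, mul_assoc]

theorem sh_apply (f : F) (φ : ∀ p : T × F, D p.1) (p : T × F) :
    sh D f φ p = φ (p.1, f⁻¹ * p.2) := rfl

end shift

/-- `N` is the internal free product of its subgroups `A i` -/
structure IsFreeProd {G I : Type} [Group G] (N : Subgroup G) (A : I → Subgroup G) : Prop where
  sup : ⨆ i, A i = N
  inj : Function.Injective (Monoid.CoprodI.lift fun i => (A i).subtype)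

section main

variable {G I : Type} [Group G] {N : Subgroup G} (A : I → Subgroup G) (S : Set I)

/-- the free product of the factors outside `S` -/
abbrev Fr : Type := Monoid.CoprodI (fun i : {i : I // i ∉ S} => A i.1)

/-- the inclusion of a factor -/
abbrev oA {i : I} (a : A i) : Monoid.CoprodI (fun i => A i) :=
  Monoid.CoprodI.of (M := fun i => A i) (i := i) a

/-- the inclusion of a factor outside `S` -/
abbrev oF {i : I} (h : i ∉ S) (a : A i) : Fr A S :=
  Monoid.CoprodI.of (M := fun i : {i : I // i ∉ S} => A i.1) (i := ⟨i, h⟩) a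

open Classical in
/-- the retraction -/
noncomputable def ep : Monoid.CoprodI (fun i => A i) →* Fr A S :=
  Monoid.CoprodI.lift fun i => if h : i ∉ S then
    (Monoid.CoprodI.of (M := fun i : {i : I // i ∉ S} => A i.1) (i := ⟨i, h⟩)) else 1

/-- the section -/
noncomputable def sc : Fr A S →* Monoid.CoprodI (fun i => A i) :=
  Monoid.CoprodI.lift fun i => Monoid.CoprodI.of (M := fun i => A i) (i := i.1)

/-- the wreath product -/
abbrev Wt : Type := (∀ p : {i : I // i ∈ S} × Fr A S, A p.1.1) ⋊[sh (fun t : {i : I // i ∈ S} => A t.1)] Fr A S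

open Classical in
/-- the homomorphism to the wreath product -/
noncomputable def Th : Monoid.CoprodI (fun i => A i) →* Wt A S :=
  Monoid.CoprodI.lift fun i => if h : i ∉ S then
    (SemidirectProduct.inr.comp
      (Monoid.CoprodI.of (M := fun i : {i : I // i ∉ S} => A i.1) (i := ⟨i, h⟩))) else
    (SemidirectProduct.inl.comp
      (MonoidHom.mulSingle (fun p : {i : I // i ∈ S} × Fr A S => A p.1.1)
        ((⟨i, not_not.1 h⟩, 1) : {i : I // i ∈ S} × Fr A S)))

theorem ep_of {i : I} (h : i ∉ S) (a : A i) : ep A S (oA A a) = oF A S h a := by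
  rw [ep, Monoid.CoprodI.lift_of, dif_pos h]

theorem ep_of' {i : I} (h : i ∈ S) (a : A i) : ep A S (oA A a) = 1 := by
  rw [ep, Monoid.CoprodI.lift_of, dif_neg (not_not.2 h)]
  rfl

theorem sc_of {i : I} (h : i ∉ S) (a : A i) : sc A S (oF A S h a) = oA A a := by
  rw [sc, Monoid.CoprodI.lift_of]

theorem ep_sc (f : Fr A S) : ep A S (sc A S f) = f := by
  have : (ep A S).comp (sc A S) = MonoidHom.id _ := by
    apply Monoid.CoprodI.ext_hom
    intro i
    ext a : 1
    show ep A S (sc A S (oF A S i.2 a)) = oF A S i.2 a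
    rw [sc, Monoid.CoprodI.lift_of, ep_of A S i.2]
  exact DFunLike.congr_fun this f

theorem Th_of {i : I} (h : i ∉ S) (a : A i) : Th A S (oA A a) =
    SemidirectProduct.inr (oF A S h a) := by
  rw [Th, Monoid.CoprodI.lift_of, dif_pos h]
  rfl

open Classical in
theorem Th_of' {i : I} (h : i ∈ S) (a : A i) : Th A S (oA A a) =
    SemidirectProduct.inl (Pi.mulSingle (M := fun p : {i : I // i ∈ S} × Fr A S => A p.1.1)
        ((⟨i, h⟩, 1) : {i : I // i ∈ S} × Fr A S) a) := by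
  rw [Th, Monoid.CoprodI.lift_of, dif_neg (not_not.2 h)]
  rfl

theorem Th_right (x : Monoid.CoprodI (fun i => A i)) : (Th A S x).right = ep A S x := by
  have : (SemidirectProduct.rightHom.comp (Th A S)) = ep A S := by
    apply Monoid.CoprodI.ext_hom
    intro i
    ext a : 1
    show (Th A S (oA A a)).right = ep A S (oA A a)
    by_cases h : i ∈ S
    · rw [Th_of' A S h, ep_of' A S h]
      rfl
    · rw [Th_of A S h, ep_of A S h]
      rfl
  exact DFunLike.congr_fun this x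

theorem Th_sc (f : Fr A S) : Th A S (sc A S f) = SemidirectProduct.inr f := by
  have : (Th A S).comp (sc A S) = SemidirectProduct.inr := by
    apply Monoid.CoprodI.ext_hom
    intro i
    ext a : 1
    show Th A S (sc A S (oF A S i.2 a)) = SemidirectProduct.inr (oF A S i.2 a)
    rw [sc, Monoid.CoprodI.lift_of, Th_of A S i.2]
  exact DFunLike.congr_fun this f

theorem Th_inj (i : I) : Function.Injective ((Th A S).comp
    (Monoid.CoprodI.of (M := fun i => A i) (i := i))) := by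
  classical
  intro a b hab
  have h1 : Th A S (oA A a) = Th A S (oA A b) := hab
  by_cases h : i ∈ S
  · rw [Th_of' A S h, Th_of' A S h] at h1
    have h2 := SemidirectProduct.inl_injective h1
    exact Pi.mulSingle_injective (M := fun p : {i : I // i ∈ S} × Fr A S => A p.1.1) _ h2
  · rw [Th_of A S h, Th_of A S h] at h1
    exact Monoid.CoprodI.of_injective (M := fun i : {i : I // i ∉ S} => A i.1) ⟨i, h⟩
      (SemidirectProduct.inr_injective h1)

/-- the coordinate on the kernel of the retraction is trivial -/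
def Z (p : {i : I // i ∈ S} × Fr A S) : Subgroup (Monoid.CoprodI (fun i => A i)) where
  carrier := {x | ep A S x = 1 ∧ (Th A S x).left p = 1}
  one_mem' := ⟨map_one _, by rw [map_one]; rfl⟩
  mul_mem' := by
    rintro x y ⟨h1, h2⟩ ⟨h3, h4⟩
    refine ⟨by rw [map_mul, h1, h3, one_mul], ?_⟩
    rw [map_mul, SemidirectProduct.mul_left, Th_right, h1, map_one]
    show (Th A S x).left p * (Th A S y).left p = 1
    rw [h2, h4, one_mul]
  inv_mem' := by
    rintro x ⟨h1, h2⟩
    refine ⟨by rw [map_inv, h1, inv_one], ?_⟩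
    rw [map_inv, SemidirectProduct.inv_left, Th_right, h1]
    have h3 : sh (fun t : {i : I // i ∈ S} => A t.1) (1 : Fr A S)⁻¹ = 1 := by rw [inv_one, map_one]
    rw [h3]
    show ((Th A S x).left p)⁻¹ = 1
    rw [h2, inv_one]

theorem Z_conj {p : {i : I // i ∈ S} × Fr A S} {m x : Monoid.CoprodI (fun i => A i)}
    (hm : ep A S m = 1) (hx : x ∈ Z A S p) : m * x * m⁻¹ ∈ Z A S p := by
  obtain ⟨h1, h2⟩ := hx
  refine ⟨by rw [map_mul, map_mul, h1, hm, mul_one, map_inv, hm, one_mul, inv_one], ?_⟩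
  rw [map_mul, map_mul, SemidirectProduct.mul_left, SemidirectProduct.mul_left,
    SemidirectProduct.mul_right, Th_right, Th_right, hm, h1, map_inv, SemidirectProduct.inv_left,
    Th_right, hm, one_mul, map_one]
  have h3 : sh (fun t : {i : I // i ∈ S} => A t.1) (1 : Fr A S)⁻¹ = 1 := by rw [inv_one, map_one]
  rw [h3]
  show (Th A S m).left p * (Th A S x).left p * ((Th A S m).left p)⁻¹ = 1
  rw [h2, mul_one, mul_inv_cancel]

open Classical in
/-- conjugates of the factors -/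
theorem Th_conj {i : I} (h : i ∈ S) (a : A i) (f : Fr A S)
    (p : {i : I // i ∈ S} × Fr A S) :
    (Th A S (sc A S f * oA A a * (sc A S f)⁻¹)).left p =
      Pi.mulSingle (M := fun p : {i : I // i ∈ S} × Fr A S => A p.1.1)
        ((⟨i, h⟩, f) : {i : I // i ∈ S} × Fr A S) a p := by
  rw [map_mul, map_mul, map_inv, Th_sc, Th_of' A S h, ← map_inv, ← SemidirectProduct.inl_aut,
    SemidirectProduct.left_inl, sh_apply]
  by_cases hp : p = ((⟨i, h⟩, f) : {i : I // i ∈ S} × Fr A S)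
  · subst hp
    have key : ∀ g : Fr A S, g = 1 →
        Pi.mulSingle (M := fun p : {i : I // i ∈ S} × Fr A S => A p.1.1)
          ((⟨i, h⟩, 1) : {i : I // i ∈ S} × Fr A S) a (⟨i, h⟩, g) = a := by
      rintro g rfl
      exact Pi.mulSingle_eq_same _ _
    refine (key _ (inv_mul_cancel f)).trans ?_
    have h5 := Pi.mulSingle_eq_same (M := fun p : {i : I // i ∈ S} × Fr A S => A p.1.1)
      ((⟨i, h⟩, f) : {i : I // i ∈ S} × Fr A S) a
    exact h5.symm
  · rw [Pi.mulSingle_eq_of_ne hp, Pi.mulSingle_eq_of_ne]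
    intro h1
    apply hp
    have h2 : p.1 = ⟨i, h⟩ := congrArg Prod.fst h1
    have h3 : f⁻¹ * p.2 = 1 := congrArg Prod.snd h1
    rw [inv_mul_eq_one] at h3
    exact Prod.ext h2 h3.symm

/-- the embedding -/
abbrev jj : Monoid.CoprodI (fun i => A i) →* G := Monoid.CoprodI.lift fun i => (A i).subtype

theorem jj_range (hA : IsFreeProd N A) : (jj A).range = N := by
  rw [jj, Monoid.CoprodI.range_eq_iSup, ← hA.sup]
  congr 1
  funext i
  exact (A i).range_subtype

/-- the factors of the kernel -/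
noncomputable def Bb (p : {i : I // i ∈ S} × Fr A S) : Subgroup G :=
  (A p.1.1).map (MulAut.conj (jj A (sc A S p.2))).toMonoidHom

/-- the kernel of the retraction -/
noncomputable def Mk : Subgroup G := (ep A S).ker.map (jj A)

theorem mem_Bb {p : {i : I // i ∈ S} × Fr A S} {x : G} : x ∈ Bb A S p ↔
    (jj A (sc A S p.2))⁻¹ * x * jj A (sc A S p.2) ∈ A p.1.1 := by
  rw [Bb]
  constructor
  · rintro ⟨a, ha, rfl⟩
    have : (jj A (sc A S p.2))⁻¹ * ((MulAut.conj (jj A (sc A S p.2))).toMonoidHom a) *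
        jj A (sc A S p.2) = a := by
      show (jj A (sc A S p.2))⁻¹ * ((jj A (sc A S p.2)) * a * (jj A (sc A S p.2))⁻¹) *
        jj A (sc A S p.2) = a
      group
    rw [this]
    exact ha
  · intro h
    refine ⟨_, h, ?_⟩
    show jj A (sc A S p.2) * ((jj A (sc A S p.2))⁻¹ * x * jj A (sc A S p.2)) *
      (jj A (sc A S p.2))⁻¹ = x
    group

theorem jj_of {i : I} (a : A i) : jj A (oA A a) = a := by
  rw [jj, Monoid.CoprodI.lift_of]
  rfl

/-- the elements of `Bb` -/
theorem Bb_ex {p : {i : I // i ∈ S} × Fr A S} {x : G} (hx : x ∈ Bb A S p) : ∃ a : A p.1.1,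
    x = jj A (sc A S p.2 * oA A a * (sc A S p.2)⁻¹) := by
  refine ⟨⟨_, (mem_Bb A S).1 hx⟩, ?_⟩
  rw [map_mul, map_mul, map_inv, jj_of]
  group

theorem Bb_le (p : {i : I // i ∈ S} × Fr A S) : Bb A S p ≤ Mk A S := by
  intro x hx
  obtain ⟨a, rfl⟩ := Bb_ex A S hx
  refine ⟨_, ?_, rfl⟩
  show ep A S _ = 1
  rw [map_mul, map_mul, map_inv, ep_of' A S p.1.2, mul_one, mul_inv_cancel]

theorem Bb_conj (f : Fr A S) {x : G} (hx : x ∈ ⨆ p, Bb A S p) :
    jj A (sc A S f) * x * (jj A (sc A S f))⁻¹ ∈ ⨆ p, Bb A S p := by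
  have h1 : (⨆ p, Bb A S p) ≤ (⨆ p, Bb A S p).comap (MulAut.conj (jj A (sc A S f))).toMonoidHom := by
    refine iSup_le fun p x hx => ?_
    show jj A (sc A S f) * x * (jj A (sc A S f))⁻¹ ∈ ⨆ p, Bb A S p
    refine (le_iSup (Bb A S) (p.1, f * p.2)) ?_
    rw [mem_Bb] at hx ⊢
    have h2 : (jj A (sc A S (f * p.2)))⁻¹ * (jj A (sc A S f) * x * (jj A (sc A S f))⁻¹) *
        jj A (sc A S (f * p.2)) = (jj A (sc A S p.2))⁻¹ * x * jj A (sc A S p.2) := by
      rw [map_mul, map_mul]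
      group
    rwa [h2]
  exact h1 hx

/-- every element is a product of an element generated by the factors and of an element of the
complement -/
theorem dcmp (x : Monoid.CoprodI (fun i => A i)) :
    ∃ b ∈ ⨆ p, Bb A S p, jj A x = b * jj A (sc A S (ep A S x)) := by
  induction x using Monoid.CoprodI.induction_on with
  | one => exact ⟨1, one_mem _, by rw [map_one, map_one, map_one, one_mul, map_one]⟩
  | of i a =>
    by_cases h : i ∈ S
    · refine ⟨a, le_iSup (Bb A S) (⟨i, h⟩, 1) ?_, ?_⟩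
      · rw [mem_Bb]
        simp
      · rw [show ep A S (Monoid.CoprodI.of a) = 1 from ep_of' A S h a, map_one, map_one, mul_one]
        exact jj_of A a
    · refine ⟨1, one_mem _, ?_⟩
      rw [show ep A S (Monoid.CoprodI.of a) = oF A S h a from ep_of A S h a, one_mul, sc_of]
  | mul x y hx hy =>
    obtain ⟨b, hb, hx⟩ := hx
    obtain ⟨c, hc, hy⟩ := hy
    refine ⟨b * (jj A (sc A S (ep A S x)) * c * (jj A (sc A S (ep A S x)))⁻¹),
      mul_mem hb (Bb_conj A S _ hc), ?_⟩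
    rw [map_mul (jj A), map_mul (ep A S), map_mul (sc A S), map_mul (jj A), hx, hy]
    group

theorem sup_Bb : ⨆ p, Bb A S p = Mk A S := by
  apply le_antisymm (iSup_le (Bb_le A S))
  rintro _ ⟨x, hx, rfl⟩
  obtain ⟨b, hb, h1⟩ := dcmp A S x
  rw [show ep A S x = 1 from hx, map_one, map_one, mul_one] at h1
  rw [h1]
  exact hb

/-- normality in `N` -/
theorem Mk_conj {n x : G} (hA : IsFreeProd N A) (hn : n ∈ N) (hx : x ∈ Mk A S) :
    n * x * n⁻¹ ∈ Mk A S := by
  rw [← jj_range A hA] at hn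
  obtain ⟨y, rfl⟩ := hn
  obtain ⟨z, hz, rfl⟩ := hx
  rw [← map_inv, ← map_mul, ← map_mul]
  exact ⟨_, (MonoidHom.normal_ker (ep A S)).conj_mem z hz y, rfl⟩

theorem Mk_le (hA : IsFreeProd N A) : Mk A S ≤ N := by
  rintro _ ⟨x, _, rfl⟩
  rw [← jj_range A hA]
  exact ⟨x, rfl⟩

/-- every element of `N` is a product of an element of the complement and an element of `Mk` -/
theorem dcmp' (hA : IsFreeProd N A) {n : G} (hn : n ∈ N) :
    ∃ f : Fr A S, ∃ m ∈ Mk A S, n = jj A (sc A S f) * m := by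
  rw [← jj_range A hA] at hn
  obtain ⟨y, rfl⟩ := hn
  refine ⟨ep A S y, jj A ((sc A S (ep A S y))⁻¹ * y), ⟨_, ?_, rfl⟩, ?_⟩
  · show ep A S _ = 1
    rw [map_mul, map_inv, ep_sc, inv_mul_cancel]
  · rw [← map_mul, mul_inv_cancel_left]

theorem sc_mem (hA : IsFreeProd N A) (f : Fr A S) : jj A (sc A S f) ∈ N := by
  rw [← jj_range A hA]
  exact ⟨_, rfl⟩

/-- the permutation hypothesis -/
def Pm (N : Subgroup G) : Prop := ∀ i ∈ S, ∀ g : G, ∃ j ∈ S, ∃ n ∈ N, ∀ x, x ∈ A i ↔
  n * (g * x * g⁻¹) * n⁻¹ ∈ A j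

theorem A_le_Mk {i : I} (h : i ∈ S) {x : G} (hx : x ∈ A i) : x ∈ Mk A S := by
  rw [← sup_Bb]
  refine le_iSup (Bb A S) (⟨i, h⟩, 1) ?_
  rw [mem_Bb]
  simpa using hx

theorem Mk_normal (hA : IsFreeProd N A) [N.Normal] (hp : Pm A S N) : (Mk A S).Normal := by
  refine ⟨fun x hx g => ?_⟩
  have h1 : Mk A S ≤ (Mk A S).comap (MulAut.conj g).toMonoidHom := by
    conv_lhs => rw [← sup_Bb]
    refine iSup_le fun p x hx => ?_
    show g * x * g⁻¹ ∈ Mk A S
    rw [mem_Bb] at hx
    obtain ⟨j, hj, n, hn, h⟩ := hp p.1.1 p.1.2 (g * jj A (sc A S p.2))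
    have h2 := A_le_Mk A S hj ((h _).1 hx)
    have h3 := Mk_conj A S hA (N.inv_mem hn) h2
    have h4 : n⁻¹ * (n * (g * jj A (sc A S p.2) * ((jj A (sc A S p.2))⁻¹ * x * jj A (sc A S p.2)) *
      (g * jj A (sc A S p.2))⁻¹) * n⁻¹) * n⁻¹⁻¹ = g * x * g⁻¹ := by group
    rwa [h4] at h3
  exact h1 hx

theorem Z_le (p : {i : I // i ∈ S} × Fr A S) :
    NC (Mk A S) (Bb A S) p ≤ (Z A S p).map (jj A) := by
  classical
  rw [NC, Subgroup.closure_le]
  rintro _ ⟨q, hq, m, ⟨y, hy, rfl⟩, b, hb, rfl⟩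
  obtain ⟨a, rfl⟩ := Bb_ex A S hb
  have h0 : ∀ z, (jj A) y * (jj A) z * ((jj A) y)⁻¹ = jj A (y * z * y⁻¹) := fun z => by
    rw [map_mul, map_mul, map_inv]
  rw [h0]
  refine ⟨_, Z_conj A S hy ⟨?_, ?_⟩, rfl⟩
  · rw [map_mul, map_mul, map_inv, ep_of' A S q.1.2, mul_one, mul_inv_cancel]
  · rw [Th_conj A S q.1.2, Pi.mulSingle_eq_of_ne]
    exact fun h => hq h.symm

theorem dat (hA : IsFreeProd N A) [N.Normal] (hne : ∀ i ∈ S, A i ≠ ⊥) (hp : Pm A S N) :
    Dat (Mk A S) (Bb A S) where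
  nor := Mk_normal A S hA hp
  ne := by
    intro p
    rw [Bb, Ne, Subgroup.map_eq_bot_iff_of_injective _ (MulAut.conj (jj A (sc A S p.2))).injective]
    exact hne _ p.1.2
  sup := sup_Bb A S
  reg := by
    classical
    intro p
    rw [eq_bot_iff]
    rintro x ⟨hx1, hx2⟩
    obtain ⟨z, ⟨hz1, hz2⟩, hz3⟩ := Z_le A S p hx2
    obtain ⟨a, rfl⟩ := Bb_ex A S hx1
    have h1 := hA.inj hz3
    rw [h1, Th_conj A S p.1.2] at hz2
    have h2 : (Pi.mulSingle (M := fun p : {i : I // i ∈ S} × Fr A S => A p.1.1)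
        ((⟨p.1.1, p.1.2⟩, p.2) : {i : I // i ∈ S} × Fr A S) a) p = a := Pi.mulSingle_eq_same _ _
    rw [h2] at hz2
    have h3 : oA A (1 : A p.1.1) = 1 := map_one _
    rw [Subgroup.mem_bot, hz2, h3, mul_one, mul_inv_cancel, map_one]
  perm := by
    intro g p
    obtain ⟨j, hj, n, hn, h⟩ := hp p.1.1 p.1.2 (g * jj A (sc A S p.2))
    obtain ⟨f, m, hm, hnf⟩ := dcmp' A S hA hn
    refine ⟨(⟨j, hj⟩, f⁻¹), m, hm, fun x => ?_⟩
    rw [mem_Bb, mem_Bb, h]
    have h1 : n * (g * jj A (sc A S p.2) * ((jj A (sc A S p.2))⁻¹ * x * jj A (sc A S p.2)) *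
        (g * jj A (sc A S p.2))⁻¹) * n⁻¹ = n * (g * x * g⁻¹) * n⁻¹ := by group
    have h2 : (jj A (sc A S f⁻¹))⁻¹ * (m * (g * x * g⁻¹) * m⁻¹) * jj A (sc A S f⁻¹) =
        n * (g * x * g⁻¹) * n⁻¹ := by
      rw [hnf, map_inv, map_inv]
      group
    show _ ↔ (jj A (sc A S f⁻¹))⁻¹ * (m * (g * x * g⁻¹) * m⁻¹) * jj A (sc A S f⁻¹) ∈ A j
    rw [h1, h2]

/-- the cartesian subgroup is free -/
theorem Ct_free (hA : IsFreeProd N A) : IsFreeGroup (Ct (Mk A S) (Bb A S)) := by
  have h1 : Ct (Mk A S) (Bb A S) ≤ (Th A S).ker.map (jj A) := by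
    intro x hx
    rw [mem_Ct] at hx
    obtain ⟨⟨y, hy, rfl⟩, hx⟩ := hx
    refine ⟨y, ?_, rfl⟩
    show Th A S y = 1
    apply SemidirectProduct.ext
    · funext p
      obtain ⟨z, ⟨_, hz2⟩, hz3⟩ := Z_le A S p (hx p)
      have h2 := hA.inj hz3
      rw [h2] at hz2
      exact hz2
    · rw [Th_right]
      exact hy
  have h2 : IsFreeGroup (Th A S).ker := ker_free (Th A S) (Th_inj A S)
  have h3 : IsFreeGroup ((Th A S).ker.map (jj A)) :=
    IsFreeGroup.ofMulEquiv ((Th A S).ker.equivMapOfInjective (jj A) hA.inj)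
  exact IsFreeGroup.ofMulEquiv (Subgroup.subgroupOfEquivOfLe h1)

end main

/-- the case of nontrivial factors -/
theorem main_ne (hC : ClosedE C) (hF : FbC C) {G I : Type} [Group G] {N : Subgroup G} [N.Normal]
    (hQ : C (G ⧸ N)) (A : I → Subgroup G) (S : Set I) (hA : IsFreeProd N A)
    (hne : ∀ i ∈ S, A i ≠ ⊥) (hfr : ∀ i, i ∉ S → IsFreeGroup (A i)) (hp : Pm A S N)
    (hB : ∀ i ∈ S, ∀ g : G, (∀ x, x ∈ A i ↔ g * x * g⁻¹ ∈ A i) → C ↥(A i ⊔ Subgroup.zpowers g)) :
    C G := by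
  have hMn := Mk_normal A S hA hp
  have d := dat A S hA hne hp
  have hCn := Ct_normal d
  have hCf := Ct_free A S hA
  refine regular hC d (fun g => free_cyc hC hF _ g) ?_ ?_
  · -- conjugate
    intro p g hg
    obtain ⟨c, hc⟩ : ∃ c, c = jj A (sc A S p.2) := ⟨_, rfl⟩
    have hBb : Bb A S p = (A p.1.1).map (MulAut.conj c).toMonoidHom := by rw [Bb, hc]
    have h1 : ∀ x, x ∈ A p.1.1 ↔ (c⁻¹ * g * c) * x * (c⁻¹ * g * c)⁻¹ ∈ A p.1.1 := by
      intro x
      have h2 := hg (c * x * c⁻¹)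
      rw [mem_Bb, mem_Bb, ← hc] at h2
      have h3 : c⁻¹ * (c * x * c⁻¹) * c = x := by group
      have h4 : c⁻¹ * (g * (c * x * c⁻¹) * g⁻¹) * c = (c⁻¹ * g * c) * x * (c⁻¹ * g * c)⁻¹ := by group
      rwa [h3, h4] at h2
    have h2 := hB p.1.1 p.1.2 _ h1
    have h3 : Bb A S p ⊔ Subgroup.zpowers g =
        (A p.1.1 ⊔ Subgroup.zpowers (c⁻¹ * g * c)).map (MulAut.conj c).toMonoidHom := by
      rw [Subgroup.map_sup, ← hBb, MonoidHom.map_zpowers]
      congr 2
      show g = c * (c⁻¹ * g * c) * c⁻¹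
      group
    rw [h3]
    exact C_equiv hC.base ((A p.1.1 ⊔ Subgroup.zpowers (c⁻¹ * g * c)).equivMapOfInjective
      (MulAut.conj c).toMonoidHom (MulAut.conj c).injective).symm h2
  · -- the quotient
    have hle : Mk A S ≤ N := Mk_le A S hA
    have hNn : (N.map (QuotientGroup.mk' (Mk A S))).Normal :=
      Subgroup.Normal.map inferInstance _ (QuotientGroup.mk'_surjective _)
    have hFr : IsFreeGroup (Fr A S) := by
      have : ∀ i : {i : I // i ∉ S}, IsFreeGroup (A i.1) := fun i => hfr i.1 i.2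
      infer_instance
    let φ : Fr A S →* N.map (QuotientGroup.mk' (Mk A S)) :=
      ((QuotientGroup.mk' (Mk A S)).comp ((jj A).comp (sc A S))).codRestrict _
        fun f => ⟨_, sc_mem A S hA f, rfl⟩
    have hφ : Function.Bijective φ := by
      constructor
      · rw [injective_iff_map_eq_one]
        intro f hf
        have h1 : QuotientGroup.mk' (Mk A S) (jj A (sc A S f)) = 1 := congrArg Subtype.val hf
        have h2 : jj A (sc A S f) ∈ Mk A S := (QuotientGroup.eq_one_iff _).1 h1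
        obtain ⟨y, hy, hyf⟩ := h2
        have h3 := hA.inj hyf
        rw [h3] at hy
        have h4 : ep A S (sc A S f) = 1 := hy
        rwa [ep_sc] at h4
      · rintro ⟨_, n, hn, rfl⟩
        obtain ⟨f, m, hm, rfl⟩ := dcmp' A S hA hn
        refine ⟨f, ?_⟩
        apply Subtype.ext
        show QuotientGroup.mk' (Mk A S) (jj A (sc A S f)) =
          QuotientGroup.mk' (Mk A S) (jj A (sc A S f) * m)
        have h1 : QuotientGroup.mk' (Mk A S) m = 1 := (QuotientGroup.eq_one_iff _).2 hm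
        rw [map_mul, h1, mul_one]
    have h1 : IsFreeGroup (N.map (QuotientGroup.mk' (Mk A S))) :=
      IsFreeGroup.ofMulEquiv (MulEquiv.ofBijective φ hφ)
    exact free_ext hC hF (N.map (QuotientGroup.mk' (Mk A S)))
      (C_equiv hC.base (QuotientGroup.quotientQuotientEquivQuotient (Mk A S) N hle) hQ)

theorem free_of_bot {G : Type} [Group G] {A : Subgroup G} (h : A = ⊥) : IsFreeGroup A := by
  subst h
  refine IsFreeGroup.ofMulEquiv (G := FreeGroup Empty)
    (MulEquiv.ofBijective (1 : FreeGroup Empty →* (⊥ : Subgroup G)) ⟨?_, ?_⟩)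
  · intro a b _
    exact Subsingleton.elim a b
  · intro a
    exact ⟨1, Subsingleton.elim _ _⟩

/-- **extensions by free products** -/
theorem main_all (hC : ClosedE C) (hF : FbC C) {G I : Type} [Group G] {N : Subgroup G} [N.Normal]
    (hQ : C (G ⧸ N)) (A : I → Subgroup G) (S : Set I) (hA : IsFreeProd N A)
    (hfr : ∀ i, i ∉ S → IsFreeGroup (A i)) (hp : Pm A S N)
    (hB : ∀ i ∈ S, ∀ g : G, (∀ x, x ∈ A i ↔ g * x * g⁻¹ ∈ A i) → C ↥(A i ⊔ Subgroup.zpowers g)) :
    C G := by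
  refine main_ne hC hF hQ A {i | i ∈ S ∧ A i ≠ ⊥} hA (fun i hi => hi.2) ?_ ?_
    (fun i hi g hg => hB i hi.1 g hg)
  · intro i hi
    by_cases h : i ∈ S
    · have h1 : A i = ⊥ := by
        by_contra h2
        exact hi ⟨h, h2⟩
      exact free_of_bot h1
    · exact hfr i h
  · rintro i ⟨hi, hne⟩ g
    obtain ⟨j, hj, n, hn, h⟩ := hp i hi g
    refine ⟨j, ⟨hj, fun hb => hne ?_⟩, n, hn, h⟩
    rw [eq_bot_iff]
    intro x hx
    have h1 := (h x).1 hx
    rw [hb, Subgroup.mem_bot] at h1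
    rw [Subgroup.mem_bot]
    have h2 : x = g⁻¹ * n⁻¹ * (n * (g * x * g⁻¹) * n⁻¹) * n * g := by group
    rw [h2, h1]
    group

end Pool.Agent.R684.FP
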