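import Pool.Agent.R684.FP.Hd
import Pool.Agent.R684.FP.Main

/-!
# Lengths in free products and finite groups which permute the factors
-/

set_option autoImplicit false

namespace Pool.Agent.R684.FP

open Monoid.CoprodI (of)

section len

variable {ι : Type} {A : ι → Type} [∀ i, Group (A i)]

open Classical in
/-- the number of letters -/
noncomputable def ln (x : Monoid.CoprodI A) : ℕ := (Monoid.CoprodI.Word.equiv x).toList.length

theorem ln_one : ln (1 : Monoid.CoprodI A) = 0 := by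
  classical
  unfold ln
  have h1 : (Monoid.CoprodI.Word.equiv (1 : Monoid.CoprodI A)) = Monoid.CoprodI.Word.empty := by
    show (1 : Monoid.CoprodI A) • Monoid.CoprodI.Word.empty = _
    rw [one_smul]
  rw [h1]
  rfl

theorem ln_cons {i : ι} {m : A i} {y : Monoid.CoprodI A} (hm : m ≠ 1) (hy : hd i y = 1) :
    ln (of m * y) = ln y + 1 := by
  classical
  obtain ⟨w, hw⟩ : ∃ w : Monoid.CoprodI.Word A, w = Monoid.CoprodI.Word.equiv y := ⟨_, rfl⟩
  have hwy : w.prod = y := by rw [hw]; exact Monoid.CoprodI.Word.equiv.symm_apply_apply y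
  have hidx : w.fstIdx ≠ some i := by
    intro h
    rw [← hwy] at hy
    induction w using Monoid.CoprodI.Word.consRecOn with
    | empty => cases h
    | cons k m' w' hw' hm' _ =>
      rw [Monoid.CoprodI.Word.fstIdx_cons] at h
      have hk : k = i := Option.some.inj h
      subst hk
      rw [Monoid.CoprodI.Word.prod_cons, hd_mul] at hy
      have h2 : hd k w'.prod = 1 := by
        unfold hd
        have hww : Monoid.CoprodI.Word.equiv w'.prod = w' :=
          Monoid.CoprodI.Word.equiv.apply_symm_apply w'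
        rw [hww, Monoid.CoprodI.Word.equivPair_eq_of_fstIdx_ne hw']
      rw [h2, mul_one] at hy
      exact hm' hy
  have hcc : Monoid.CoprodI.Word.equiv (Monoid.CoprodI.Word.cons m w hidx hm).prod =
      Monoid.CoprodI.Word.cons m w hidx hm :=
    Monoid.CoprodI.Word.equiv.apply_symm_apply (Monoid.CoprodI.Word.cons m w hidx hm)
  rw [Monoid.CoprodI.Word.prod_cons, hwy] at hcc
  unfold ln
  rw [hcc, ← hw]
  rfl

theorem ln_of {i : ι} {m : A i} (hm : m ≠ 1) : ln (of m : Monoid.CoprodI A) = 1 := by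
  have := ln_cons (y := 1) hm (hd_one i)
  rwa [mul_one, ln_one, zero_add] at this

theorem ln_zero {x : Monoid.CoprodI A} (h : ln x = 0) : x = 1 := by
  induction x using ind_hd with
  | h1 => rfl
  | h2 k m x hm hx _ =>
    rw [ln_cons hm hx] at h
    omega

theorem ln_mul_le {i : ι} (b : A i) (x : Monoid.CoprodI A) : ln (of b * x) ≤ ln x + 1 := by
  obtain ⟨y, hxy, hy⟩ := strip i x
  have h1 : of b * x = of (b * hd i x) * y := by
    conv_lhs => rw [hxy]
    rw [← mul_assoc, ← map_mul]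
  by_cases h2 : b * hd i x = 1
  · rw [h1, h2, map_one, one_mul]
    by_cases h3 : hd i x = 1
    · rw [h3, map_one, one_mul] at hxy
      rw [hxy]
      omega
    · have h4 := ln_cons h3 hy
      rw [← hxy] at h4
      omega
  · rw [h1, ln_cons h2 hy]
    by_cases h3 : hd i x = 1
    · rw [h3, map_one, one_mul] at hxy
      rw [hxy]
    · have h4 := ln_cons h3 hy
      rw [← hxy] at h4
      omega

/-- lengths add if the first letters are in different factors -/
theorem ln_add {i : ι} {y p : Monoid.CoprodI A} (hp : hd i p ≠ 1) (hy : hd i y = 1) :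
    ln (y⁻¹ * p) = ln y + ln p := by
  induction y using ind_hd generalizing i p with
  | h1 => rw [inv_one, one_mul, ln_one, zero_add]
  | h2 k m x hm hx ih =>
    have hik : i ≠ k := by
      rintro rfl
      rw [hd_mul, hx, mul_one] at hy
      exact hm hy
    have hkp : hd k p = 1 := hd_other hik.symm hp
    have hm' : m⁻¹ ≠ 1 := inv_ne_one.2 hm
    have h1 : hd k (of m⁻¹ * p) ≠ 1 := by
      rw [hd_mul, hkp, mul_one]
      exact hm'
    have h2 := ih h1 hx
    have h3 : (of m * x)⁻¹ * p = x⁻¹ * (of m⁻¹ * p) := by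
      rw [mul_inv_rev, map_inv, mul_assoc]
    rw [h3, h2, ln_cons hm' hkp, ln_cons hm hx]
    omega

theorem ln_inv (x : Monoid.CoprodI A) : ln x⁻¹ = ln x := by
  induction x using ind_hd with
  | h1 => rw [inv_one]
  | h2 k m y hm hy _ =>
    have hm' : m⁻¹ ≠ 1 := inv_ne_one.2 hm
    have h1 : hd k (of m⁻¹ : Monoid.CoprodI A) ≠ 1 := by rw [hd_of]; exact hm'
    rw [mul_inv_rev, ← map_inv, ln_add h1 hy, ln_of hm', ln_cons hm hy]

/-- a point between two points at distance at least two is nearer to each point than one of them -/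
theorem between {z w : Monoid.CoprodI A} (h : 2 ≤ ln (z⁻¹ * w)) :
    ∃ u, ∀ x : Monoid.CoprodI A, ln (u⁻¹ * x) + 1 ≤ ln (z⁻¹ * x) ∨
      ln (u⁻¹ * x) + 1 ≤ ln (w⁻¹ * x) := by
  have hs : z⁻¹ * w ≠ 1 := by
    intro h1
    rw [h1, ln_one] at h
    omega
  obtain ⟨k, hk⟩ := ex_hd hs
  obtain ⟨t, ht, hkt⟩ := strip k (z⁻¹ * w)
  obtain ⟨b, hb⟩ : ∃ b, b = hd k (z⁻¹ * w) := ⟨_, rfl⟩
  rw [← hb] at hk ht
  have ht1 : t ≠ 1 := by
    rintro rfl
    rw [ht, mul_one, ln_of hk] at h
    omega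
  obtain ⟨j, hj⟩ := ex_hd ht1
  have hjk : j ≠ k := by
    rintro rfl
    exact hj hkt
  refine ⟨z * of b, fun x => ?_⟩
  obtain ⟨y, hy⟩ : ∃ y, y = (z * of b)⁻¹ * x := ⟨_, rfl⟩
  rw [← hy]
  have hb' : b⁻¹ ≠ 1 := inv_ne_one.2 hk
  by_cases h1 : hd k y = 1
  · left
    have h2 : hd k (of b⁻¹ : Monoid.CoprodI A) ≠ 1 := by rw [hd_of]; exact hb'
    have h3 := ln_add h2 h1
    rw [ln_of hb'] at h3
    have h4 : y⁻¹ * of b⁻¹ = (z⁻¹ * x)⁻¹ := by
      rw [hy, map_inv]
      group
    rw [h4, ln_inv] at h3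
    omega
  · right
    have h2 : hd j y = 1 := hd_other hjk h1
    have h3 := ln_add hj h2
    have h5 : 1 ≤ ln t := by
      rcases Nat.eq_zero_or_pos (ln t) with h6 | h6
      · exact absurd (ln_zero h6) ht1
      · exact h6
    have h4 : y⁻¹ * t = (w⁻¹ * x)⁻¹ := by
      have h7 : t = (of b)⁻¹ * (z⁻¹ * w) := by rw [ht]; group
      rw [hy, h7]
      group
    rw [h4, ln_inv] at h3
    omega

end len

section fixed

variable {G₀ I : Type} [Group G₀] {M : Subgroup G₀} {B : I → Subgroup G₀}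

/-- **finite subgroups of groups generated by a free product and a group which permutes the
factors** -/
theorem fixed (hB : IsFreeProd M B) (E : Subgroup G₀) (hME : ∀ x, x ∈ M → x ∈ E → x = 1)
    (hE : ∀ e ∈ E, ∀ c, ∃ c', ∀ x ∈ B c, e * x * e⁻¹ ∈ B c')
    (H : Subgroup G₀) [Finite H] (hH : ∀ h ∈ H, ∃ m ∈ M, ∃ e ∈ E, h = m * e) :
    ∃ x ∈ M, (∀ h ∈ H, x⁻¹ * h * x ∈ E) ∨
      ∃ c, B c ≠ ⊥ ∧ ∀ h ∈ H, ∃ b ∈ B c, ∃ e ∈ E, (∀ y ∈ B c, e * y * e⁻¹ ∈ B c) ∧
        x⁻¹ * h * x = b * e := by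
  classical
  obtain ⟨J, hJ⟩ : ∃ J : Monoid.CoprodI (fun c => B c) →* G₀,
    J = Monoid.CoprodI.lift fun c => (B c).subtype := ⟨_, rfl⟩
  have hinj : Function.Injective J := by rw [hJ]; exact hB.inj
  have hrange : ∀ x, x ∈ M ↔ ∃ a, J a = x := by
    intro x
    have h1 : J.range = M := by
      rw [hJ, Monoid.CoprodI.range_eq_iSup, ← hB.sup]
      simp
    rw [← h1]
    rfl
  have hJof : ∀ c (b : B c), J (of (M := fun c => B c) (i := c) b) = b := by
    intro c b
    rw [hJ, Monoid.CoprodI.lift_of]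
    rfl
  have hJM : ∀ a, J a ∈ M := fun a => (hrange _).2 ⟨a, rfl⟩
  -- uniqueness
  have huniq : ∀ a a' e e', e ∈ E → e' ∈ E → J a * e = J a' * e' → a = a' ∧ e = e' := by
    intro a a' e e' he he' h
    have h1 : J (a'⁻¹ * a) = e' * e⁻¹ := by
      rw [map_mul, map_inv]
      have h2 : J a = J a' * e' * e⁻¹ := by rw [← h]; group
      rw [h2]
      group
    have h2 := hME (J (a'⁻¹ * a)) (hJM _) (by rw [h1]; exact mul_mem he' (inv_mem he))
    have h3 : a'⁻¹ * a = 1 := hinj (by rw [h2, map_one])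
    have h4 : a = a' := by
      have := congrArg (a' * ·) h3
      simpa using this
    refine ⟨h4, ?_⟩
    rw [h4] at h
    exact mul_left_cancel h
  -- invariance of the length
  have hlen : ∀ e ∈ E, ∀ a, ∃ a', J a' = e * J a * e⁻¹ ∧ ln a' ≤ ln a := by
    intro e he a
    induction a using ind_hd with
    | h1 => exact ⟨1, by rw [map_one]; group, le_rfl⟩
    | h2 k m x hm hx ih =>
      obtain ⟨a', ha', hl⟩ := ih
      obtain ⟨c', hc'⟩ := hE e he k
      refine ⟨of (M := fun c => B c) (i := c') ⟨_, hc' _ m.2⟩ * a', ?_, ?_⟩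
      · rw [map_mul, map_mul, hJof, hJof, ha']
        show e * (m : G₀) * e⁻¹ * (e * J x * e⁻¹) = e * ((m : G₀) * J x) * e⁻¹
        group
      · rw [ln_cons hm hx]
        exact (ln_mul_le _ _).trans (by omega)
  have hsplit : ∀ h ∈ H, ∃ a, ∃ e ∈ E, h = J a * e := by
    intro h hh
    obtain ⟨m, hm, e, he, rfl⟩ := hH h hh
    obtain ⟨a, rfl⟩ := (hrange m).1 hm
    exact ⟨a, e, he, rfl⟩
  choose! fa fe hfe hfa using hsplit
  -- the orbit
  obtain ⟨X, hX⟩ : ∃ X : Set (Monoid.CoprodI (fun c => B c)), X = fa '' H := ⟨_, rfl⟩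
  have hXf : X.Finite := by
    rw [hX]
    exact Set.Finite.image _ (Set.toFinite _)
  have hX1 : ∃ x, x ∈ X := ⟨fa 1, by rw [hX]; exact ⟨1, one_mem H, rfl⟩⟩
  have hexr : ∃ r : ℕ, ∃ z, ∀ x ∈ X, ln (z⁻¹ * x) ≤ r := by
    obtain ⟨r, hr⟩ := (hXf.image ln).bddAbove
    refine ⟨r, 1, fun x hx => ?_⟩
    rw [inv_one, one_mul]
    exact hr ⟨x, hx, rfl⟩
  obtain ⟨r, hr⟩ : ∃ r, r = Nat.find hexr := ⟨_, rfl⟩
  have hr1 : ∃ z, ∀ x ∈ X, ln (z⁻¹ * x) ≤ r := by rw [hr]; exact Nat.find_spec hexr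
  have hr2 : ∀ u, ¬ ∀ x ∈ X, ln (u⁻¹ * x) + 1 ≤ r := by
    intro u hu
    have hpos : 1 ≤ r := by
      obtain ⟨x, hx⟩ := hX1
      have := hu x hx
      omega
    have h1 : r - 1 < Nat.find hexr := by omega
    exact Nat.find_min hexr h1 ⟨u, fun x hx => by have := hu x hx; omega⟩
  obtain ⟨Z, hZ⟩ : ∃ Z : Set (Monoid.CoprodI (fun c => B c)),
    Z = {z | ∀ x ∈ X, ln (z⁻¹ * x) ≤ r} := ⟨_, rfl⟩
  have hdiam : ∀ z ∈ Z, ∀ w ∈ Z, ln (z⁻¹ * w) ≤ 1 := by
    intro z hz w hw
    rw [hZ] at hz hw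
    by_contra h
    obtain ⟨u, hu⟩ := between (z := z) (w := w) (by omega)
    refine hr2 u fun x hx => ?_
    have h1 := hz x hx
    have h2 := hw x hx
    rcases hu x with h3 | h3 <;> omega
  -- the action
  have hact : ∀ h ∈ H, ∀ z ∈ Z, ∃ z' ∈ Z, ∃ e ∈ E, h * J z = J z' * e := by
    intro h hh z hz
    obtain ⟨a, ha, -⟩ := hlen (fe h) (hfe h hh) z
    have h1 : h * J z = J (fa h * a) * fe h := by
      rw [map_mul, ha]
      conv_lhs => rw [hfa h hh]
      group
    refine ⟨fa h * a, ?_, fe h, hfe h hh, h1⟩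
    rw [hZ] at hz ⊢
    intro x hx
    rw [hX] at hx
    obtain ⟨k, hk, rfl⟩ := hx
    have hk' : h⁻¹ * k ∈ H := mul_mem (inv_mem hh) hk
    obtain ⟨a2, ha2, hl2⟩ := hlen (fe h) (hfe h hh) (z⁻¹ * fa (h⁻¹ * k))
    have h2 : J ((fa h * a)⁻¹ * fa k) * 1 = J a2 * (fe h * fe (h⁻¹ * k) * (fe k)⁻¹) := by
      rw [ha2]
      have h3 : J (fa h * a) = h * J z * (fe h)⁻¹ := by rw [h1]; group
      have h4 : J (fa k) = k * (fe k)⁻¹ := by
        have h5 : J (fa k) = J (fa k) * fe k * (fe k)⁻¹ := by group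
        rw [h5, ← hfa k hk]
      have h6 : J (fa (h⁻¹ * k)) = h⁻¹ * k * (fe (h⁻¹ * k))⁻¹ := by
        have h5 : J (fa (h⁻¹ * k)) = J (fa (h⁻¹ * k)) * fe (h⁻¹ * k) * (fe (h⁻¹ * k))⁻¹ := by group
        rw [h5, ← hfa (h⁻¹ * k) hk']
      rw [map_mul, map_inv, h3, h4, map_mul, map_inv, h6]
      group
    obtain ⟨h3, -⟩ := huniq _ _ _ _ (one_mem E)
      (mul_mem (mul_mem (hfe h hh) (hfe _ hk')) (inv_mem (hfe k hk))) h2
    rw [h3]
    exact hl2.trans (hz _ (by rw [hX]; exact ⟨_, hk', rfl⟩))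
  obtain ⟨z, hz⟩ := hr1
  have hzZ : z ∈ Z := by rw [hZ]; exact hz
  refine ⟨J z, hJM z, ?_⟩
  by_cases hone : ∀ w ∈ Z, w = z
  · left
    intro h hh
    obtain ⟨z', hz', e, he, h1⟩ := hact h hh z hzZ
    rw [hone z' hz'] at h1
    have h2 : (J z)⁻¹ * h * J z = e := by rw [mul_assoc, h1]; group
    rw [h2]
    exact he
  · right
    push Not at hone
    obtain ⟨w, hw, hwz⟩ := hone
    have hs : z⁻¹ * w ≠ 1 := fun h => hwz (inv_mul_eq_one.1 h).symm
    -- elements at distance at most one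
    have hd1 : ∀ s : Monoid.CoprodI (fun c => B c), ln s ≤ 1 → s ≠ 1 →
        ∃ c, ∃ b : B c, b ≠ 1 ∧ s = of (M := fun c => B c) (i := c) b := by
      intro s hs hs1
      obtain ⟨k, hk⟩ := ex_hd hs1
      obtain ⟨t, ht, hkt⟩ := strip k s
      have h1 := ln_cons hk hkt
      rw [← ht] at h1
      have h2 : t = 1 := ln_zero (by omega)
      rw [h2, mul_one] at ht
      exact ⟨k, hd k s, hk, ht⟩
    obtain ⟨c, b, hb, hsb⟩ := hd1 _ (hdiam z hzZ w hw) hs
    have hline : ∀ z' ∈ Z, ∃ b' : B c, z⁻¹ * z' = of (M := fun c => B c) (i := c) b' := by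
      intro z' hz'
      by_cases h1 : z⁻¹ * z' = 1
      · exact ⟨1, by rw [h1, map_one]⟩
      · obtain ⟨c', b', hb', hsb'⟩ := hd1 _ (hdiam z hzZ z' hz') h1
        by_cases hcc : c' = c
        · subst hcc
          exact ⟨b', hsb'⟩
        · exfalso
          have h2 : w⁻¹ * z' = of (M := fun c => B c) (i := c) b⁻¹ *
              of (M := fun c => B c) (i := c') b' := by
            rw [map_inv, ← hsb, ← hsb']
            group
          have h3 := hdiam w hw z' hz'
          have h4 : hd c (of (M := fun c => B c) (i := c') b') = 1 := by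
            apply hd_other (Ne.symm hcc)
            rw [hd_of]
            exact hb'
          rw [h2, ln_cons (inv_ne_one.2 hb) h4, ln_of hb'] at h3
          omega
    refine ⟨c, ?_, ?_⟩
    · intro hbot
      apply hb
      apply Subtype.ext
      have h1 : ∀ x ∈ B c, x ∈ (⊥ : Subgroup G₀) := fun x hx => by rw [← hbot]; exact hx
      exact h1 b b.2
    · intro h hh
      obtain ⟨z', hz', e, he, h1⟩ := hact h hh z hzZ
      obtain ⟨w', hw', e', he', h2⟩ := hact h hh w hw
      obtain ⟨b1, hb1⟩ := hline z' hz'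
      refine ⟨b1, b1.2, e, he, ?_, ?_⟩
      · obtain ⟨c', hc'⟩ := hE e he c
        have hwb : w = z * of (M := fun c => B c) (i := c) b := by rw [← hsb]; group
        obtain ⟨b2, hb2⟩ : ∃ b2 : B c', (b2 : G₀) = e * b * e⁻¹ := ⟨⟨_, hc' b b.2⟩, rfl⟩
        have h3 : J w' * e' = J (z' * of (M := fun c => B c) (i := c') b2) * e := by
          rw [← h2, hwb, map_mul, map_mul, hJof, hJof, hb2, ← mul_assoc, h1]
          group
        obtain ⟨h4, -⟩ := huniq _ _ _ _ he' he h3
        obtain ⟨b3, hb3⟩ := hline w' hw'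
        have h5 : of (M := fun c => B c) (i := c') b2 =
            of (M := fun c => B c) (i := c) (b1⁻¹ * b3) := by
          rw [map_mul, map_inv, ← hb1, ← hb3, h4]
          group
        have hb2' : b2 ≠ 1 := by
          intro h6
          rw [h6] at hb2
          have h7 : (b : G₀) = e⁻¹ * (e * b * e⁻¹) * e := by group
          rw [← hb2] at h7
          apply hb
          apply Subtype.ext
          rw [h7]
          show e⁻¹ * 1 * e = 1
          group
        have hcc : c' = c := by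
          by_contra hne
          have h6 : hd c' (of (M := fun c => B c) (i := c') b2) = 1 := by
            rw [h5]
            by_cases h7 : b1⁻¹ * b3 = 1
            · rw [h7, map_one, hd_one]
            · apply hd_other hne
              rw [hd_of]
              exact h7
          rw [hd_of] at h6
          exact hb2' h6
        intro y hy
        have h6 := hc' y hy
        rw [hcc] at h6
        exact h6
      · rw [mul_assoc, h1]
        have h3 : J z' = J z * b1 := by
          rw [← hJof, ← map_mul, ← hb1]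
          congr 1
          group
        rw [h3]
        group

end fixed

end Pool.Agent.R684.FP
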