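import Pool.Agent.R684.FP.Fsub

/-!
# Extensions by graph products of finite and torsion-free groups
-/

set_option autoImplicit false

namespace Pool.Agent.R684.FP

open Monoid.CoprodI (of)
open Pool.Agent.Y110.FJ
open Pool.Agent.R941.FJ (C_equiv C_le C_cyc mem_sup_normal)
open Pool.Agent.Y462.SS (Closed)

variable {C : ∀ (G : Type) [Group G], Prop}

/-- **the vertices in a finite set `S`, all classes fixed** -/
theorem rel_pure (hC : ClosedE C) (hF : FbC C) : ∀ (k : ℕ) (G V : Type) [Group G]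
    (Λ : SimpleGraph V) (A : V → Subgroup G) (N : Subgroup G) [N.Normal] (S : Set V),
    S.Finite → S.ncard = k → ∀ (K : Subgroup G) [K.Normal],
    IsGP Λ A N → Kil A N S K → C (G ⧸ K) → (∀ v ∈ S, ∀ g, g ∈ ClStab N (A v)) →
    (∀ v ∈ S, ∀ g : G, (∀ x, x ∈ A v ↔ g * x * g⁻¹ ∈ A v) → C ↥(A v ⊔ Subgroup.zpowers g)) →
    C G := by
  intro k
  induction k with
  | zero =>
    intro G V _ Λ A N _ S hS hk K _ h hK hQ _ _
    have hS0 : S = ∅ := (Set.ncard_eq_zero hS).1 hk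
    have hK0 : K = ⊥ := by
      rw [eq_bot_iff]
      intro x hx
      have h1 := hK.kill N (MonoidHom.id N) (fun w hw => by
        rw [hS0] at hw
        exact absurd hw (Set.notMem_empty w)) ⟨x, hK.le hx⟩ hx
      exact congrArg Subtype.val h1
    subst hK0
    exact C_equiv hC.base (QuotientGroup.quotientBot (G := G)).symm hQ
  | succ k ih =>
    intro G V _ Λ A N _ S hS hk K hKn h hK hQ hp hB
    obtain ⟨v, hv⟩ : ∃ v, v ∈ S := by
      by_contra hno
      push Not at hno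
      have : S = ∅ := Set.eq_empty_of_forall_notMem hno
      rw [this, Set.ncard_empty] at hk
      omega
    have hMn := Mv_normal h (hp v hv)
    have hMK : Mv Λ A v ≤ K := by
      refine iSup_le fun c x hx => ?_
      rw [mem_Bc] at hx
      have h1 := hKn.conj_mem _ (hK.mem v hv hx) (rp Λ A v c)
      have h2 : rp Λ A v c * ((rp Λ A v c)⁻¹ * x * rp Λ A v c) * (rp Λ A v c)⁻¹ = x := by group
      rwa [h2] at h1
    refine vstep hC hF h (hp v hv) (hB v hv) ?_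
    have hN' : (N.map (QuotientGroup.mk' (Mv Λ A v))).Normal :=
      Subgroup.Normal.map inferInstance _ (QuotientGroup.mk'_surjective _)
    have hK' : (K.map (QuotientGroup.mk' (Mv Λ A v))).Normal :=
      Subgroup.Normal.map inferInstance _ (QuotientGroup.mk'_surjective _)
    have hvk := Mv_kil h v
    have hgp := h.quot {v} (Mv Λ A v) hvk.mem hvk.kill
    obtain ⟨S', hS'⟩ : ∃ S' : Set {w // w ∉ ({v} : Set V)}, S' = {w | w.1 ∈ S} := ⟨_, rfl⟩
    have himg : Subtype.val '' S' = S \ {v} := by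
      rw [hS']
      ext w
      constructor
      · rintro ⟨u, hu, rfl⟩
        exact ⟨hu, u.2⟩
      · rintro ⟨hw1, hw2⟩
        exact ⟨⟨w, hw2⟩, hw1, rfl⟩
    have hS'f : S'.Finite := by
      refine Set.Finite.of_finite_image (f := Subtype.val) ?_ Subtype.val_injective.injOn
      rw [himg]
      exact hS.sdiff
    have hS'n : S'.ncard = k := by
      have h1 := Set.ncard_image_of_injective S' (Subtype.val_injective)
      rw [himg, Set.ncard_sdiff_singleton_of_mem hv, hk] at h1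
      omega
    refine ih (G ⧸ Mv Λ A v) {w // w ∉ ({v} : Set V)} _ _ _ S' hS'f hS'n
      (K.map (QuotientGroup.mk' (Mv Λ A v))) hgp ?_
      (C_equiv hC.base (QuotientGroup.quotientQuotientEquivQuotient (Mv Λ A v) K hMK) hQ) ?_ ?_
    · refine ⟨Subgroup.map_mono hK.le, fun w hw => Subgroup.map_mono (hK.mem w.1 ?_), ?_⟩
      · rw [hS'] at hw
        exact hw
      · intro H _ F hFw
        rintro ⟨_, hk2⟩ ⟨x, hx, rfl⟩
        have hxN : x ∈ N := hK.le hx
        have h1 := hK.kill H (F.comp ((QuotientGroup.mk' (Mv Λ A v)).subgroupMap N)) (by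
          intro w hw a ha
          by_cases hwv : w = v
          · have h2 : (QuotientGroup.mk' (Mv Λ A v)).subgroupMap N a = 1 := by
              apply Subtype.ext
              show QuotientGroup.mk' (Mv Λ A v) (a : G) = 1
              exact (QuotientGroup.eq_one_iff _).2 (A_le_Mv h (by rw [← hwv]; exact ha))
            show F ((QuotientGroup.mk' (Mv Λ A v)).subgroupMap N a) = 1
            rw [h2, map_one]
          · exact hFw ⟨w, hwv⟩ (by rw [hS']; exact hw) _ ⟨a, ha, rfl⟩) ⟨x, hxN⟩ hx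
        exact h1
    · rintro ⟨w, hw⟩ hwS g
      obtain ⟨g, rfl⟩ := QuotientGroup.mk_surjective g
      rw [hS'] at hwS
      exact quot_cl (hp w hwS g)
    · rintro ⟨w, hw⟩ hwS g hg
      obtain ⟨g, rfl⟩ := QuotientGroup.mk_surjective g
      rw [hS'] at hwS
      exact quot_cyc hC h hvk hw (hB w hwS) (hp w hwS g) hg

section fin

variable {G V : Type} [Group G] {Λ : SimpleGraph V} {A : V → Subgroup G} {N : Subgroup G}

/-- finite index -/
theorem rel_fin (hC : ClosedE C) (hF : FbC C) [hN : N.Normal] (h : IsGP Λ A N) {S : Set V}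
    (hS : S.Finite) {K : Subgroup G} [hKn : K.Normal] (hK : Kil A N S K)
    (hp : ∀ w ∈ S, (ClStab N (A w)).FiniteIndex)
    (hB : ∀ w ∈ S, ∀ g : G, (∀ x, x ∈ A w ↔ g * x * g⁻¹ ∈ A w) → C ↥(A w ⊔ Subgroup.zpowers g))
    (hQ : C (G ⧸ K)) : C G := by
  have hfin : Finite S := hS
  obtain ⟨G₂, hG₂⟩ : ∃ G₂ : Subgroup G, G₂ = ⨅ w : S, ClStab N (A w.1) := ⟨_, rfl⟩
  have hfi : G₂.FiniteIndex := by
    have : ∀ w : S, (ClStab N (A w.1)).FiniteIndex := fun w => hp w.1 w.2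
    rw [hG₂]
    exact Subgroup.finiteIndex_iInf this
  have hNG : N ≤ G₂ := by
    rw [hG₂]
    refine le_iInf fun w n hn => ⟨n⁻¹, N.inv_mem hn, fun x => ?_⟩
    have : n⁻¹ * (n * x * n⁻¹) * n⁻¹⁻¹ = x := by group
    rw [this]
  refine hC.base.finiteIndex _ G₂ hfi ?_
  refine rel_pure hC hF _ G₂ V Λ _ (N.subgroupOf G₂) S hS rfl (K.subgroupOf G₂) (h.sub hNG)
    (hK.sub hNG) ?_ ?_ ?_
  · refine Pool.Agent.R941.FJ.quot hC.base G₂ ?_
    exact hC.base.of_injective _ (G ⧸ K) (Subgroup.subtype _) Subtype.val_injective hQ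
  · intro w hw g
    have h3 : G₂ ≤ ClStab N (A w) := by
      rw [hG₂]
      exact iInf_le (fun w : S => ClStab N (A w.1)) ⟨w, hw⟩
    have h2 : (g : G) ∈ ClStab N (A w) := h3 g.2
    obtain ⟨n, hn, hnx⟩ := h2
    exact ⟨⟨n, hNG hn⟩, hn, fun x => hnx x⟩
  · intro w hw g hg
    exact sub_cyc hC.base ((h.le w).trans hNG) (hB w hw) g hg

/-- **the relative theorem** -/
theorem rel_ext (hC : ClosedE C) (hF : FbC C) [hN : N.Normal] (h : IsGP Λ A N) {S : Set V}
    (hS : S.Finite) {K : Subgroup G} [hKn : K.Normal] (hK : Kil A N S K)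
    (hp : ∀ w ∈ S, ∀ g : G, ∃ k : ℕ, 0 < k ∧ g ^ k ∈ ClStab N (A w))
    (hB : ∀ w ∈ S, ∀ g : G, (∀ x, x ∈ A w ↔ g * x * g⁻¹ ∈ A w) → C ↥(A w ⊔ Subgroup.zpowers g))
    (hT : ∀ g : G ⧸ K, C ↥(N.map (QuotientGroup.mk' K) ⊔ Subgroup.zpowers g))
    (hQ : C (G ⧸ N)) : C G := by
  have key : ∀ g : G, C ↥(N ⊔ Subgroup.zpowers g) := by
    intro g
    obtain ⟨G₁, hG₁⟩ : ∃ G₁ : Subgroup G, G₁ = N ⊔ Subgroup.zpowers g := ⟨_, rfl⟩
    rw [← hG₁]
    have hNG : N ≤ G₁ := by rw [hG₁]; exact le_sup_left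
    have hgG : g ∈ G₁ := by rw [hG₁]; exact Subgroup.mem_sup_right (Subgroup.mem_zpowers g)
    refine rel_fin hC hF (h.sub hNG) hS (K := K.subgroupOf G₁) (hK.sub hNG) ?_ ?_ ?_
    · intro w hw
      obtain ⟨k, hk, hkw⟩ := hp w hw g
      refine fin_idx (N := N.subgroupOf G₁) (⟨g, hgG⟩ : G₁) ?_ _ ?_ hk ?_
      · apply Subgroup.map_injective G₁.subtype_injective
        rw [Subgroup.map_sup, Subgroup.subgroupOf_map_subtype, inf_eq_left.2 hNG,
          MonoidHom.map_zpowers, ← MonoidHom.range_eq_map, Subgroup.range_subtype]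
        exact hG₁.symm
      · intro n hn
        refine ⟨n⁻¹, inv_mem hn, fun x => ?_⟩
        have : n⁻¹ * (n * x * n⁻¹) * n⁻¹⁻¹ = x := by group
        rw [this]
      · obtain ⟨n, hn, hnx⟩ := hkw
        exact ⟨⟨n, hNG hn⟩, hn, fun x => hnx x⟩
    · intro w hw x hx
      exact sub_cyc hC.base ((h.le w).trans hNG) (hB w hw) x hx
    · refine Pool.Agent.R941.FJ.quot hC.base G₁ ?_
      rw [hG₁, Subgroup.map_sup, MonoidHom.map_zpowers]
      exact hT _
  refine Pool.Agent.Y529.FJ.t_ext C hC G N ?_ hQ fun g _ => key g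
  exact C_le hC.base le_sup_left (key 1)

/-- a power of each element fixes the class of a finite vertex group -/
theorem fin_cls [Finite V] [hN : N.Normal] (h : IsGP Λ A N)
    (hA : ∀ v, Finite (A v) ∨ ∀ a ∈ A v, IsOfFinOrder a → a = 1) (v : V) (hv : Finite (A v))
    (g : G) : ∃ k : ℕ, 0 < k ∧ g ^ k ∈ ClStab N (A v) := by
  classical
  -- the finite set of representatives
  obtain ⟨𝓕, h𝓕⟩ : ∃ 𝓕 : Set (Subgroup G), 𝓕 = {B | ∃ K : Set V, Finite (Kf A K) ∧ B ≤ Kf A K} :=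
    ⟨_, rfl⟩
  have hfin : 𝓕.Finite := by
    have h1 : 𝓕 = ⋃ K : Set V, {B | Finite (Kf A K) ∧ B ≤ Kf A K} := by
      rw [h𝓕]
      ext B
      simp
    rw [h1]
    refine Set.finite_iUnion fun K => ?_
    by_cases hK : Finite (Kf A K)
    · have h2 : ({T | T ⊆ ((Kf A K : Subgroup G) : Set G)} : Set (Set G)).Finite :=
        Set.Finite.finite_subsets (Set.toFinite _)
      refine Set.Finite.of_finite_image (f := fun B : Subgroup G => (B : Set G))
        (h2.subset ?_) SetLike.coe_injective.injOn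
      rintro _ ⟨B, ⟨-, hB⟩, rfl⟩
      exact hB
    · convert Set.finite_empty
      ext B
      simp [hK]
  have hrep : ∀ i : ℕ, ∃ B ∈ 𝓕, ∃ n ∈ N, ∀ x, x ∈ A v ↔ n * (g ^ i * x * (g ^ i)⁻¹) * n⁻¹ ∈ B := by
    intro i
    obtain ⟨K, hK1, hK2, n, hn, hK3⟩ := fsub _ G V rfl Λ A N h hA
      ((A v).map (MulAut.conj (g ^ i)).toMonoidHom) (map_fin _ _ hv) (by
        rintro _ ⟨x, hx, rfl⟩
        exact hN.conj_mem x (h.le v hx) _)
    refine ⟨(A v).map (MulAut.conj (n⁻¹ * g ^ i)).toMonoidHom, ?_, n⁻¹, inv_mem hn, fun x => ?_⟩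
    · rw [h𝓕]
      refine ⟨K, Kf_finite h hK1 hK2, ?_⟩
      rintro _ ⟨x, hx, rfl⟩
      have h1 := hK3 (g ^ i * x * (g ^ i)⁻¹) ⟨x, hx, rfl⟩
      have h2 : n⁻¹ * (g ^ i * x * (g ^ i)⁻¹) * n = n⁻¹ * g ^ i * x * (n⁻¹ * g ^ i)⁻¹ := by group
      rw [h2] at h1
      exact h1
    · have h2 : n⁻¹ * (g ^ i * x * (g ^ i)⁻¹) * n⁻¹⁻¹ = n⁻¹ * g ^ i * x * (n⁻¹ * g ^ i)⁻¹ := by group
      rw [h2]
      constructor
      · intro hx
        exact ⟨x, hx, rfl⟩
      · rintro ⟨y, hy, hyx⟩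
        have h3 : n⁻¹ * g ^ i * y * (n⁻¹ * g ^ i)⁻¹ = n⁻¹ * g ^ i * x * (n⁻¹ * g ^ i)⁻¹ := hyx
        have h4 : y = x := by
          have h5 : (n⁻¹ * g ^ i)⁻¹ * (n⁻¹ * g ^ i * y * (n⁻¹ * g ^ i)⁻¹) * (n⁻¹ * g ^ i) =
              (n⁻¹ * g ^ i)⁻¹ * (n⁻¹ * g ^ i * x * (n⁻¹ * g ^ i)⁻¹) * (n⁻¹ * g ^ i) := by rw [h3]
          have h6 : ∀ z, (n⁻¹ * g ^ i)⁻¹ * (n⁻¹ * g ^ i * z * (n⁻¹ * g ^ i)⁻¹) * (n⁻¹ * g ^ i) = z := by
            intro z
            group
          rwa [h6, h6] at h5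
        rw [← h4]
        exact hy
  choose fB hfB fn hfn hfx using hrep
  have hinf : ∃ i j : ℕ, i < j ∧ fB i = fB j := by
    have hF : Finite 𝓕 := hfin
    obtain ⟨i, j, hij, he⟩ := Finite.exists_ne_map_eq_of_infinite
      (fun i : ℕ => (⟨fB i, hfB i⟩ : 𝓕))
    have he' : fB i = fB j := congrArg Subtype.val he
    rcases lt_or_gt_of_ne hij with h1 | h1
    · exact ⟨i, j, h1, he'⟩
    · exact ⟨j, i, h1, he'.symm⟩
  obtain ⟨i, j, hij, he⟩ := hinf
  refine ⟨j - i, by omega, ?_⟩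
  -- `g ^ (j - i)`
  obtain ⟨m, hm⟩ : ∃ m, m = j - i := ⟨_, rfl⟩
  have hj : j = i + m := by omega
  rw [← hm]
  have h1 : ∀ x, x ∈ A v ↔ fn i * (g ^ i * x * (g ^ i)⁻¹) * (fn i)⁻¹ ∈ fB i := hfx i
  have h2 : ∀ x, x ∈ A v ↔ fn j * (g ^ j * x * (g ^ j)⁻¹) * (fn j)⁻¹ ∈ fB i := by
    rw [he]
    exact hfx j
  obtain ⟨p, hp⟩ : ∃ p, p = (g ^ i)⁻¹ * ((fn i)⁻¹ * fn j) * g ^ i := ⟨_, rfl⟩
  have hpN : p ∈ N := by
    rw [hp]
    have := hN.conj_mem _ (mul_mem (inv_mem (hfn i)) (hfn j)) (g ^ i)⁻¹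
    rwa [inv_inv] at this
  refine ⟨p, hpN, fun x => ?_⟩
  rw [h2 x, h1 (p * (g ^ m * x * (g ^ m)⁻¹) * p⁻¹), hp, hj, pow_add]
  have h3 : fn i * (g ^ i * ((g ^ i)⁻¹ * ((fn i)⁻¹ * fn (i + m)) * g ^ i *
      (g ^ m * x * (g ^ m)⁻¹) * ((g ^ i)⁻¹ * ((fn i)⁻¹ * fn (i + m)) * g ^ i)⁻¹) * (g ^ i)⁻¹) *
      (fn i)⁻¹ = fn (i + m) * (g ^ i * g ^ m * x * (g ^ i * g ^ m)⁻¹) * (fn (i + m))⁻¹ := by group
  rw [h3]

/-- the normal closure of the finite vertex groups is characteristic -/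
theorem Kd_torsion [Finite V] (h : IsGP Λ A N)
    (hA : ∀ v, Finite (A v) ∨ ∀ a ∈ A v, IsOfFinOrder a → a = 1) :
    Kd A N {v | Finite (A v)} = Subgroup.closure {x | x ∈ N ∧ IsOfFinOrder x} := by
  apply le_antisymm
  · rw [Kd, Subgroup.closure_le]
    rintro x ⟨w, hw, n, hn, hx⟩
    have hw' : Finite (A w) := hw
    have hxN : x ∈ N := by
      have := N.mul_mem (N.mul_mem (N.inv_mem hn) (h.le w hx)) hn
      have h2 : n⁻¹ * (n * x * n⁻¹) * n = x := by group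
      rwa [h2] at this
    refine Subgroup.subset_closure ⟨hxN, ?_⟩
    have h1 : IsOfFinOrder (⟨n * x * n⁻¹, hx⟩ : A w) := isOfFinOrder_of_finite _
    have h2 : IsOfFinOrder (n * x * n⁻¹) := (A w).subtype.isOfFinOrder h1
    have h3 := (MulAut.conj n⁻¹).toMonoidHom.isOfFinOrder h2
    have h4 : (MulAut.conj n⁻¹).toMonoidHom (n * x * n⁻¹) = x := by
      show n⁻¹ * (n * x * n⁻¹) * n⁻¹⁻¹ = x
      group
    rwa [h4] at h3
  · rw [Subgroup.closure_le]
    rintro x ⟨hxN, hx⟩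
    have hfin : Finite (Subgroup.zpowers x) := (finite_zpowers.2 hx).to_subtype
    obtain ⟨K, hK1, hK2, n, hn, hK3⟩ := fsub _ G V rfl Λ A N h hA (Subgroup.zpowers x) hfin
      (by rw [Subgroup.zpowers_le]; exact hxN)
    have h1 := hK3 x (Subgroup.mem_zpowers x)
    have h2 : Kf A K ≤ Kd A N {v | Finite (A v)} :=
      iSup₂_le fun w hw => (Kd_kil h _).mem w (hK2 w hw)
    have h3 := Kd_N _ hn (h2 h1)
    have h4 : n * (n⁻¹ * x * n) * n⁻¹ = x := by group
    rwa [h4] at h3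

theorem tors_normal [hN : N.Normal] :
    (Subgroup.closure {x | x ∈ N ∧ IsOfFinOrder x}).Normal := by
  refine ⟨fun x hx g => ?_⟩
  have h1 : Subgroup.closure {x | x ∈ N ∧ IsOfFinOrder x} ≤
      (Subgroup.closure {x | x ∈ N ∧ IsOfFinOrder x}).comap (MulAut.conj g).toMonoidHom := by
    rw [Subgroup.closure_le]
    rintro y ⟨hy, hy2⟩
    exact Subgroup.subset_closure ⟨hN.conj_mem y hy g, (MulAut.conj g).toMonoidHom.isOfFinOrder hy2⟩
  exact h1 hx

/-- finite-by-cyclic groups -/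
theorem fin_cyc (hC : ClosedE C) {B : Subgroup G} (hB : Finite B) (g : G)
    (hg : ∀ x, x ∈ B ↔ g * x * g⁻¹ ∈ B) : C ↥(B ⊔ Subgroup.zpowers g) := by
  obtain ⟨u, hu⟩ : ∃ u : Equiv.Perm B, ∀ x : B, ((u x : B) : G) = g * x * g⁻¹ := by
    refine ⟨⟨fun x => ⟨g * x * g⁻¹, (hg x).1 x.2⟩, fun x => ⟨g⁻¹ * x * g, (hg _).2 ?_⟩, ?_, ?_⟩,
      fun x => rfl⟩
    · have : g * (g⁻¹ * (x : G) * g) * g⁻¹ = x := by group
      rw [this]
      exact x.2
    · intro x
      apply Subtype.ext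
      show g⁻¹ * (g * (x : G) * g⁻¹) * g = x
      group
    · intro x
      apply Subtype.ext
      show g * (g⁻¹ * (x : G) * g) * g⁻¹ = x
      group
  refine cyc_real hC B g hg (MulAction.toPermHom B B) ?_ u ?_
    (Pool.Agent.Y430.SS.of_finite hC.base _ inferInstance)
  · rw [injective_iff_map_eq_one]
    intro x hx
    have h1 : (MulAction.toPermHom B B x) 1 = 1 := by rw [hx]; rfl
    have h2 : x * 1 = 1 := h1
    rwa [mul_one] at h2
  · intro x y hxy
    rw [eq_mul_inv_iff_mul_eq]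
    ext z : 1
    apply Subtype.ext
    show (y : G) * ((u z : B) : G) = ((u (x * z) : B) : G)
    rw [hu, hu, hxy]
    show g * (x : G) * g⁻¹ * (g * (z : G) * g⁻¹) = g * ((x : G) * (z : G)) * g⁻¹
    group

/-- **extensions by graph products of finite and torsion-free groups** -/
theorem mix_ext (hC : ClosedE C) (hF : FbC C) [Finite V] [hN : N.Normal] (h : IsGP Λ A N)
    (hQ : C (G ⧸ N)) (hA : ∀ v, Finite (A v) ∨ ∀ a ∈ A v, IsOfFinOrder a → a = 1)
    (hT : ∀ α : MulAut ↥(⨆ v, ⨆ _ : ¬ Finite (A v), A v),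
      C (↥(⨆ v, ⨆ _ : ¬ Finite (A v), A v) ⋊[zpowersHom _ α] Multiplicative ℤ)) : C G := by
  obtain ⟨K, hKdef⟩ : ∃ K, K = Kd A N {v | Finite (A v)} := ⟨_, rfl⟩
  have hK : Kil A N {v | Finite (A v)} K := hKdef ▸ Kd_kil h _
  have hKn : K.Normal := by
    rw [hKdef, Kd_torsion h hA]
    exact tors_normal
  obtain ⟨T, hTdef⟩ : ∃ T, T = Kf A {v | ¬ Finite (A v)} := ⟨_, rfl⟩
  have hT' : ∀ α : MulAut T, C (T ⋊[zpowersHom _ α] Multiplicative ℤ) := by
    rw [hTdef]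
    exact hT
  have hTN : T ≤ N := by rw [hTdef]; exact iSup₂_le fun w _ => h.le w
  -- the quotient of the kernel
  obtain ⟨φ, hφ⟩ : ∃ φ : T →* N.map (QuotientGroup.mk' K), ∀ t, ((φ t : N.map (QuotientGroup.mk' K)) :
      G ⧸ K) = ((t : G) : G ⧸ K) :=
    ⟨((QuotientGroup.mk' K).comp T.subtype).codRestrict _ fun t => ⟨t, hTN t.2, rfl⟩, fun t => rfl⟩
  have hφb : Function.Bijective φ := by
    constructor
    · rw [injective_iff_map_eq_one]
      intro t ht
      have h1 : ((t : G) : G ⧸ K) = 1 := by rw [← hφ, ht]; rfl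
      have h2 : (t : G) ∈ K := (QuotientGroup.eq_one_iff _).1 h1
      apply Subtype.ext
      refine Kf_inf h (F := {v | ¬ Finite (A v)}) ?_ ?_
      · have hTK : T ≤ Kf A {v | ¬ Finite (A v)} := hTdef.le
        exact hTK t.2
      · have h3 : ({v | ¬ Finite (A v)} : Set V)ᶜ = {v | Finite (A v)} := by
          ext v
          simp
        rw [h3, ← hKdef]
        exact h2
    · have h1 : N.map (QuotientGroup.mk' K) ≤ T.map (QuotientGroup.mk' K) := by
        conv_lhs => rw [← h.sup]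
        rw [Subgroup.map_iSup]
        refine iSup_le fun w => ?_
        by_cases hw : Finite (A w)
        · rintro _ ⟨x, hx, rfl⟩
          have : QuotientGroup.mk' K x = 1 := (QuotientGroup.eq_one_iff _).2 (hK.mem w hw hx)
          rw [this]
          exact one_mem _
        · refine Subgroup.map_mono ?_
          rw [hTdef]
          exact le_Kf hw
      rintro ⟨y, hy⟩
      obtain ⟨t, ht, hty⟩ := h1 hy
      refine ⟨⟨t, ht⟩, Subtype.ext ?_⟩
      rw [hφ]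
      exact hty
  obtain ⟨e, he⟩ : ∃ e : T ≃* N.map (QuotientGroup.mk' K), ∀ t, ((e t : N.map (QuotientGroup.mk' K)) :
      G ⧸ K) = ((t : G) : G ⧸ K) := ⟨MulEquiv.ofBijective φ hφb, hφ⟩
  have hN' : (N.map (QuotientGroup.mk' K)).Normal :=
    Subgroup.Normal.map inferInstance _ (QuotientGroup.mk'_surjective _)
  refine rel_ext hC hF h (S := {v | Finite (A v)}) (Set.toFinite _) hK
    (fun w hw g => fin_cls h hA w hw g) (fun w hw g hg => fin_cyc hC hw g hg) ?_ hQ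
  intro g
  obtain ⟨c, hc⟩ : ∃ c : MulAut (N.map (QuotientGroup.mk' K)), c = MulAut.conjNormal g := ⟨_, rfl⟩
  obtain ⟨α, hα⟩ : ∃ α : MulAut T, α = (e.trans c).trans e.symm := ⟨_, rfl⟩
  refine cyc_real hC (N.map (QuotientGroup.mk' K)) g (fun x => ⟨fun hx => hN'.conj_mem x hx g,
      fun hx => ?_⟩)
    ((SemidirectProduct.inl (φ := zpowersHom (MulAut T) α)).comp e.symm.toMonoidHom) ?_
    (SemidirectProduct.inr (Multiplicative.ofAdd 1)) ?_ (hT' α)
  · have := hN'.conj_mem _ hx g⁻¹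
    have h2 : g⁻¹ * (g * x * g⁻¹) * g⁻¹⁻¹ = x := by group
    rwa [h2] at this
  · exact SemidirectProduct.inl_injective.comp e.symm.injective
  · intro x y hxy
    have h1 : y = c x := by
      apply Subtype.ext
      rw [hc, MulAut.conjNormal_apply, hxy]
    show SemidirectProduct.inl (e.symm y) = SemidirectProduct.inr (Multiplicative.ofAdd 1) *
      SemidirectProduct.inl (e.symm x) * (SemidirectProduct.inr (Multiplicative.ofAdd 1))⁻¹
    rw [← map_inv, ← SemidirectProduct.inl_aut]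
    congr 1
    rw [zpowersHom_apply, toAdd_ofAdd, zpow_one, hα, h1]
    show e.symm (c x) = e.symm (c (e (e.symm x)))
    rw [e.apply_symm_apply]

end fin

end Pool.Agent.R684.FP
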