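import Pool.Agent.R684.FP.Three
import Pool.Agent.R684.FP.Main

/-!
# Automorphisms of a free product of three groups and classes of groups
-/

set_option autoImplicit false

namespace Pool.Agent.R684.FP

open Monoid.CoprodI (of)
open Pool.Agent.Y110.FJ
open Pool.Agent.R941.FJ (C_equiv C_le C_cyc mem_sup_normal)
open Pool.Agent.Y462.SS (Closed)

variable {C : ∀ (G : Type) [Group G], Prop}

/-- the holomorph -/
abbrev Hol (B : Type) [Group B] : Type := B ⋊[MonoidHom.id (MulAut B)] MulAut B

/-- cyclic extensions of groups whose holomorph is in the class -/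
theorem hol_cyc (hC : ClosedE C) {G B : Type} [Group G] [Group B] (K : Subgroup G) (e : K ≃* B)
    (hB : C (Hol B)) (g : G) (hg : ∀ x, x ∈ K ↔ g * x * g⁻¹ ∈ K) :
    C ↥(K ⊔ Subgroup.zpowers g) := by
  -- the conjugation on `K`
  let c : K →* K :=
    { toFun := fun x => ⟨g * x * g⁻¹, (hg x).1 x.2⟩
      map_one' := Subtype.ext (by simp)
      map_mul' := fun x y => Subtype.ext (by
        show g * ((x : G) * y) * g⁻¹ = g * x * g⁻¹ * (g * y * g⁻¹)
        group) }
  have hc : Function.Bijective c := by
    constructor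
    · intro x y hxy
      have h1 : g * (x : G) * g⁻¹ = g * y * g⁻¹ := congrArg Subtype.val hxy
      rw [mul_left_inj, mul_right_inj] at h1
      exact Subtype.ext h1
    · intro y
      refine ⟨⟨g⁻¹ * y * g, ?_⟩, Subtype.ext ?_⟩
      · rw [hg]
        have : g * (g⁻¹ * (y : G) * g) * g⁻¹ = y := by group
        rw [this]
        exact y.2
      · show g * (g⁻¹ * (y : G) * g) * g⁻¹ = y
        group
  obtain ⟨α, hα⟩ : ∃ α : MulAut B, α = (e.symm.trans (MulEquiv.ofBijective c hc)).trans e := ⟨_, rfl⟩
  refine cyc_real hC K g hg ((SemidirectProduct.inl (φ := MonoidHom.id (MulAut B))).comp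
    e.toMonoidHom) ?_ (SemidirectProduct.inr α) ?_ hB
  · exact SemidirectProduct.inl_injective.comp e.injective
  · intro x y hxy
    have h1 : y = c x := Subtype.ext hxy
    show SemidirectProduct.inl (e y) = SemidirectProduct.inr α *
      SemidirectProduct.inl (e x) * (SemidirectProduct.inr α)⁻¹
    rw [← map_inv, ← SemidirectProduct.inl_aut]
    congr 1
    rw [h1, hα]
    show e (c x) = e (c (e.symm (e x)))
    rw [e.symm_apply_apply]

/-- products of three groups -/
theorem C_pi3 (hC : Closed C) (B : Fin 3 → Type) [∀ i, Group (B i)] (h : ∀ i, C (B i)) :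
    C (∀ i, B i) := by
  refine hC.of_injective _ ((B 0 × B 1) × B 2)
    (((Pi.evalMonoidHom B 0).prod (Pi.evalMonoidHom B 1)).prod (Pi.evalMonoidHom B 2)) ?_
    (hC.prod _ _ (hC.prod _ _ (h 0) (h 1)) (h 2))
  intro x y hxy
  have h1 := congrArg Prod.fst hxy
  have h2 : x 0 = y 0 := congrArg Prod.fst h1
  have h3 : x 1 = y 1 := congrArg Prod.snd h1
  have h4 : x 2 = y 2 := congrArg Prod.snd hxy
  funext i
  rcases all3 0 i with rfl | rfl | rfl
  · exact h2
  · exact h3
  · exact h4

theorem C_of_free (hC : ClosedE C) (hF : FbC C) {G Q : Type} [Group G] [Group Q] (f : G →* Q)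
    (hf : IsFreeGroup f.ker) (hQ : C Q) : C G := by
  refine free_ext hC hF f.ker ?_
  exact hC.base.of_injective _ _ (QuotientGroup.kerLift f) (QuotientGroup.kerLift_injective f) hQ

section ee

variable {A : Fin 3 → Type} [∀ i, Group (A i)]

/-- the group of outer automorphisms -/
abbrev EE (A : Fin 3 → Type) [∀ i, Group (A i)] : Type :=
  Monoid.CoprodI A ⋊[autOf fa] (∀ i, MulAut (A i))

open Classical in
/-- the homomorphism to the product of the holomorphs on the free product -/
noncomputable def pN (A : Fin 3 → Type) [∀ i, Group (A i)] :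
    Monoid.CoprodI A →* (∀ i, Hol (A i)) :=
  Monoid.CoprodI.lift fun i =>
    (MonoidHom.mulSingle (fun i => Hol (A i)) i).comp (SemidirectProduct.inl)

/-- the homomorphism to the product of the holomorphs on the automorphisms of the factors -/
def pP (A : Fin 3 → Type) [∀ i, Group (A i)] : (∀ i, MulAut (A i)) →* (∀ i, Hol (A i)) where
  toFun p i := SemidirectProduct.inr (p i)
  map_one' := by
    funext i
    exact map_one _
  map_mul' p q := by
    funext i
    exact map_mul _ _ _

theorem pN_of (i : Fin 3) (a : A i) : pN A (of a) = Pi.mulSingle i (SemidirectProduct.inl a) := by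
  classical
  rw [pN, Monoid.CoprodI.lift_of]
  show MonoidHom.mulSingle (fun i => Hol (A i)) i _ = _
  rw [MonoidHom.mulSingle_apply]

/-- the homomorphism to the product of the holomorphs -/
noncomputable def pE (A : Fin 3 → Type) [∀ i, Group (A i)] : EE A →* (∀ i, Hol (A i)) :=
  SemidirectProduct.lift (pN A) (pP A) (by
    intro p
    apply Monoid.CoprodI.ext_hom
    intro i
    ext a : 1
    show pN A (fa p (of a)) = pP A p * pN A (of a) * (pP A p)⁻¹
    rw [fa_of, pN_of, pN_of]
    funext j
    by_cases hj : j = i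
    · subst hj
      rw [Pi.mulSingle_eq_same, Pi.mul_apply, Pi.mul_apply, Pi.mulSingle_eq_same, Pi.inv_apply]
      show SemidirectProduct.inl (p j a) =
        SemidirectProduct.inr (p j) * SemidirectProduct.inl a * (SemidirectProduct.inr (p j))⁻¹
      rw [← map_inv, ← SemidirectProduct.inl_aut]
      rfl
    · rw [Pi.mulSingle_eq_of_ne hj, Pi.mul_apply, Pi.mul_apply, Pi.mulSingle_eq_of_ne hj,
        Pi.inv_apply, mul_one, mul_inv_cancel])

theorem pE_ker_free (A : Fin 3 → Type) [∀ i, Group (A i)] : IsFreeGroup (pE A).ker := by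
  have h1 : IsFreeGroup (pN A).ker := by
    refine ker_free (pN A) fun i => ?_
    intro a b hab
    have h1 : pN A (of a) = pN A (of b) := hab
    rw [pN_of, pN_of] at h1
    exact SemidirectProduct.inl_injective (Pi.mulSingle_injective (M := fun i => Hol (A i)) i h1)
  -- the kernel is contained in the free product
  have h2 : ∀ x : (pE A).ker, (x : EE A).right = 1 ∧ pN A (x : EE A).left = 1 := by
    intro x
    have h3 : pE A x = 1 := x.2
    have h4 : pN A (x : EE A).left * pP A (x : EE A).right = 1 := h3
    have h5 : (x : EE A).right = 1 := by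
      funext i
      have h6 := congrFun h4 i
      have h7 : (pN A (x : EE A).left i).right = 1 := by
        have h8 : ∀ z : Monoid.CoprodI A, (pN A z i).right = 1 := by
          intro z
          have h9 : (SemidirectProduct.rightHom.comp
              ((Pi.evalMonoidHom (fun i => Hol (A i)) i).comp (pN A))) = 1 := by
            apply Monoid.CoprodI.ext_hom
            intro j
            ext a : 1
            show (pN A (of a) i).right = 1
            rw [pN_of]
            by_cases hj : i = j
            · subst hj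
              rw [Pi.mulSingle_eq_same]
              rfl
            · rw [Pi.mulSingle_eq_of_ne hj]
              rfl
          exact DFunLike.congr_fun h9 z
        exact h8 _
      have h8 := congrArg SemidirectProduct.right h6
      rw [Pi.mul_apply, SemidirectProduct.mul_right, h7, one_mul] at h8
      exact h8
    refine ⟨h5, ?_⟩
    rw [h5, map_one, mul_one] at h4
    exact h4
  let g : (pE A).ker →* (pN A).ker :=
    { toFun := fun x => ⟨(x : EE A).left, (h2 x).2⟩
      map_one' := rfl
      map_mul' := fun x y => by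
        apply Subtype.ext
        show ((x : EE A) * (y : EE A)).left = (x : EE A).left * (y : EE A).left
        rw [SemidirectProduct.mul_left, (h2 x).1, map_one]
        rfl }
  have hg : Function.Injective g := by
    intro x y hxy
    apply Subtype.ext
    apply SemidirectProduct.ext
    · exact congrArg Subtype.val hxy
    · rw [(h2 x).1, (h2 y).1]
  exact IsFreeGroup.ofMulEquiv (MonoidHom.ofInjective hg).symm

theorem C_EE (hC : ClosedE C) (hF : FbC C) (h : ∀ i, C (Hol (A i))) : C (EE A) :=
  C_of_free hC hF (pE A) (pE_ker_free A) (C_pi3 hC.base _ h)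

/-- `δ` commutes with automorphisms of the factors -/
theorem dl_fa (p : ∀ i, MulAut (A i)) (x : Monoid.CoprodI A) :
    dl (fa p x) = autOf fa p * dl x * (autOf fa p)⁻¹ := by
  rw [eq_mul_inv_iff_mul_eq]
  induction x using Monoid.CoprodI.induction_on with
  | one => rw [map_one, map_one, one_mul, mul_one]
  | of i a =>
    rw [fa_of]
    apply aut_ext
    intro j y
    rw [MulAut.mul_apply, MulAut.mul_apply, dl_of, dl_of, autOf_apply, autOf_apply, fa_of, cj_of,
      cj_of, map_mul, map_mul, map_inv, fa_of]
    by_cases hj : j = i + 1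
    · subst hj
      rw [ct_self, ct_self, map_inv, fa_of]
    · rw [ct_ne hj, ct_ne hj, map_one]
  | mul x y hx hy =>
    rw [map_mul, map_mul, mul_assoc, hy, ← mul_assoc, hx, map_mul, mul_assoc]

/-- the homomorphism to the automorphism group -/
def La (A : Fin 3 → Type) [∀ i, Group (A i)] : EE A →* MulAut (Monoid.CoprodI A) :=
  SemidirectProduct.lift dl (autOf fa) (by
    intro p
    refine MonoidHom.ext fun x => ?_
    exact dl_fa p x)

theorem La_apply (x : EE A) : La A x = dl x.left * autOf fa x.right := rfl

theorem La_inn [∀ i, Nontrivial (A i)] {x : EE A} {n : Monoid.CoprodI A}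
    (h : La A x = MulAut.conj n) : x = 1 ∧ n = 1 := by
  obtain ⟨h1, h2, h3⟩ := indep (x := x.left) (p := x.right) h
  exact ⟨SemidirectProduct.ext h1 h2, h3⟩

/-- the extension by the inner automorphisms -/
abbrev FF (A : Fin 3 → Type) [∀ i, Group (A i)] : Type := Monoid.CoprodI A ⋊[La A] EE A

/-- the homomorphism to the automorphism group -/
def Om (A : Fin 3 → Type) [∀ i, Group (A i)] : FF A →* MulAut (Monoid.CoprodI A) :=
  SemidirectProduct.lift MulAut.conj (La A) (by
    intro p
    refine MonoidHom.ext fun x => MulEquiv.ext fun y => ?_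
    show MulAut.conj (La A p x) y = La A p (MulAut.conj x ((La A p)⁻¹ y))
    rw [MulAut.conj_apply, MulAut.conj_apply, map_mul, map_mul, map_inv]
    congr 2
    exact ((La A p).apply_symm_apply y).symm)

theorem Om_apply (x : FF A) : Om A x = MulAut.conj x.left * La A x.right := rfl

theorem Om_injective [∀ i, Nontrivial (A i)] : Function.Injective (Om A) := by
  rw [injective_iff_map_eq_one]
  intro x hx
  rw [Om_apply, mul_eq_one_iff_inv_eq, ← map_inv] at hx
  obtain ⟨h1, h2⟩ := La_inn hx.symm
  exact SemidirectProduct.ext (inv_eq_one.1 h2) h1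

end ee

/-- the image of a free product under an injective homomorphism -/
theorem isFreeProd_of_inj {ι G : Type} {A : ι → Type} [∀ i, Group (A i)] [Group G]
    (f : Monoid.CoprodI A →* G) (hf : Function.Injective f) :
    IsFreeProd f.range (fun i => (f.comp (of (i := i))).range) := by
  constructor
  · rw [← Monoid.CoprodI.range_eq_iSup, Monoid.CoprodI.lift_comp_of']
  · have hi : ∀ i, Function.Injective (f.comp (of (M := A) (i := i))) := fun i =>
      hf.comp (Monoid.CoprodI.of_injective i)
    let e : ∀ i, A i ≃* (f.comp (of (M := A) (i := i))).range := fun i => MonoidHom.ofInjective (hi i)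
    let μ : Monoid.CoprodI (fun i => (f.comp (of (M := A) (i := i))).range) →* Monoid.CoprodI A :=
      Monoid.CoprodI.lift fun i => of.comp (e i).symm.toMonoidHom
    let ν : Monoid.CoprodI A →* Monoid.CoprodI (fun i => (f.comp (of (M := A) (i := i))).range) :=
      Monoid.CoprodI.lift fun i => (of (M := fun i => (f.comp (of (M := A) (i := i))).range)
        (i := i)).comp (e i).toMonoidHom
    have h1 : ν.comp μ = MonoidHom.id _ := by
      apply Monoid.CoprodI.ext_hom
      intro i
      ext x : 1
      show ν (μ (of (M := fun i => (f.comp (of (M := A) (i := i))).range) x)) =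
        of (M := fun i => (f.comp (of (M := A) (i := i))).range) x
      have h2 : μ (of (M := fun i => (f.comp (of (M := A) (i := i))).range) x) =
          of ((e i).symm x) := by
        show Monoid.CoprodI.lift _ _ = _
        rw [Monoid.CoprodI.lift_of]
        rfl
      have h3 : ∀ y : A i, ν (of y) = of (M := fun i => (f.comp (of (M := A) (i := i))).range)
          (e i y) := by
        intro y
        show Monoid.CoprodI.lift _ _ = _
        rw [Monoid.CoprodI.lift_of]
        rfl
      rw [h2, h3, (e i).apply_symm_apply]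
    have hμ : Function.Injective μ := by
      intro x y hxy
      have h2 := congrArg ν hxy
      have h3 : ∀ z, ν (μ z) = z := fun z => DFunLike.congr_fun h1 z
      rwa [h3, h3] at h2
    have h2 : (Monoid.CoprodI.lift fun i => ((f.comp (of (M := A) (i := i))).range).subtype) =
        f.comp μ := by
      apply Monoid.CoprodI.ext_hom
      intro i
      ext x : 1
      show (Monoid.CoprodI.lift fun i => ((f.comp (of (M := A) (i := i))).range).subtype)
          (of (M := fun i => (f.comp (of (M := A) (i := i))).range) x) =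
        f (μ (of (M := fun i => (f.comp (of (M := A) (i := i))).range) x))
      have h2 : μ (of (M := fun i => (f.comp (of (M := A) (i := i))).range) x) =
          of ((e i).symm x) := by
        show Monoid.CoprodI.lift _ _ = _
        rw [Monoid.CoprodI.lift_of]
        rfl
      rw [h2, Monoid.CoprodI.lift_of]
      have h3 := congrArg Subtype.val ((e i).apply_symm_apply x)
      exact h3.symm
    rw [h2]
    exact hf.comp hμ

/-- the extension by the inner automorphisms is in the class -/
theorem C_FF (hC : ClosedE C) (hF : FbC C) {A : Fin 3 → Type} [∀ i, Group (A i)]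
    (h : ∀ i, C (Hol (A i))) : C (FF A) := by
  obtain ⟨f, hf⟩ : ∃ f : Monoid.CoprodI A →* FF A, f = SemidirectProduct.inl := ⟨_, rfl⟩
  have hfi : Function.Injective f := by rw [hf]; exact SemidirectProduct.inl_injective
  have hker : f.range = (SemidirectProduct.rightHom : FF A →* EE A).ker := by
    rw [hf]; exact SemidirectProduct.range_inl_eq_ker_rightHom
  have hn : f.range.Normal := by rw [hker]; exact MonoidHom.normal_ker _
  have hinj : ∀ i, Function.Injective (f.comp (of (M := A) (i := i))) := fun i =>
    hfi.comp (Monoid.CoprodI.of_injective i)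
  refine main_all hC hF (N := f.range) ?_ (fun i => (f.comp (of (M := A) (i := i))).range) Set.univ
    (isFreeProd_of_inj f hfi) (fun i hi => absurd (Set.mem_univ i) hi) ?_ ?_
  · have e : (FF A ⧸ f.range) ≃* (FF A ⧸ (SemidirectProduct.rightHom : FF A →* EE A).ker) :=
      QuotientGroup.quotientMulEquivOfEq hker
    refine C_equiv hC.base (e.trans (QuotientGroup.quotientKerEquivOfSurjective _
      SemidirectProduct.rightHom_surjective)) (C_EE hC hF h)
  · -- the classes
    intro i _ g
    have h1 : Cf (dl g.right.left) (Monoid.CoprodI.lift rhoP g.right.left⁻¹ 1) := by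
      have h1 : Cf (1 : MulAut (Monoid.CoprodI A)) 1 := by
        intro j y
        show of y = 1 * of y * 1⁻¹
        simp
      have h2 := Cf_step h1 g.right.left
      rwa [one_mul] at h2
    obtain ⟨k, hk⟩ : ∃ k, k = (Monoid.CoprodI.lift rhoP g.right.left⁻¹ 1 :
      Fin 3 → Monoid.CoprodI A) i := ⟨_, rfl⟩
    obtain ⟨p, hp⟩ : ∃ p, p = g.right.right := ⟨_, rfl⟩
    have h2 : ∀ y : A i, La A g.right (of y) = k * of (p i y) * k⁻¹ := by
      intro y
      rw [La_apply, MulAut.mul_apply, autOf_apply, fa_of, h1, hk, hp]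
    have h3 : ∀ y : A i, g * f (of y) * g⁻¹ = f (g.left * (k * of (p i y) * k⁻¹) * g.left⁻¹) := by
      intro y
      have h4 : g = SemidirectProduct.inl g.left * SemidirectProduct.inr g.right := by
        apply SemidirectProduct.ext
        · simp
        · simp
      rw [← h2, hf, map_mul, map_mul, map_inv, SemidirectProduct.inl_aut]
      conv_lhs => rw [h4]
      simp only [map_inv]
      group
    refine ⟨i, Set.mem_univ i, f (k⁻¹ * g.left⁻¹), ⟨_, rfl⟩, fun x => ?_⟩
    have h5 : ∀ y : A i, f (k⁻¹ * g.left⁻¹) * (g * f (of y) * g⁻¹) * (f (k⁻¹ * g.left⁻¹))⁻¹ =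
        f (of (p i y)) := by
      intro y
      rw [h3, ← map_inv, ← map_mul, ← map_mul]
      congr 1
      group
    constructor
    · rintro ⟨y, rfl⟩
      refine ⟨p i y, ?_⟩
      show f (of (p i y)) = _
      rw [← h5]
      rfl
    · rintro ⟨y, hy⟩
      have hy' : f (of y) = f (k⁻¹ * g.left⁻¹) * (g * x * g⁻¹) * (f (k⁻¹ * g.left⁻¹))⁻¹ := hy
      obtain ⟨z, rfl⟩ := (p i).surjective y
      rw [← h5 z] at hy'
      rw [mul_left_inj, mul_right_inj, mul_left_inj, mul_right_inj] at hy'
      exact ⟨z, hy'⟩
  · intro i _ g hg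
    exact hol_cyc hC _ (MonoidHom.ofInjective (hinj i)).symm (h i) g hg

/-! ### the groups of symmetric automorphisms -/

section sym

/-- the group of inner automorphisms -/
def Inn (N : Type) [Group N] : Subgroup (MulAut N) := (MulAut.conj : N →* MulAut N).range

instance (N : Type) [Group N] : (Inn N).Normal := by
  refine ⟨?_⟩
  rintro _ ⟨n, rfl⟩ φ
  refine ⟨φ n, ?_⟩
  ext x
  show φ n * x * (φ n)⁻¹ = φ (n * φ.symm x * n⁻¹)
  rw [map_mul, map_mul, map_inv, φ.apply_symm_apply]

variable (A : Fin 3 → Type) [∀ i, Group (A i)]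

/-- `φ` maps each factor to itself -/
def IsFactorAut (φ : MulAut (Monoid.CoprodI A)) : Prop :=
  ∀ i, ∃ α : MulAut (A i), ∀ x : A i, φ (of x) = of (α x)

/-- `φ` conjugates the factor `A j` by an element of another factor `A i` and is the identity on the
other two factors -/
def IsFactorConj (φ : MulAut (Monoid.CoprodI A)) : Prop :=
  ∃ (i j : Fin 3) (a : A i), i ≠ j ∧ (∀ y : A j, φ (of y) = of a * of y * (of a)⁻¹) ∧
    ∀ k, k ≠ j → ∀ y : A k, φ (of y) = of y

/-- the group of symmetric automorphisms which is generated by the automorphisms of the factors and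
the conjugations of a factor by elements of another one -/
def SymAut : Subgroup (MulAut (Monoid.CoprodI A)) :=
  Subgroup.closure {φ | IsFactorAut A φ ∨ IsFactorConj A φ}

/-- its image in the group of outer automorphisms -/
def SymOut : Subgroup (MulAut (Monoid.CoprodI A) ⧸ Inn (Monoid.CoprodI A)) :=
  (SymAut A).map (QuotientGroup.mk' (Inn (Monoid.CoprodI A)))

variable {A}

theorem dl_mem (i : Fin 3) (a : A i) : dl (of a) ∈ SymAut A := by
  refine Subgroup.subset_closure (Or.inr ⟨i, i + 1, a⁻¹, n1 i, fun y => ?_, fun k hk y => ?_⟩)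
  · rw [dl_of, cj_of, ct_self, map_inv]
  · rw [dl_of, cj_of, ct_ne hk]
    simp

theorem fa_mem (p : ∀ i, MulAut (A i)) : autOf fa p ∈ SymAut A := by
  refine Subgroup.subset_closure (Or.inl fun i => ⟨p i, fun x => ?_⟩)
  rw [autOf_apply, fa_of]

theorem dl_mem' (x : Monoid.CoprodI A) : dl x ∈ SymAut A := by
  induction x using Monoid.CoprodI.induction_on with
  | one => rw [map_one]; exact one_mem _
  | of i a => exact dl_mem i a
  | mul x y hx hy => rw [map_mul]; exact mul_mem hx hy

theorem La_mem (x : EE A) : La A x ∈ SymAut A := by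
  rw [La_apply]
  exact mul_mem (dl_mem' _) (fa_mem _)

/-- the product which conjugates the third factor -/
theorem comp3 (i : Fin 3) (a : A i) (j : Fin 3) (y : A j) :
    (MulAut.conj (of a) * (autOf fa (Pi.mulSingle i (MulAut.conj a)⁻¹) * dl (of a))) (of y) =
      if j = i + 2 then of a * of y * (of a)⁻¹ else of y := by
  obtain ⟨q, hq⟩ : ∃ q : ∀ i, MulAut (A i), q = Pi.mulSingle i (MulAut.conj a)⁻¹ := ⟨_, rfl⟩
  rw [← hq, MulAut.mul_apply, MulAut.mul_apply, dl_of, cj_of, autOf_apply, MulAut.conj_apply,
    map_mul (fa q), map_mul (fa q), fa_of, map_inv (fa q)]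
  rcases all3 i j with rfl | rfl | rfl
  · have h3 : q j y = a⁻¹ * y * a := by
      rw [hq, Pi.mulSingle_eq_same, ← map_inv, MulAut.conj_apply, inv_inv]
    rw [if_neg (n3 j), ct_ne (n1 j), map_one, h3, map_mul, map_mul, map_inv]
    group
  · have h3 : q i a = a := by
      rw [hq, Pi.mulSingle_eq_same, ← map_inv, MulAut.conj_apply, inv_inv, inv_mul_cancel, one_mul]
    have h4 : q (i + 1) y = y := by
      rw [hq, Pi.mulSingle_eq_of_ne (fun h => n1 i h.symm), MulAut.one_apply]
    rw [if_neg (fun h => n2 i h.symm), ct_self, map_inv (fa q), fa_of, h3, h4]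
    group
  · have h4 : q (i + 2) y = y := by
      rw [hq, Pi.mulSingle_eq_of_ne (fun h => n3 i h.symm), MulAut.one_apply]
    rw [if_pos rfl, ct_ne (n2 i), map_one, h4]
    group

/-- the conjugation of the third factor -/
theorem third {i : Fin 3} (a : A i) {φ : MulAut (Monoid.CoprodI A)}
    (h1 : ∀ y : A (i + 2), φ (of y) = of a * of y * (of a)⁻¹)
    (h2 : ∀ k, k ≠ i + 2 → ∀ y : A k, φ (of y) = of y) :
    φ = MulAut.conj (of a) * (autOf fa (Pi.mulSingle i (MulAut.conj a)⁻¹) * dl (of a)) := by
  apply aut_ext
  intro j y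
  rw [comp3]
  by_cases hj : j = i + 2
  · subst hj
    rw [if_pos rfl, h1]
  · rw [if_neg hj, h2 j hj]

theorem conj_mem' (i : Fin 3) (a : A i) : MulAut.conj (of a) ∈ SymAut A := by
  -- the conjugation of the third factor
  have hex : ∃ φ : MulAut (Monoid.CoprodI A), (∀ y : A (i + 2), φ (of y) = of a * of y * (of a)⁻¹) ∧
      ∀ k, k ≠ i + 2 → ∀ y : A k, φ (of y) = of y := by
    refine ⟨MulAut.conj (of a) * (autOf fa (Pi.mulSingle i (MulAut.conj a)⁻¹) * dl (of a)),
      fun y => ?_, fun k hk y => ?_⟩
    · rw [comp3, if_pos rfl]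
    · rw [comp3, if_neg hk]
  obtain ⟨φ, h1, h2⟩ := hex
  have h3 := third a h1 h2
  have h4 : φ ∈ SymAut A := Subgroup.subset_closure (Or.inr ⟨i, i + 2, a, n3 i, h1, h2⟩)
  have h5 : MulAut.conj (of a) =
      φ * (autOf fa (Pi.mulSingle i (MulAut.conj a)⁻¹) * dl (of a))⁻¹ := by
    rw [eq_mul_inv_iff_mul_eq, ← h3]
  rw [h5]
  exact mul_mem h4 (inv_mem (mul_mem (fa_mem _) (dl_mem _ _)))

theorem conj_mem'' (x : Monoid.CoprodI A) : MulAut.conj x ∈ SymAut A := by
  induction x using Monoid.CoprodI.induction_on with
  | one => rw [map_one]; exact one_mem _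
  | of i a => exact conj_mem' i a
  | mul x y hx hy => rw [map_mul]; exact mul_mem hx hy

/-- a generator is the product of an inner automorphism and an element of the image of `La` -/
theorem gen_ex {φ : MulAut (Monoid.CoprodI A)} (h : IsFactorAut A φ ∨ IsFactorConj A φ) :
    ∃ (n : Monoid.CoprodI A) (x : EE A), φ = MulAut.conj n * La A x := by
  rcases h with h | ⟨i, j, a, hij, h1, h2⟩
  · choose p hp using h
    refine ⟨1, SemidirectProduct.inr p, ?_⟩
    rw [map_one, one_mul, La_apply, SemidirectProduct.left_inr, SemidirectProduct.right_inr,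
      map_one, one_mul]
    apply aut_ext
    intro i x
    rw [hp, autOf_apply, fa_of]
  · rcases cases3 hij with rfl | rfl
    · refine ⟨1, SemidirectProduct.inl (of a⁻¹), ?_⟩
      rw [map_one, one_mul, La_apply, SemidirectProduct.left_inl, SemidirectProduct.right_inl,
        map_one, mul_one]
      apply aut_ext
      intro j y
      rw [dl_of, cj_of]
      by_cases hj : j = i + 1
      · subst hj
        rw [h1, ct_self, map_inv, inv_inv]
      · rw [h2 j hj, ct_ne hj]
        simp
    · refine ⟨of a, SemidirectProduct.inr (Pi.mulSingle i (MulAut.conj a)⁻¹) *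
        SemidirectProduct.inl (of a), ?_⟩
      rw [map_mul, La_apply, La_apply, SemidirectProduct.left_inl, SemidirectProduct.right_inl,
        SemidirectProduct.left_inr, SemidirectProduct.right_inr, map_one, map_one, one_mul, mul_one]
      exact third a h1 h2

theorem Om_range : (Om A).range = SymAut A := by
  apply le_antisymm
  · rintro _ ⟨x, rfl⟩
    rw [Om_apply]
    exact mul_mem (conj_mem'' _) (La_mem _)
  · rw [SymAut, Subgroup.closure_le]
    intro φ hφ
    obtain ⟨n, x, rfl⟩ := gen_ex hφ
    refine ⟨SemidirectProduct.inl n * SemidirectProduct.inr x, ?_⟩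
    rw [map_mul, Om_apply, Om_apply]
    simp

theorem La_range : ((QuotientGroup.mk' (Inn (Monoid.CoprodI A))).comp (La A)).range = SymOut A := by
  apply le_antisymm
  · rintro _ ⟨x, rfl⟩
    exact ⟨_, La_mem x, rfl⟩
  · rw [SymOut, SymAut, MonoidHom.map_closure, Subgroup.closure_le]
    rintro _ ⟨φ, hφ, rfl⟩
    obtain ⟨n, x, rfl⟩ := gen_ex hφ
    refine ⟨x, ?_⟩
    rw [map_mul]
    have h1 : QuotientGroup.mk' (Inn (Monoid.CoprodI A)) (MulAut.conj n) = 1 :=
      (QuotientGroup.eq_one_iff _).2 ⟨n, rfl⟩
    rw [h1, one_mul]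
    rfl

theorem La_out_injective [∀ i, Nontrivial (A i)] :
    Function.Injective ((QuotientGroup.mk' (Inn (Monoid.CoprodI A))).comp (La A)) := by
  rw [injective_iff_map_eq_one]
  intro x hx
  have h1 : La A x ∈ Inn (Monoid.CoprodI A) := (QuotientGroup.eq_one_iff _).1 hx
  obtain ⟨n, hn⟩ := h1
  exact (La_inn hn.symm).1

/-- the holomorphs are subgroups -/
theorem hol_EE (i : Fin 3) : ∃ f : Hol (A i) →* EE A, Function.Injective f := by
  classical
  refine ⟨SemidirectProduct.map of (MonoidHom.mulSingle (fun i => MulAut (A i)) i) ?_, ?_⟩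
  · intro α
    ext a : 1
    show of (α a) = fa (Pi.mulSingle i α) (of a)
    rw [fa_of, Pi.mulSingle_eq_same]
  · intro x y hxy
    apply SemidirectProduct.ext
    · exact Monoid.CoprodI.of_injective i (congrArg SemidirectProduct.left hxy)
    · exact Pi.mulSingle_injective (M := fun i => MulAut (A i)) i
        (congrArg SemidirectProduct.right hxy)

/-- **symmetric automorphisms of free products of three groups** -/
theorem sym_tfae (hC : ClosedE C) (hF : FbC C) (A : Fin 3 → Type) [∀ i, Group (A i)]
    [∀ i, Nontrivial (A i)] :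
    List.TFAE [∀ i, C (Hol (A i)), C ↥(SymOut A), C ↥(SymAut A)] := by
  have e1 : EE A ≃* SymOut A := (MonoidHom.ofInjective La_out_injective).trans
    (MulEquiv.subgroupCongr La_range)
  have e2 : FF A ≃* SymAut A := (MonoidHom.ofInjective Om_injective).trans
    (MulEquiv.subgroupCongr Om_range)
  tfae_have 1 → 2 := fun h => C_equiv hC.base e1.symm (C_EE hC hF h)
  tfae_have 1 → 3 := fun h => C_equiv hC.base e2.symm (C_FF hC hF h)
  tfae_have 2 → 1 := fun h i => by
    obtain ⟨f, hf⟩ := hol_EE (A := A) i
    exact hC.base.of_injective _ _ (e1.toMonoidHom.comp f) (e1.injective.comp hf) h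
  tfae_have 3 → 1 := fun h i => by
    obtain ⟨f, hf⟩ := hol_EE (A := A) i
    exact hC.base.of_injective _ _ ((e2.toMonoidHom.comp SemidirectProduct.inr).comp f)
      ((e2.injective.comp SemidirectProduct.inr_injective).comp hf) h
  tfae_finish

end sym

end Pool.Agent.R684.FP
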