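import Pool.Agent.R684.FP.ThreeC

/-!
# Symmetric automorphisms of free products of three groups
-/

set_option autoImplicit false

namespace Pool.Agent.R684.FP

open Pool.Agent.Y110.FJ
open Pool.Agent.Y462.SS (Closed)

/-- the free product of three groups -/
def FP3 (A : Fin 3 → Type) [∀ i, Group (A i)] : Type := Monoid.CoprodI A

instance (A : Fin 3 → Type) [∀ i, Group (A i)] : Group (FP3 A) :=
  inferInstanceAs (Group (Monoid.CoprodI A))

/-- the inclusion of a factor -/
def inc (A : Fin 3 → Type) [∀ i, Group (A i)] (i : Fin 3) : A i →* FP3 A := Monoid.CoprodI.of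

/-- the holomorph of a group: the semidirect product of the group with its automorphism group -/
def Holo (B : Type) [Group B] : Type := B ⋊[MonoidHom.id (MulAut B)] MulAut B

instance (B : Type) [Group B] : Group (Holo B) :=
  inferInstanceAs (Group (B ⋊[MonoidHom.id (MulAut B)] MulAut B))

/-- the group of outer automorphisms -/
def OutG (N : Type) [Group N] : Type := MulAut N ⧸ Inn N

instance (N : Type) [Group N] : Group (OutG N) := inferInstanceAs (Group (MulAut N ⧸ Inn N))

/-- the class of an automorphism -/
def toOut (N : Type) [Group N] : MulAut N →* OutG N := QuotientGroup.mk' (Inn N)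

section

variable (A : Fin 3 → Type) [∀ i, Group (A i)]

/-- `φ` is equal to `f` on the factor `A i` -/
def Restr (φ : MulAut (FP3 A)) (i : Fin 3) (f : A i → FP3 A) : Prop :=
  ∀ x : A i, φ (inc A i x) = f x

/-- `φ` maps each factor to itself -/
def FactorAut (φ : MulAut (FP3 A)) : Prop :=
  ∀ i, ∃ α : MulAut (A i), Restr A φ i fun x => inc A i (α x)

/-- `φ` conjugates the factor `A j` by an element of another factor `A i` and is the identity on the
other two factors -/
def FactorConj (φ : MulAut (FP3 A)) : Prop :=
  ∃ (i j : Fin 3) (a : A i), i ≠ j ∧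
    Restr A φ j (fun y => inc A i a * inc A j y * (inc A i a)⁻¹) ∧
    ∀ k, k ≠ j → Restr A φ k (inc A k)

/-- the group of symmetric automorphisms which is generated by the automorphisms of the factors and
the conjugations of a factor by elements of another one -/
def Sym3 : Subgroup (MulAut (FP3 A)) := Subgroup.closure {φ | FactorAut A φ ∨ FactorConj A φ}

/-- its image in the group of outer automorphisms -/
def SymOut3 : Subgroup (OutG (FP3 A)) := (Sym3 A).map (toOut (FP3 A))

end

theorem sym3_tfae {C : ∀ (G : Type) [Group G], Prop} (hC : ClosedE C) (hF : FbC C)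
    (A : Fin 3 → Type) [∀ i, Group (A i)] [∀ i, Nontrivial (A i)] :
    List.TFAE [∀ i, C (Holo (A i)), C ↥(SymOut3 A), C ↥(Sym3 A)] :=
  sym_tfae hC hF A

end Pool.Agent.R684.FP
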